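import Mathlib
import Pool.Agent.TH841.NF.Tm

set_option autoImplicit false

/-!
# The multiplicity of a quadratic character in the Mordell-Weil group
-/

namespace Pool.Agent.TH498.CO

open WeierstrassCurve

open Pool.Agent.TH841.NF (Sc tF tF_add tF_some tF_zero ns_iff)

open scoped Classical in
/-- the points `P` of `W` over `L` with `σ P = χ(σ) P` for all `σ` in `Gal(L/ℚ)` -/
noncomputable def Eig (W : WeierstrassCurve ℚ) (L : Type) [Field L] [NumberField L]
    (χ : (L ≃ₐ[ℚ] L) →* ℤˣ) : AddSubgroup (W⁄L).toAffine.Point where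
  carrier := {P | ∀ σ : L ≃ₐ[ℚ] L,
    Affine.Point.map (W' := W.toAffine) (σ : L →ₐ[ℚ] L) P = ((χ σ : ℤˣ) : ℤ) • P}
  add_mem' := by
    intro P Q hP hQ σ
    rw [map_add, hP σ, hQ σ, smul_add]
  zero_mem' := by
    intro σ
    rw [map_zero, smul_zero]
  neg_mem' := by
    intro P hP σ
    rw [map_neg, hP σ, smul_neg]

open scoped Classical in
/-- the multiplicity of `χ` in `W(L) ⊗ ℂ`: the rank of the group of the points `P` of `W` over `L`
with `σ P = χ(σ) P` for all `σ` in `Gal(L/ℚ)` -/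
noncomputable def mult (W : WeierstrassCurve ℚ) (L : Type) [Field L] [NumberField L]
    (χ : (L ≃ₐ[ℚ] L) →* ℤˣ) : ℕ := Module.finrank ℤ (Eig W L χ)

/-- the curve `y² = x³ + A x + B` over `ℚ` -/
def EQ (A B : ℤ) : WeierstrassCurve ℚ := ⟨0, 0, 0, (A : ℚ), (B : ℚ)⟩

lemma sc_of {A B d : ℤ} {L : Type} [Field L] [NumberField L] {r : L} (hd : d ≠ 0)
    (hr : r ^ 2 = (d : L)) :
    Sc (algebraMap ℚ L) r⁻¹ (EQ (d ^ 2 * A) (d ^ 3 * B)) ((EQ A B)⁄L) := by
  have hd' : (d : L) ≠ 0 := by exact_mod_cast hd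
  have hr0 : r ≠ 0 := by
    intro h
    rw [h] at hr
    apply hd'
    rw [← hr]
    ring
  refine ⟨inv_ne_zero hr0, ?_, ?_, ?_, ?_, ?_⟩
  · change algebraMap ℚ L 0 = algebraMap ℚ L 0 * _
    simp
  · change algebraMap ℚ L 0 = algebraMap ℚ L 0 * _
    simp
  · change algebraMap ℚ L 0 = algebraMap ℚ L 0 * _
    simp
  · change algebraMap ℚ L (A : ℚ) = algebraMap ℚ L ((d ^ 2 * A : ℤ) : ℚ) * _
    rw [map_intCast, map_intCast]
    push_cast
    rw [← hr]
    field_simp
  · change algebraMap ℚ L (B : ℚ) = algebraMap ℚ L ((d ^ 3 * B : ℤ) : ℚ) * _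
    rw [map_intCast, map_intCast]
    push_cast
    rw [← hr]
    field_simp

lemma exists_rat {L : Type} [Field L] [NumberField L] [IsGalois ℚ L] {x : L}
    (h : ∀ σ : L ≃ₐ[ℚ] L, σ x = x) : ∃ y : ℚ, algebraMap ℚ L y = x := by
  have h1 : x ∈ IntermediateField.fixedField (⊤ : Subgroup (L ≃ₐ[ℚ] L)) := by
    rw [IntermediateField.mem_fixedField_iff]
    exact fun σ _ => h σ
  rw [InfiniteGalois.fixedField_bot] at h1
  exact IntermediateField.mem_bot.1 h1

open scoped Classical in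
/-- **The multiplicity is at most the rank of the twist.** -/
theorem mult_le {A B d : ℤ} {L : Type} [Field L] [NumberField L] [IsGalois ℚ L] {r : L}
    (hd : d ≠ 0) (hr : r ^ 2 = (d : L)) (χ : (L ≃ₐ[ℚ] L) →* ℤˣ)
    (hχ : ∀ σ : L ≃ₐ[ℚ] L, σ r = ((χ σ : ℤˣ) : ℤ) * r)
    (hfin : Module.Finite ℤ (EQ (d ^ 2 * A) (d ^ 3 * B)).toAffine.Point) :
    mult (EQ A B) L χ ≤ Module.finrank ℤ (EQ (d ^ 2 * A) (d ^ 3 * B)).toAffine.Point := by
  have hd' : (d : L) ≠ 0 := by exact_mod_cast hd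
  have hr0 : r ≠ 0 := by
    intro h
    rw [h] at hr
    apply hd'
    rw [← hr]
    ring
  have S := sc_of (A := A) (B := B) hd hr
  let φ : (EQ (d ^ 2 * A) (d ^ 3 * B)).toAffine.Point →+ ((EQ A B)⁄L).toAffine.Point :=
    { toFun := tF S, map_zero' := tF_zero S, map_add' := tF_add S }
  have hinj : Function.Injective φ := by
    rw [injective_iff_map_eq_zero]
    intro P hP
    match P with
    | 0 => rfl
    | .some x y h =>
      change tF S (.some x y h) = 0 at hP
      rw [tF_some] at hP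
      cases hP
  have hle : ∀ P : Eig (EQ A B) L χ, ∃ Q, φ Q = P.1 := by
    rintro ⟨P, hP⟩
    match P, hP with
    | 0, _ => exact ⟨0, map_zero φ⟩
    | .some x y h, hP =>
      have hP' : ∀ σ : L ≃ₐ[ℚ] L, Affine.Point.map (W' := (EQ A B).toAffine) (σ : L →ₐ[ℚ] L)
          (Affine.Point.some x y h) = ((χ σ : ℤˣ) : ℤ) • Affine.Point.some x y h := hP
      have hneg : ((EQ A B)⁄L).toAffine.negY x y = -y := by
        change -y - algebraMap ℚ L 0 * x - algebraMap ℚ L 0 = -y
        simp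
      have h1 : ∀ σ : L ≃ₐ[ℚ] L, σ x = x ∧ σ y = ((χ σ : ℤˣ) : ℤ) * y := by
        intro σ
        have h2 := hP' σ
        rw [Affine.Point.map_some] at h2
        rcases Int.units_eq_one_or (χ σ) with hc | hc
        · rw [hc] at h2 ⊢
          rw [Units.val_one, one_smul, Affine.Point.some.injEq] at h2
          refine ⟨h2.1, ?_⟩
          rw [Units.val_one, Int.cast_one, one_mul]
          exact h2.2
        · rw [hc] at h2 ⊢
          rw [Units.val_neg, Units.val_one, neg_smul, one_smul, Affine.Point.neg_some,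
            Affine.Point.some.injEq] at h2
          refine ⟨h2.1, ?_⟩
          rw [Units.val_neg, Units.val_one, Int.cast_neg, Int.cast_one, neg_mul, one_mul, ← hneg]
          exact h2.2
      obtain ⟨x0, hx0⟩ := exists_rat (x := x * r ^ 2) (by
        intro σ
        rw [map_mul, (h1 σ).1, hr, map_intCast])
      obtain ⟨y0, hy0⟩ := exists_rat (x := y * r ^ 3) (by
        intro σ
        rw [map_mul, map_pow, (h1 σ).2, hχ σ]
        have h2 : (((χ σ : ℤˣ) : ℤ) : L) ^ 4 = 1 := by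
          rcases Int.units_eq_one_or (χ σ) with hc | hc <;> rw [hc] <;> norm_num
        calc (((χ σ : ℤˣ) : ℤ) : L) * y * ((((χ σ : ℤˣ) : ℤ) : L) * r) ^ 3 =
            (((χ σ : ℤˣ) : ℤ) : L) ^ 4 * (y * r ^ 3) := by ring
          _ = _ := by rw [h2, one_mul])
      have ex : algebraMap ℚ L x0 * r⁻¹ ^ 2 = x := by
        rw [hx0]
        field_simp
      have ey : algebraMap ℚ L y0 * r⁻¹ ^ 3 = y := by
        rw [hy0]
        field_simp
      have hns : (EQ (d ^ 2 * A) (d ^ 3 * B)).toAffine.Nonsingular x0 y0 := by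
        rw [← ns_iff S, ex, ey]
        exact h
      refine ⟨.some x0 y0 hns, ?_⟩
      change tF S (.some x0 y0 hns) = _
      rw [tF_some, Affine.Point.some.injEq]
      exact ⟨ex, ey⟩
  choose g hg using hle
  have hgadd : ∀ P Q, g (P + Q) = g P + g Q := by
    intro P Q
    apply hinj
    rw [map_add, hg, hg, hg]
    rfl
  let ψ : Eig (EQ A B) L χ →+ (EQ (d ^ 2 * A) (d ^ 3 * B)).toAffine.Point :=
    AddMonoidHom.mk' g hgadd
  have hψ : Function.Injective ψ := by
    intro P Q h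
    have h' : g P = g Q := h
    apply Subtype.ext
    rw [← hg P, ← hg Q, h']
  have h1 := LinearMap.rank_le_of_injective ψ.toIntLinearMap hψ
  rw [← Module.finrank_eq_rank ℤ (EQ (d ^ 2 * A) (d ^ 3 * B)).toAffine.Point] at h1
  exact Module.finrank_le_of_rank_le h1

end Pool.Agent.TH498.CO
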