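import Pool.Agent.TH498.CO.Agg

set_option autoImplicit false

/-!
# Sums over all the twists of an arbitrary weight, the end
-/

namespace Pool.Agent.TH498.CO

open Finset Pool.Agent.W307.SE Pool.Agent.TH498.AR Pool.Agent.H328R2.ABC

/-- **The large twists.** -/
theorem agg_big (K : ℝ) (hK : 0 ≤ K) :
    ∃ C : ℝ, 1 ≤ C ∧ ∀ (f : ℤ → ℕ × ℕ → ℝ) (c7 X : ℝ), 0 ≤ c7 → 1 ≤ X →
    ∀ (d' s : ℤ) (i j : ℕ), PtH f K X (c7 * X ^ (1 / 240000 : ℝ)) d' s i j →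
    ∑ x ∈ ((Icc 1 ⌊X⌋₊) ×ˢ (Icc 1 ⌊X⌋₊)).filter (fun x : ℕ × ℕ =>
        ¬ ((x.1 : ℝ) ≤ X ^ (1 / 4000 : ℝ) ∧ (x.2 : ℝ) ≤ X ^ (1 / 4000 : ℝ))),
      ∑ p ∈ TT X K x.1 x.2, f (d' * (s * ((GG i j x.1 x.2 : ℕ) : ℤ))) p ≤
      C * c7 * X ^ (2 / 3 - 1 / 48000 : ℝ) := by
  classical
  obtain ⟨e, he⟩ : ∃ e : ℝ, e = 1 / 240000 := ⟨_, rfl⟩
  have he0 : 0 < e := by rw [he]; norm_num
  obtain ⟨C2, hC2, huu⟩ := uu_card K e hK he0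
  obtain ⟨C3, hC3, hsm⟩ := Pool.Agent.TH867.SR.smooth_count e he0
  have hsum : Summable fun n : ℕ => ((n : ℝ) ^ (7 / 6 : ℝ))⁻¹ :=
    Real.summable_nat_rpow_inv.2 (by norm_num)
  obtain ⟨Z, hZ⟩ : ∃ Z : ℝ, Z = ∑' n : ℕ, ((n : ℝ) ^ (7 / 6 : ℝ))⁻¹ := ⟨_, rfl⟩
  have hZ0 : 0 ≤ Z := by rw [hZ]; exact tsum_nonneg fun n => by positivity
  refine ⟨C2 * C3 * Z + 1, by
    have : 0 ≤ C2 * C3 * Z := by positivity
    linarith, ?_⟩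
  intro f C1 X hC1 hX d' s i j hpt
  have hX0 : 0 < X := by linarith
  obtain ⟨B, hB⟩ : ∃ B : ℕ, B = ⌊X⌋₊ := ⟨_, rfl⟩
  have hBX : (B : ℝ) ≤ X := by rw [hB]; exact Nat.floor_le hX0.le
  have hB1 : 1 ≤ B := by rw [hB]; exact Nat.le_floor (by exact_mod_cast hX)
  rw [← hB]
  set Q : Finset (ℕ × ℕ) := ((Icc 1 B) ×ˢ (Icc 1 B)).filter (fun x : ℕ × ℕ =>
    ¬ ((x.1 : ℝ) ≤ X ^ (1 / 4000 : ℝ) ∧ (x.2 : ℝ) ≤ X ^ (1 / 4000 : ℝ))) with hQ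
  have hQm : ∀ x ∈ Q, 0 < x.1 ∧ 0 < x.2 ∧ x.1 ≤ B ∧ x.2 ≤ B ∧
      ¬ ((x.1 : ℝ) ≤ X ^ (1 / 4000 : ℝ) ∧ (x.2 : ℝ) ≤ X ^ (1 / 4000 : ℝ)) := by
    intro x hx
    obtain ⟨h1, h2⟩ := mem_filter.1 hx
    obtain ⟨h3, h4⟩ := mem_product.1 h1
    obtain ⟨h5, h6⟩ := mem_Icc.1 h3
    obtain ⟨h7, h8⟩ := mem_Icc.1 h4
    exact ⟨h5, h7, h6, h8, h2⟩
  have hk1 : ∑ x ∈ Q, ∑ p ∈ TT X K x.1 x.2, f (d' * (s * ((GG i j x.1 x.2 : ℕ) : ℤ))) p ≤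
      (C1 * X ^ e) * ∑ x ∈ Q, ((TT X K x.1 x.2).card : ℝ) := by
    rw [mul_sum]
    refine sum_le_sum fun x hx => ?_
    obtain ⟨h1, h2, -⟩ := hQm x hx
    have hw : ∀ p ∈ TT X K x.1 x.2, f (d' * (s * ((GG i j x.1 x.2 : ℕ) : ℤ))) p ≤
        C1 * X ^ e := fun p hp => by rw [he]; exact hpt x.1 x.2 h1 h2 p hp
    refine (sum_le_card_nsmul _ _ _ hw).trans (le_of_eq ?_)
    rw [nsmul_eq_mul, mul_comm]
  -- the number of the triples `(g₁, g₂, p)`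
  have hk2 : ∑ x ∈ Q, (TT X K x.1 x.2).card ≤ ∑ g₂ ∈ Icc 1 B, ∑ p ∈ UU X K g₂,
      ((Icc 1 B).filter fun a => a.primeFactors ⊆
        (rad (p.1 * p.2 * (p.1 + p.2))).primeFactors).card := by
    have e1 : ∑ x ∈ Q, (TT X K x.1 x.2).card = (Q.sigma fun x => TT X K x.1 x.2).card :=
      (card_sigma _ _).symm
    have e2 : ∑ g₂ ∈ Icc 1 B, ∑ p ∈ UU X K g₂,
        ((Icc 1 B).filter fun a => a.primeFactors ⊆
          (rad (p.1 * p.2 * (p.1 + p.2))).primeFactors).card =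
        ((Icc 1 B).sigma fun g₂ => (UU X K g₂).sigma fun p =>
          (Icc 1 B).filter fun a => a.primeFactors ⊆
            (rad (p.1 * p.2 * (p.1 + p.2))).primeFactors).card := by
      rw [card_sigma]
      exact sum_congr rfl fun g₂ _ => (card_sigma _ _).symm
    rw [e1, e2]
    refine card_le_card_of_injOn (fun y => ⟨y.1.2, y.2, y.1.1⟩) ?_ ?_
    · rintro ⟨x, p⟩ hy
      rw [mem_coe, mem_sigma] at hy
      obtain ⟨hx, hp⟩ := hy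
      simp only at hx hp
      obtain ⟨h1, h2, h3, h4, h5⟩ := hQm x hx
      obtain ⟨a1, a2, a3, a4, a5, a6⟩ := mem_TT.1 hp
      simp only [mem_coe, mem_sigma, mem_filter, mem_Icc]
      refine ⟨⟨h2, h4⟩, big_sub hX h1 h2 h5 hp, ⟨h1, h3⟩, ?_⟩
      have hn0 : p.1 * p.2 * (p.1 + p.2) ≠ 0 := by
        have : 0 < p.2 := by omega
        positivity
      rw [rad, Nat.primeFactors_prod fun q hq => Nat.prime_of_mem_primeFactors hq]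
      exact Nat.primeFactors_mono a4 hn0
    · rintro ⟨x, p⟩ _ ⟨x', p'⟩ _ h
      simp only [Sigma.mk.injEq, heq_eq_eq] at h
      obtain ⟨h1, h2, h3⟩ := h
      have : x = x' := Prod.ext h3 h1
      subst this
      rw [h2]
  have hk3 : ∀ g₂ ∈ Icc 1 B, ∑ p ∈ UU X K g₂, (((Icc 1 B).filter fun a => a.primeFactors ⊆
        (rad (p.1 * p.2 * (p.1 + p.2))).primeFactors).card : ℝ) ≤
      (C2 * C3 * X ^ (2 / 3 - 1 / 24000 + 4 * e : ℝ)) * ((g₂ : ℝ) ^ (7 / 6 : ℝ))⁻¹ := by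
    intro g₂ hg
    obtain ⟨hg1, -⟩ := mem_Icc.1 hg
    have h1 : ∀ p ∈ UU X K g₂, (((Icc 1 B).filter fun a => a.primeFactors ⊆
        (rad (p.1 * p.2 * (p.1 + p.2))).primeFactors).card : ℝ) ≤ C3 * X ^ e * X ^ e := by
      intro p hp
      unfold UU at hp
      obtain ⟨-, -, -, -, -, h4', -⟩ := mem_filter.1 hp
      have h2 := hsm B (rad (p.1 * p.2 * (p.1 + p.2))) hB1 (rad_pos _)
      refine h2.trans ?_
      refine mul_le_mul ?_ (Real.rpow_le_rpow (Nat.cast_nonneg _) h4' he0.le) (by positivity)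
        (by positivity)
      exact mul_le_mul_of_nonneg_left (Real.rpow_le_rpow (Nat.cast_nonneg _) hBX he0.le) hC3.le
    refine (sum_le_card_nsmul _ _ _ h1).trans ?_
    rw [nsmul_eq_mul]
    calc ((UU X K g₂).card : ℝ) * (C3 * X ^ e * X ^ e)
        ≤ (C2 * X ^ (2 / 3 - 1 / 24000 + 2 * e : ℝ) * ((g₂ : ℝ) ^ (7 / 6 : ℝ))⁻¹) *
          (C3 * X ^ e * X ^ e) := mul_le_mul_of_nonneg_right (huu X hX g₂ hg1) (by positivity)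
      _ = (C2 * C3 * (X ^ (2 / 3 - 1 / 24000 + 2 * e : ℝ) * X ^ e * X ^ e)) *
          ((g₂ : ℝ) ^ (7 / 6 : ℝ))⁻¹ := by ring
      _ = _ := by
          rw [← Real.rpow_add hX0, ← Real.rpow_add hX0]
          congr 3
          ring
  have hk4 : ∑ x ∈ Q, ((TT X K x.1 x.2).card : ℝ) ≤
      C2 * C3 * X ^ (2 / 3 - 1 / 24000 + 4 * e : ℝ) * Z := by
    have h1 : ∑ x ∈ Q, ((TT X K x.1 x.2).card : ℝ) ≤ ∑ g₂ ∈ Icc 1 B, ∑ p ∈ UU X K g₂,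
        (((Icc 1 B).filter fun a => a.primeFactors ⊆
        (rad (p.1 * p.2 * (p.1 + p.2))).primeFactors).card : ℝ) := by exact_mod_cast hk2
    refine h1.trans ((sum_le_sum hk3).trans ?_)
    rw [← mul_sum]
    refine mul_le_mul_of_nonneg_left ?_ (by positivity)
    rw [hZ]
    exact hsum.sum_le_tsum _ (fun n _ => by positivity)
  refine hk1.trans ?_
  have hXe : 0 < X ^ e := by positivity
  calc (C1 * X ^ e) * ∑ x ∈ Q, ((TT X K x.1 x.2).card : ℝ)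
      ≤ (C1 * X ^ e) * (C2 * C3 * X ^ (2 / 3 - 1 / 24000 + 4 * e : ℝ) * Z) :=
        mul_le_mul_of_nonneg_left hk4 (by positivity)
    _ = C1 * (C2 * C3 * Z) * (X ^ e * X ^ (2 / 3 - 1 / 24000 + 4 * e : ℝ)) := by ring
    _ = (C2 * C3 * Z) * C1 * X ^ (2 / 3 - 1 / 48000 : ℝ) := by
        rw [← Real.rpow_add hX0, he]
        have : (1 / 240000 + (2 / 3 - 1 / 24000 + 4 * (1 / 240000)) : ℝ) =
            2 / 3 - 1 / 48000 := by norm_num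
        rw [this]
        ring
    _ ≤ _ := mul_le_mul_of_nonneg_right (mul_le_mul_of_nonneg_right (by linarith) hC1)
        (by positivity)

/-- **The small twists.** -/
theorem agg_smalls (K B C2 : ℝ) (hB : 1 ≤ B) (hC2 : 1 ≤ C2) :
    ∃ C : ℝ, 1 ≤ C ∧ ∀ (f : ℤ → ℕ × ℕ → ℝ), (∀ D p, 0 ≤ f D p) →
    ∀ (C1 δ c7 X : ℝ), 0 ≤ C1 → 0 ≤ δ → 0 ≤ c7 → 1 ≤ X → ∀ d' : ℤ, d' ≠ 0 →
    MnH f B C1 C2 δ (X ^ (1 - 1 / 1000 : ℝ)) →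
    ∀ s : ℤ, (s = 1 ∨ s = -1) → ∀ i j : ℕ, i ≤ 1 → j ≤ 2 →
    PtH f K X (c7 * X ^ (1 / 240000 : ℝ)) d' s i j →
    ∑ x ∈ ((Icc 1 ⌊X⌋₊) ×ˢ (Icc 1 ⌊X⌋₊)).filter (fun x : ℕ × ℕ =>
        (x.1 : ℝ) ≤ X ^ (1 / 4000 : ℝ) ∧ (x.2 : ℝ) ≤ X ^ (1 / 4000 : ℝ)),
      ∑ p ∈ TT X K x.1 x.2, f (d' * (s * ((GG i j x.1 x.2 : ℕ) : ℤ))) p ≤
      C * (δ * C1 * B ^ d'.natAbs.primeFactors.card * X ^ ((2 : ℝ) / 3) +
        c7 * X ^ (2 / 3 - 1 / 2000 : ℝ)) := by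
  classical
  obtain ⟨C3, hC3, hst⟩ := agg_small K
  obtain ⟨D1, hD1, hs1⟩ := sum_g1 (C2 * B) (by nlinarith)
  obtain ⟨D2, hD2, hs2⟩ := sum_g2 B hB
  refine ⟨B ^ 2 * (D1 * D2) + C3, by
    have : 0 ≤ B ^ 2 * (D1 * D2) := by positivity
    linarith, ?_⟩
  intro f hf0 C1 δ c7 X hC1 hδ hc7 hX d' hd' hmain s hs i j hi hj hpt
  have hX0 : 0 < X := by linarith
  obtain ⟨V, hV⟩ : ∃ V : ℝ, V = B ^ d'.natAbs.primeFactors.card := ⟨_, rfl⟩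
  have hV1 : 1 ≤ V := by rw [hV]; exact one_le_pow₀ hB
  rw [← hV]
  obtain ⟨b, hb⟩ : ∃ b : ℕ, b = ⌊X⌋₊ := ⟨_, rfl⟩
  rw [← hb]
  set Q : Finset (ℕ × ℕ) := ((Icc 1 b) ×ˢ (Icc 1 b)).filter (fun x : ℕ × ℕ =>
    (x.1 : ℝ) ≤ X ^ (1 / 4000 : ℝ) ∧ (x.2 : ℝ) ≤ X ^ (1 / 4000 : ℝ)) with hQ
  have hQm : ∀ x ∈ Q, 0 < x.1 ∧ 0 < x.2 ∧ (x.1 : ℝ) ≤ X ^ (1 / 4000 : ℝ) ∧
      (x.2 : ℝ) ≤ X ^ (1 / 4000 : ℝ) := by
    intro x hx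
    obtain ⟨h1, h2⟩ := mem_filter.1 hx
    obtain ⟨h3, h4⟩ := mem_product.1 h1
    exact ⟨(mem_Icc.1 h3).1, (mem_Icc.1 h4).1, h2.1, h2.2⟩
  have hk1 : ∀ x ∈ Q, ∑ p ∈ TT X K x.1 x.2, f (d' * (s * ((GG i j x.1 x.2 : ℕ) : ℤ))) p ≤
      δ * (V * (C1 * B ^ 2) * X ^ ((2 : ℝ) / 3)) *
        (((C2 * B) ^ x.1.primeFactors.card * (((rad x.1 : ℝ) * x.1) ^ ((2 : ℝ) / 3))⁻¹) *
        (B ^ x.2.primeFactors.card * (((x.2 : ℝ) ^ 2) ^ ((2 : ℝ) / 3))⁻¹)) +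
      C3 * c7 * X ^ (2 / 3 - 1 / 1000 : ℝ) := by
    intro x hx
    obtain ⟨h1, h2, h3, h4⟩ := hQm x hx
    refine (hst f hf0 B C1 C2 δ c7 X hB hC1 hC2 hδ hc7 hX d' hd' hmain s hs i j hi hj hpt
      x.1 x.2 h1 h2 h3 h4).trans ?_
    rw [← hV]
    refine add_le_add ?_ le_rfl
    have r1 : (0 : ℝ) < x.1 := by exact_mod_cast h1
    have r2 : (0 : ℝ) < x.2 := by exact_mod_cast h2
    have rr : (0 : ℝ) < rad x.1 := by exact_mod_cast rad_pos x.1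
    have e1 : (X / ((rad x.1 : ℝ) * x.1 * (x.2 : ℝ) ^ 2)) ^ ((2 : ℝ) / 3) =
        X ^ ((2 : ℝ) / 3) * ((((rad x.1 : ℝ) * x.1) ^ ((2 : ℝ) / 3))⁻¹ *
          (((x.2 : ℝ) ^ 2) ^ ((2 : ℝ) / 3))⁻¹) := by
      rw [Real.div_rpow hX0.le (by positivity), Real.mul_rpow (by positivity) (by positivity),
        div_eq_mul_inv, mul_inv]
    have e2 : B ^ (GG i j x.1 x.2).primeFactors.card ≤
        B ^ 2 * (B ^ x.1.primeFactors.card * B ^ x.2.primeFactors.card) := by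
      rw [← pow_add, ← pow_add]
      exact pow_le_pow_right₀ hB (card_pf i j x.1 x.2)
    rw [e1]
    calc δ * (V * (C1 * C2 ^ x.1.primeFactors.card * B ^ (GG i j x.1 x.2).primeFactors.card) *
          (X ^ ((2 : ℝ) / 3) * ((((rad x.1 : ℝ) * x.1) ^ ((2 : ℝ) / 3))⁻¹ *
          (((x.2 : ℝ) ^ 2) ^ ((2 : ℝ) / 3))⁻¹)))
        ≤ δ * (V * (C1 * C2 ^ x.1.primeFactors.card *
          (B ^ 2 * (B ^ x.1.primeFactors.card * B ^ x.2.primeFactors.card))) *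
          (X ^ ((2 : ℝ) / 3) * ((((rad x.1 : ℝ) * x.1) ^ ((2 : ℝ) / 3))⁻¹ *
          (((x.2 : ℝ) ^ 2) ^ ((2 : ℝ) / 3))⁻¹))) := by
          refine mul_le_mul_of_nonneg_left ?_ hδ
          refine mul_le_mul_of_nonneg_right ?_ (by positivity)
          refine mul_le_mul_of_nonneg_left ?_ (by linarith)
          exact mul_le_mul_of_nonneg_left e2 (by positivity)
      _ = _ := by
          rw [mul_pow]
          ring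
  have hQc : (Q.card : ℝ) ≤ X ^ (1 / 2000 : ℝ) := by
    obtain ⟨y, hy⟩ : ∃ y : ℝ, y = X ^ (1 / 4000 : ℝ) := ⟨_, rfl⟩
    have hy0 : 0 ≤ y := by rw [hy]; positivity
    have h1 : Q ⊆ (Icc 1 ⌊y⌋₊) ×ˢ (Icc 1 ⌊y⌋₊) := by
      intro x hx
      obtain ⟨h1, h2, h3, h4⟩ := hQm x hx
      rw [← hy] at h3 h4
      rw [mem_product, mem_Icc, mem_Icc]
      exact ⟨⟨h1, Nat.le_floor h3⟩, h2, Nat.le_floor h4⟩
    have h2 := card_le_card h1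
    rw [card_product, Nat.card_Icc, Nat.add_sub_cancel] at h2
    have h3 : (Q.card : ℝ) ≤ (⌊y⌋₊ : ℝ) * ⌊y⌋₊ := by exact_mod_cast h2
    refine h3.trans ?_
    calc (⌊y⌋₊ : ℝ) * ⌊y⌋₊ ≤ y * y := by
          have := Nat.floor_le hy0
          gcongr
      _ = _ := by
          rw [hy, ← Real.rpow_add hX0]
          norm_num
  refine (sum_le_sum hk1).trans ?_
  rw [sum_add_distrib, sum_const, nsmul_eq_mul, ← mul_sum]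
  have hsub : Q ⊆ (Icc 1 b) ×ˢ (Icc 1 b) := filter_subset _ _
  have hk2 : ∑ x ∈ Q, (((C2 * B) ^ x.1.primeFactors.card *
        (((rad x.1 : ℝ) * x.1) ^ ((2 : ℝ) / 3))⁻¹) *
        (B ^ x.2.primeFactors.card * (((x.2 : ℝ) ^ 2) ^ ((2 : ℝ) / 3))⁻¹)) ≤ D1 * D2 := by
    refine (sum_le_sum_of_subset_of_nonneg hsub fun x _ _ => by positivity).trans ?_
    rw [sum_product]
    refine le_trans (le_of_eq ?_) (mul_le_mul (hs1 b) (hs2 b)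
      (sum_nonneg fun x _ => by positivity) (by linarith))
    rw [sum_mul_sum]
  have hk3 : (Q.card : ℝ) * (C3 * c7 * X ^ (2 / 3 - 1 / 1000 : ℝ)) ≤
      C3 * c7 * X ^ (2 / 3 - 1 / 2000 : ℝ) := by
    calc (Q.card : ℝ) * (C3 * c7 * X ^ (2 / 3 - 1 / 1000 : ℝ))
        ≤ X ^ (1 / 2000 : ℝ) * (C3 * c7 * X ^ (2 / 3 - 1 / 1000 : ℝ)) :=
          mul_le_mul_of_nonneg_right hQc (by positivity)
      _ = C3 * c7 * (X ^ (1 / 2000 : ℝ) * X ^ (2 / 3 - 1 / 1000 : ℝ)) := by ring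
      _ = _ := by
          rw [← Real.rpow_add hX0]
          norm_num
  have hx1 : 0 ≤ δ * C1 * V * X ^ ((2 : ℝ) / 3) := by positivity
  have hx2 : 0 ≤ c7 * X ^ (2 / 3 - 1 / 2000 : ℝ) := by positivity
  have hx3 : 0 ≤ B ^ 2 * (D1 * D2) := by positivity
  calc _ ≤ δ * (V * (C1 * B ^ 2) * X ^ ((2 : ℝ) / 3)) * (D1 * D2) +
        C3 * c7 * X ^ (2 / 3 - 1 / 2000 : ℝ) :=
        add_le_add (mul_le_mul_of_nonneg_left hk2 (by positivity)) hk3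
    _ = B ^ 2 * (D1 * D2) * (δ * C1 * V * X ^ ((2 : ℝ) / 3)) +
        C3 * (c7 * X ^ (2 / 3 - 1 / 2000 : ℝ)) := by ring
    _ ≤ (B ^ 2 * (D1 * D2) + C3) * (δ * C1 * V * X ^ ((2 : ℝ) / 3)) +
        (B ^ 2 * (D1 * D2) + C3) * (c7 * X ^ (2 / 3 - 1 / 2000 : ℝ)) := by
        refine add_le_add (mul_le_mul_of_nonneg_right (by linarith) hx1)
          (mul_le_mul_of_nonneg_right (by linarith) hx2)
    _ = _ := by ring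

/-- **All the twists.** -/
theorem agg_all (K B C2 : ℝ) (hK : 0 ≤ K) (hB : 1 ≤ B) (hC2 : 1 ≤ C2) :
    ∃ C : ℝ, 1 ≤ C ∧ ∀ (f : ℤ → ℕ × ℕ → ℝ), (∀ D p, 0 ≤ f D p) →
    ∀ (C1 δ c7 X : ℝ), 0 ≤ C1 → 0 ≤ δ → 0 ≤ c7 → 1 ≤ X → ∀ d' : ℤ, d' ≠ 0 →
    MnH f B C1 C2 δ (X ^ (1 - 1 / 1000 : ℝ)) →
    ∀ s : ℤ, (s = 1 ∨ s = -1) → ∀ i j : ℕ, i ≤ 1 → j ≤ 2 →
    PtH f K X (c7 * X ^ (1 / 240000 : ℝ)) d' s i j →
    ∑ x ∈ (Icc 1 ⌊X⌋₊) ×ˢ (Icc 1 ⌊X⌋₊),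
      ∑ p ∈ TT X K x.1 x.2, f (d' * (s * ((GG i j x.1 x.2 : ℕ) : ℤ))) p ≤
      C * (δ * C1 * B ^ d'.natAbs.primeFactors.card * X ^ ((2 : ℝ) / 3) +
        c7 * X ^ (2 / 3 - 1 / 48000 : ℝ)) := by
  classical
  obtain ⟨C3, hC3, h1⟩ := agg_smalls K B C2 hB hC2
  obtain ⟨C4, hC4, h2⟩ := agg_big K hK
  refine ⟨C3 + C4, by linarith, ?_⟩
  intro f hf0 C1 δ c7 X hC1 hδ hc7 hX d' hd' hmain s hs i j hi hj hpt
  have hX0 : 0 < X := by linarith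
  have h3 := h1 f hf0 C1 δ c7 X hC1 hδ hc7 hX d' hd' hmain s hs i j hi hj hpt
  have h4 := h2 f c7 X hc7 hX d' s i j hpt
  rw [← sum_filter_add_sum_filter_not ((Icc 1 ⌊X⌋₊) ×ˢ (Icc 1 ⌊X⌋₊)) (fun x : ℕ × ℕ =>
        (x.1 : ℝ) ≤ X ^ (1 / 4000 : ℝ) ∧ (x.2 : ℝ) ≤ X ^ (1 / 4000 : ℝ))]
  have hx1 : 0 ≤ δ * C1 * B ^ d'.natAbs.primeFactors.card * X ^ ((2 : ℝ) / 3) := by positivity
  have hx2 : X ^ (2 / 3 - 1 / 2000 : ℝ) ≤ X ^ (2 / 3 - 1 / 48000 : ℝ) :=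
    Real.rpow_le_rpow_of_exponent_le hX (by norm_num)
  have hx3 : c7 * X ^ (2 / 3 - 1 / 2000 : ℝ) ≤ c7 * X ^ (2 / 3 - 1 / 48000 : ℝ) :=
    mul_le_mul_of_nonneg_left hx2 hc7
  refine (add_le_add h3 h4).trans ?_
  calc C3 * (δ * C1 * B ^ d'.natAbs.primeFactors.card * X ^ ((2 : ℝ) / 3) +
        c7 * X ^ (2 / 3 - 1 / 2000 : ℝ)) + C4 * c7 * X ^ (2 / 3 - 1 / 48000 : ℝ)
      ≤ C3 * (δ * C1 * B ^ d'.natAbs.primeFactors.card * X ^ ((2 : ℝ) / 3) +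
        c7 * X ^ (2 / 3 - 1 / 48000 : ℝ)) + (C4 * (c7 * X ^ (2 / 3 - 1 / 48000 : ℝ)) +
        C4 * (δ * C1 * B ^ d'.natAbs.primeFactors.card * X ^ ((2 : ℝ) / 3))) := by
        refine add_le_add (mul_le_mul_of_nonneg_left (by linarith) (by linarith)) ?_
        have : 0 ≤ C4 * (δ * C1 * B ^ d'.natAbs.primeFactors.card * X ^ ((2 : ℝ) / 3)) :=
          mul_nonneg (by linarith) hx1
        linarith
    _ = _ := by ring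

end Pool.Agent.TH498.CO
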