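import Pool.Agent.TH498.CO.Tur2

set_option autoImplicit false

/-!
# The exceptional pairs in a dyadic box
-/

namespace Pool.Agent.TH498.CO

open Finset Filter Pool.Agent.TH344.DT

open Pool.Agent.TH344.DT.Tur (Q L o o_eq L_nonneg L_tendsto o_le)

/-- the numbers of the prime factors of `u`, `v`, `u + v` -/
def om3 (p : ℕ × ℕ) : Fin 3 → ℕ :=
  ![p.1.primeFactors.card, p.2.primeFactors.card, (p.1 + p.2).primeFactors.card]

lemma om3_eq (p : ℕ × ℕ) : omz ((-(p.1 : ℤ), (p.2 : ℤ)) : ℤ × ℤ) = om3 p := by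
  unfold omz om3
  have h1 : (-(p.1 : ℤ)).natAbs = p.1 := by rw [Int.natAbs_neg, Int.natAbs_natCast]
  have h3 : ((-(p.1 : ℤ)) - (p.2 : ℤ)).natAbs = p.1 + p.2 := by omega
  simp only [h1, h3, Int.natAbs_natCast]

open Classical in
/-- the integers with an exceptional number of small prime factors -/
noncomputable def BadN (M : ℕ) (δ : ℝ) (a H : ℕ) : Finset ℕ :=
  (Ioc a (a + H)).filter (fun n => δ * L M < |(o M n : ℝ) - L M|)

lemma badN_card {M : ℕ} {δ : ℝ} (hδ : 0 < δ) {a H : ℕ} (hH : M ≤ H) :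
    ((BadN M δ a H).card : ℝ) * (δ * L M) ^ 2 ≤ H * (3 * L M + 2) := by
  refine le_trans ?_ (turan2 M H a hH)
  rw [← nsmul_eq_mul, ← sum_const]
  refine le_trans (sum_le_sum (g := fun n => ((o M n : ℝ) - L M) ^ 2) fun n hn => ?_)
    (sum_le_sum_of_subset_of_nonneg (filter_subset _ _) fun _ _ _ => sq_nonneg _)
  unfold BadN at hn
  rw [mem_filter] at hn
  have h0 : 0 ≤ δ * L M := mul_nonneg hδ.le (L_nonneg M)
  calc (δ * L M) ^ 2 ≤ |(o M n : ℝ) - L M| ^ 2 := pow_le_pow_left₀ h0 hn.2.le 2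
    _ = _ := sq_abs _

/-- few integers are exceptional -/
lemma badN_small (δ : ℝ) (hδ : 0 < δ) (ε : ℝ) (hε : 0 < ε) : ∃ M0 : ℕ, ∀ M, M0 ≤ M →
    ∀ a H : ℕ, M ≤ H → ((BadN M δ a H).card : ℝ) ≤ ε * H := by
  have h1 := L_tendsto.eventually_ge_atTop (max 1 (5 / (ε * δ ^ 2)))
  obtain ⟨M0, hM0⟩ := h1.exists_forall_of_atTop
  refine ⟨M0, fun M hM a H hH => ?_⟩
  have h2 := hM0 M hM
  have h3 : 1 ≤ L M := (le_max_left _ _).trans h2
  have h4 : 5 / (ε * δ ^ 2) ≤ L M := (le_max_right _ _).trans h2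
  rw [div_le_iff₀ (by positivity)] at h4
  have h5 := badN_card (a := a) hδ hH
  obtain ⟨c, hc⟩ : ∃ c : ℝ, c = ((BadN M δ a H).card : ℝ) := ⟨_, rfl⟩
  rw [← hc] at h5 ⊢
  obtain ⟨l, hl⟩ : ∃ l : ℝ, l = L M := ⟨_, rfl⟩
  rw [← hl] at h3 h4 h5
  have hl0 : 0 < l := by linarith
  have hc0 : 0 ≤ c := by rw [hc]; positivity
  have hH0 : (0 : ℝ) ≤ H := Nat.cast_nonneg H
  -- c * δ² l² ≤ H (3 l + 2) ≤ 5 H l ≤ ε δ² l² H
  have h6 : c * (δ * l) ^ 2 ≤ (ε * H) * (δ * l) ^ 2 := by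
    calc c * (δ * l) ^ 2 ≤ H * (3 * l + 2) := h5
      _ ≤ H * (5 * l) := mul_le_mul_of_nonneg_left (by linarith) hH0
      _ ≤ H * ((l * (ε * δ ^ 2)) * l) :=
          mul_le_mul_of_nonneg_left (mul_le_mul_of_nonneg_right h4 hl0.le) hH0
      _ = _ := by ring
  exact le_of_mul_le_mul_right h6 (by positivity)

/-- an integer with an exceptional number of prime factors -/
lemma mem_badN {M : ℕ} {δ : ℝ} {a H n : ℕ} (hM : 2 ≤ M) (hL : 36 ≤ δ * L M) (hn : n ∈ Ioc a (a + H))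
    (hn0 : n ≠ 0) (hnM : n ≤ M ^ 9) (hbad : δ * L M < |(n.primeFactors.card : ℝ) - L M|) :
    n ∈ BadN M (δ / 2) a H := by
  classical
  unfold BadN
  rw [mem_filter]
  refine ⟨hn, ?_⟩
  have h1 := om_le M n 9 hM hn0 hnM
  have h2 := o_le M n hn0
  have h3 : (n.primeFactors.card : ℝ) ≤ o M n + 18 := by exact_mod_cast h1
  have h4 : (o M n : ℝ) ≤ n.primeFactors.card := by exact_mod_cast h2
  rw [lt_abs] at hbad ⊢
  rcases hbad with h | h
  · left; linarith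
  · right; linarith

lemma rho_lt {T : Finset (Fin 3 → ℝ)} {n : Fin 3 → ℕ} (h : rho T n < 1) :
    ∃ t ∈ T, ∏ j, t j ^ n j < 1 := by
  classical
  unfold rho at h
  rw [inf'_lt_iff] at h
  obtain ⟨t, ht, h1⟩ := h
  rcases mem_insert.1 ht with h2 | h2
  · rw [h2] at h1
    simp at h1
  · exact ⟨t, h2, h1⟩

/-- **The exceptional pairs of a dyadic box.** -/
theorem box_bad (T : Finset (Fin 3 → ℝ)) (hT1 : ∀ t ∈ T, ∀ j, 0 < t j)
    (hT2 : ∀ t ∈ T, 1 < ∏ j, t j) (ε : ℝ) (hε : 0 < ε) : ∃ i0 : ℕ, ∀ i j : ℕ, i0 ≤ i →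
    ∀ E : Finset (ℕ × ℕ), (∀ p ∈ E, 0 < p.1 ∧ p.1 ≤ p.2 ∧ p.2 ≤ (2 * p.1) ^ 4 ∧
      Nat.clog 2 p.1 = i ∧ Nat.clog 2 p.2 = j ∧ rho T (om3 p) < 1) →
    (E.card : ℝ) ≤ ε * 2 ^ (i + j) := by
  classical
  obtain ⟨δ, hδ, hδT⟩ := exists_delta T hT2
  obtain ⟨M0, hM0⟩ := badN_small (δ / 2) (by positivity) (ε / 3) (by positivity)
  have hL := L_tendsto.eventually_ge_atTop (max 1 (36 / δ))
  obtain ⟨M1, hM1⟩ := hL.exists_forall_of_atTop
  refine ⟨M0 + M1 + 1, ?_⟩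
  intro i j hi E hE
  obtain ⟨M, hM⟩ : ∃ M : ℕ, M = 2 ^ i := ⟨_, rfl⟩
  have hiM : i < M := by rw [hM]; exact Nat.lt_two_pow_self
  have hM0' := hM0 M (by omega)
  have hM1' := hM1 M (by omega)
  have hLpos : 1 ≤ L M := (le_max_left _ _).trans hM1'
  have hL0 : 0 < L M := by linarith
  have hL36 : 36 ≤ δ * L M := by
    have h1 : 36 / δ ≤ L M := (le_max_right _ _).trans hM1'
    rw [div_le_iff₀ hδ] at h1
    linarith
  have hM2 : 2 ≤ M := by
    rw [hM]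
    calc 2 = 2 ^ 1 := (pow_one 2).symm
      _ ≤ 2 ^ i := Nat.pow_le_pow_right (by norm_num) (by omega)
  rcases E.eq_empty_or_nonempty with he | ⟨p0, hp0⟩
  · rw [he, card_empty]
    have : 0 ≤ ε * 2 ^ (i + j) := by positivity
    simpa using this
  have hij : i ≤ j := by
    obtain ⟨-, a2, -, a4, a5, -⟩ := hE p0 hp0
    rw [← a4, ← a5]
    exact Nat.clog_mono_right 2 a2
  obtain ⟨H, hH⟩ : ∃ H : ℕ, H = 2 ^ j := ⟨_, rfl⟩
  have hMH : M ≤ H := by rw [hM, hH]; exact Nat.pow_le_pow_right (by norm_num) hij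
  -- the three kinds of exceptional pairs
  have hsub : E ⊆ ((BadN M (δ / 2) 0 M) ×ˢ (Ioc 0 H)) ∪ (((Ioc 0 M) ×ˢ (BadN M (δ / 2) 0 H)) ∪
      ((Ioc 0 M).sigma (fun u => BadN M (δ / 2) u H)).image
        (fun x : (_ : ℕ) × ℕ => (x.1, x.2 - x.1))) := by
    intro p hp
    obtain ⟨a1, a2, a3, a4, a5, a6⟩ := hE p hp
    have b1 : p.1 ≤ M := by rw [hM, ← a4]; exact Nat.le_pow_clog (by norm_num) _
    have b2 : p.2 ≤ H := by rw [hH, ← a5]; exact Nat.le_pow_clog (by norm_num) _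
    have b3 : p.2 ≤ 16 * M ^ 4 := by
      calc p.2 ≤ (2 * p.1) ^ 4 := a3
        _ ≤ (2 * M) ^ 4 := Nat.pow_le_pow_left (by omega) 4
        _ = 16 * M ^ 4 := by ring
    have b4 : 32 * M ^ 4 ≤ M ^ 9 := by
      calc 32 * M ^ 4 = 2 ^ 5 * M ^ 4 := by norm_num
        _ ≤ M ^ 5 * M ^ 4 := Nat.mul_le_mul_right _ (Nat.pow_le_pow_left hM2 5)
        _ = M ^ 9 := by rw [← pow_add]
    have b5 : M ≤ 16 * M ^ 4 := by
      calc M = M ^ 1 := (pow_one M).symm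
        _ ≤ M ^ 4 := Nat.pow_le_pow_right (by omega) (by norm_num)
        _ ≤ 16 * M ^ 4 := Nat.le_mul_of_pos_left _ (by norm_num)
    obtain ⟨t, ht, hlt⟩ := rho_lt a6
    have hex : ∃ k : Fin 3, δ * L M < |((om3 p k : ℕ) : ℝ) - L M| := by
      by_contra hcon
      push Not at hcon
      have := prod_gt (hT1 t ht) hL0 (hδT t ht) (om3 p) hcon
      linarith
    obtain ⟨k, hk⟩ := hex
    have hcase : k = 0 ∨ k = 1 ∨ k = 2 := by fin_cases k <;> simp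
    rw [mem_union, mem_union]
    rcases hcase with rfl | rfl | rfl
    · left
      rw [mem_product]
      refine ⟨mem_badN hM2 hL36 ?_ (by omega) (by omega) hk, ?_⟩
      · rw [mem_Ioc]; omega
      · rw [mem_Ioc]; omega
    · right; left
      rw [mem_product]
      refine ⟨?_, mem_badN hM2 hL36 ?_ (by omega) (by omega) hk⟩
      · rw [mem_Ioc]; omega
      · rw [mem_Ioc]; omega
    · right; right
      rw [mem_image]
      refine ⟨⟨p.1, p.1 + p.2⟩, ?_, ?_⟩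
      · rw [mem_sigma]
        have h0 : p.1 + p.2 ≠ 0 := by omega
        have h1 : p.1 + p.2 ≤ M ^ 9 := by omega
        have h2 : p.1 + p.2 ∈ Ioc p.1 (p.1 + H) := by
          rw [mem_Ioc]
          omega
        exact ⟨by rw [mem_Ioc]; exact ⟨a1, b1⟩, mem_badN hM2 hL36 h2 h0 h1 hk⟩
      · ext
        · rfl
        · simp
  have hcard := card_le_card hsub
  have hc1 := hM0' 0 M le_rfl
  have hc2 := hM0' 0 H hMH
  have hc3 : (((Ioc 0 M).sigma (fun u => BadN M (δ / 2) u H)).card : ℝ) ≤ M * (ε / 3 * H) := by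
    rw [card_sigma, Nat.cast_sum]
    refine (sum_le_card_nsmul _ _ _ fun u _ => hM0' u H hMH).trans (le_of_eq ?_)
    rw [Nat.card_Ioc, Nat.sub_zero, nsmul_eq_mul]
  have hk : (E.card : ℝ) ≤ ((BadN M (δ / 2) 0 M).card : ℝ) * H +
      (M * ((BadN M (δ / 2) 0 H).card : ℝ) +
      (((Ioc 0 M).sigma (fun u => BadN M (δ / 2) u H)).card : ℝ)) := by
    have h1 := hcard.trans ((card_union_le _ _).trans (Nat.add_le_add_left (card_union_le _ _) _))
    rw [card_product, card_product, Nat.card_Ioc, Nat.card_Ioc, Nat.sub_zero, Nat.sub_zero] at h1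
    have h2 := h1.trans (Nat.add_le_add_left (Nat.add_le_add_left (card_image_le) _) _)
    exact_mod_cast h2
  have hMH' : (M : ℝ) * H = 2 ^ (i + j) := by
    rw [hM, hH, pow_add]
    push_cast
    ring
  have hM0r : (0 : ℝ) ≤ M := Nat.cast_nonneg M
  have hH0r : (0 : ℝ) ≤ H := Nat.cast_nonneg H
  calc (E.card : ℝ) ≤ (ε / 3 * M) * H + (M * (ε / 3 * H) + M * (ε / 3 * H)) := by
        refine hk.trans ?_
        gcongr
    _ = ε * (M * H) := by ring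
    _ = _ := by rw [hMH']

end Pool.Agent.TH498.CO
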