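import Pool.Agent.TH498.CO.Tw

set_option autoImplicit false

/-!
# The large twists
-/

namespace Pool.Agent.TH498.CO

open Finset Pool.Agent.W307.SE Pool.Agent.TH498.AR Pool.Agent.H328R2.ABC

lemma log_le_rpow {X e : ℝ} (hX : 1 ≤ X) (he : 0 < e) : Real.log X ≤ X ^ e / e :=
  Real.log_le_rpow_div (by linarith) he

/-- the weights of the pairs of a twist -/
theorem wt_le (θ : ℝ) (hθ0 : 0 < θ) (hθ : θ < 2 / 3) (K e : ℝ) (hK : 0 ≤ K) (he : 0 < e) :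
    ∃ C : ℝ, 1 ≤ C ∧ ∀ X : ℝ, 1 ≤ X → ∀ s : ℤ, (s = 1 ∨ s = -1) →
    ∀ i j g₁ g₂ : ℕ, i ≤ 1 → j ≤ 2 → 0 < g₁ → 0 < g₂ →
    ∀ p ∈ TT X K g₁ g₂, sel (s * ((GG i j g₁ g₂ : ℕ) : ℤ)) p ^ θ ≤ C * X ^ e := by
  obtain ⟨C7, hC7, hsel⟩ := sel_le e he K hK
  refine ⟨C7, hC7, ?_⟩
  intro X hX s hs i j g₁ g₂ hi hj hg1 hg2 p hp
  have hX0 : 0 < X := by linarith
  obtain ⟨a1, a2, a3, a4, a5, a6⟩ := mem_TT.1 hp
  obtain ⟨g, hg⟩ : ∃ g : ℕ, g = GG i j g₁ g₂ := ⟨_, rfl⟩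
  have hg0 : 0 < g := by
    rw [hg]
    exact Nat.mul_pos (Nat.mul_pos (by positivity) (by positivity)) (Nat.mul_pos hg1 hg2)
  obtain ⟨D, hD⟩ : ∃ D : ℤ, D = s * (g : ℤ) := ⟨_, rfl⟩
  have hDabs : D.natAbs = g := by rw [hD]; exact natAbs_twist hs g
  have hD0 : D ≠ 0 := by
    intro h
    rw [h] at hDabs
    simp at hDabs
    omega
  rw [← hg, ← hD]
  have hggX : (g₁ : ℝ) * g₂ ≤ X := by
    have h1 : g₁ * g₂ ≤ rad (p.1 * p.2 * (p.1 + p.2)) * (g₁ * g₂) * g₂ := by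
      calc g₁ * g₂ = 1 * (g₁ * g₂) * 1 := by ring
        _ ≤ _ := Nat.mul_le_mul (Nat.mul_le_mul_right _ (rad_pos _)) hg2
    have h2 : ((g₁ * g₂ : ℕ) : ℝ) ≤ X := le_trans (by exact_mod_cast h1) a5
    exact_mod_cast h2
  have hDX : ((D.natAbs : ℕ) : ℝ) ≤ 18 * X := by
    rw [hDabs, hg]
    have e : ((GG i j g₁ g₂ : ℕ) : ℝ) = (2 : ℝ) ^ i * 3 ^ j * (g₁ * g₂) := by
      unfold GG
      push_cast
      ring
    rw [e]
    have e1 : (2 : ℝ) ^ i ≤ 2 := by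
      calc (2 : ℝ) ^ i ≤ 2 ^ 1 := pow_le_pow_right₀ (by norm_num) hi
        _ = 2 := by norm_num
    have e2 : (3 : ℝ) ^ j ≤ 9 := by
      calc (3 : ℝ) ^ j ≤ 3 ^ 2 := pow_le_pow_right₀ (by norm_num) hj
        _ = 9 := by norm_num
    calc (2 : ℝ) ^ i * 3 ^ j * (g₁ * g₂) ≤ 2 * 9 * X := by gcongr
      _ = 18 * X := by ring
  obtain ⟨w, hw⟩ : ∃ w : ℝ, w = C7 * X ^ e := ⟨_, rfl⟩
  have hXe : 1 ≤ X ^ e := Real.one_le_rpow hX he.le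
  have hw1 : 1 ≤ w := by rw [hw]; nlinarith
  have h1 := hsel X hX D hD0 hDX p a1 (by omega) a6
  rw [← hw] at h1 ⊢
  calc sel D p ^ θ ≤ w ^ θ := Real.rpow_le_rpow (sel_nonneg D p) h1 hθ0.le
    _ ≤ w ^ (1 : ℝ) := Real.rpow_le_rpow_of_exponent_le hw1 (by linarith)
    _ = w := Real.rpow_one _

open Classical in
/-- the pairs of the large twists `(·, g₂)` -/
noncomputable def UU (X K : ℝ) (g₂ : ℕ) : Finset (ℕ × ℕ) :=
  ((range (⌊X ^ K⌋₊ + 1)) ×ˢ (range (⌊X ^ K⌋₊ + 1))).filter (fun p =>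
    0 < p.1 ∧ p.1 ≤ p.2 ∧ Nat.Coprime p.1 p.2 ∧
      (rad (p.1 * p.2 * (p.1 + p.2)) : ℝ) ≤ X ^ (1 - 1 / 16000 : ℝ) / (g₂ : ℝ) ^ (7 / 4 : ℝ) ∧
      (rad (p.1 * p.2 * (p.1 + p.2)) : ℝ) ≤ X ∧ ((p.1 + p.2 : ℕ) : ℝ) ≤ X ^ K)

lemma big_sub {X K : ℝ} (hX : 1 ≤ X) {g₁ g₂ : ℕ} (hg1 : 0 < g₁) (hg2 : 0 < g₂)
    (hb : ¬ ((g₁ : ℝ) ≤ X ^ (1 / 4000 : ℝ) ∧ (g₂ : ℝ) ≤ X ^ (1 / 4000 : ℝ))) :
    TT X K g₁ g₂ ⊆ UU X K g₂ := by
  classical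
  intro p hp
  have hp' := hp
  obtain ⟨a1, a2, a3, a4, a5, a6⟩ := mem_TT.1 hp
  have hX0 : 0 < X := by linarith
  unfold TT at hp'
  unfold UU
  rw [mem_filter] at hp' ⊢
  refine ⟨hp'.1, a1, a2, a3, ?_, ?_, a6⟩
  · obtain ⟨R, hR⟩ : ∃ R : ℝ, R = (rad (p.1 * p.2 * (p.1 + p.2)) : ℝ) := ⟨_, rfl⟩
    have hR0 : 0 ≤ R := by rw [hR]; positivity
    push_cast at a5
    rw [← hR] at a5 ⊢
    have r1 : (1 : ℝ) ≤ g₁ := by exact_mod_cast hg1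
    have r2 : (1 : ℝ) ≤ g₂ := by exact_mod_cast hg2
    have r20 : (0 : ℝ) < g₂ := by linarith
    rw [le_div_iff₀ (by positivity)]
    have hsq : (g₂ : ℝ) ^ 2 = (g₂ : ℝ) ^ (7 / 4 : ℝ) * (g₂ : ℝ) ^ (1 / 4 : ℝ) := by
      rw [← Real.rpow_add r20, ← Real.rpow_natCast]
      norm_num
    have hX2 : X = X ^ (1 - 1 / 16000 : ℝ) * X ^ (1 / 16000 : ℝ) := by
      rw [← Real.rpow_add hX0]
      norm_num
    obtain ⟨Z, hZ⟩ : ∃ Z : ℝ, Z = X ^ (1 / 16000 : ℝ) := ⟨_, rfl⟩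
    have hZ0 : 0 < Z := by rw [hZ]; positivity
    obtain ⟨q, hq⟩ : ∃ q : ℝ, q = (g₂ : ℝ) ^ (7 / 4 : ℝ) := ⟨_, rfl⟩
    have hq0 : 0 < q := by rw [hq]; positivity
    rw [← hq] at hsq ⊢
    rw [← hZ] at hX2
    have hfac : Z ≤ g₁ * (g₂ : ℝ) ^ (1 / 4 : ℝ) := by
      have hone : (1 : ℝ) ≤ (g₂ : ℝ) ^ (1 / 4 : ℝ) := Real.one_le_rpow r2 (by norm_num)
      by_cases h1 : (g₁ : ℝ) ≤ X ^ (1 / 4000 : ℝ)
      · have h2 : X ^ (1 / 4000 : ℝ) < g₂ := by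
          by_contra hcon
          exact hb ⟨h1, not_lt.1 hcon⟩
        have h3 : Z ≤ (g₂ : ℝ) ^ (1 / 4 : ℝ) := by
          have e : Z = (X ^ (1 / 4000 : ℝ)) ^ (1 / 4 : ℝ) := by
            rw [hZ, ← Real.rpow_mul hX0.le]
            norm_num
          rw [e]
          exact Real.rpow_le_rpow (by positivity) h2.le (by norm_num)
        nlinarith
      · push Not at h1
        have h3 : Z ≤ X ^ (1 / 4000 : ℝ) := by
          rw [hZ]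
          exact Real.rpow_le_rpow_of_exponent_le hX (by norm_num)
        nlinarith
    have key : R * q * Z ≤ X ^ (1 - 1 / 16000 : ℝ) * Z := by
      calc R * q * Z ≤ R * q * (g₁ * (g₂ : ℝ) ^ (1 / 4 : ℝ)) :=
            mul_le_mul_of_nonneg_left hfac (by positivity)
        _ = R * (g₁ * (q * (g₂ : ℝ) ^ (1 / 4 : ℝ))) := by ring
        _ = R * (g₁ * (g₂ : ℝ) ^ 2) := by rw [← hsq]
        _ = R * (g₁ * g₂) * g₂ := by ring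
        _ ≤ X := a5
        _ = _ := hX2
    exact le_of_mul_le_mul_right key hZ0
  · refine le_trans ?_ a5
    push_cast
    have : (0 : ℝ) ≤ (rad (p.1 * p.2 * (p.1 + p.2)) : ℝ) := Nat.cast_nonneg _
    have r1 : (1 : ℝ) ≤ g₁ := by exact_mod_cast hg1
    have r2 : (1 : ℝ) ≤ g₂ := by exact_mod_cast hg2
    have h1 : 1 ≤ ((g₁ : ℝ) * g₂) * g₂ := by
      have : 1 ≤ (g₁ : ℝ) * g₂ := by nlinarith
      nlinarith
    nlinarith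

/-- the number of the pairs of the large twists with a given `g₂` -/
theorem uu_card (K e : ℝ) (hK : 0 ≤ K) (he : 0 < e) : ∃ C : ℝ, 1 ≤ C ∧ ∀ X : ℝ, 1 ≤ X →
    ∀ g₂ : ℕ, 0 < g₂ → ((UU X K g₂).card : ℝ) ≤
      C * X ^ (2 / 3 - 1 / 24000 + 2 * e : ℝ) * ((g₂ : ℝ) ^ (7 / 6 : ℝ))⁻¹ := by
  classical
  obtain ⟨D, hD, hup⟩ := Pool.Agent.TH867.EC.pairs_upper e he
  refine ⟨D * (1 + K / e) + 1, by
    have : 0 ≤ D * (1 + K / e) := by positivity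
    linarith, ?_⟩
  intro X hX g₂ hg2
  have hX0 : 0 < X := by linarith
  have r2 : (1 : ℝ) ≤ g₂ := by exact_mod_cast hg2
  have r20 : (0 : ℝ) < g₂ := by linarith
  obtain ⟨Z, hZ⟩ : ∃ Z : ℝ, Z = X ^ (1 - 1 / 16000 : ℝ) / (g₂ : ℝ) ^ (7 / 4 : ℝ) := ⟨_, rfl⟩
  have hZ0 : 0 < Z := by rw [hZ]; positivity
  have hnn : 0 ≤ (D * (1 + K / e) + 1) * X ^ (2 / 3 - 1 / 24000 + 2 * e : ℝ) *
      ((g₂ : ℝ) ^ (7 / 6 : ℝ))⁻¹ := by positivity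
  rcases lt_or_ge Z 1 with hZ1 | hZ1
  · have hemp : UU X K g₂ = ∅ := by
      rw [eq_empty_iff_forall_notMem]
      intro p hp
      unfold UU at hp
      obtain ⟨-, -, -, -, h4, -⟩ := mem_filter.1 hp
      rw [← hZ] at h4
      have : (1 : ℝ) ≤ (rad (p.1 * p.2 * (p.1 + p.2)) : ℝ) := by exact_mod_cast rad_pos _
      linarith
    rw [hemp, card_empty]
    simpa using hnn
  obtain ⟨H, hH⟩ : ∃ H : ℝ, H = 1 + K * Real.log X := ⟨_, rfl⟩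
  have hlog : 0 ≤ Real.log X := Real.log_nonneg hX
  have hH1 : 1 ≤ H := by rw [hH]; nlinarith [mul_nonneg hK hlog]
  have h1 := hup Z H hZ1 hH1 (UU X K g₂) (by
    intro p hp
    unfold UU at hp
    obtain ⟨-, h1, h2, h3, h4, h4', h5⟩ := mem_filter.1 hp
    refine ⟨h1, h2, h3, ?_, ?_⟩
    · rw [hZ]
      exact h4
    · have h6 : (0 : ℝ) < ((p.1 + p.2 : ℕ) : ℝ) := by exact_mod_cast (by omega : 0 < p.1 + p.2)
      have h7 := Real.log_le_log h6 h5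
      rw [Real.log_rpow hX0] at h7
      rw [hH]
      linarith)
  have hHX : H ≤ (1 + K / e) * X ^ e := by
    have h2 := log_le_rpow hX he
    have h3 : 1 ≤ X ^ e := Real.one_le_rpow hX he.le
    rw [hH]
    calc 1 + K * Real.log X ≤ X ^ e + K * (X ^ e / e) :=
          add_le_add h3 (mul_le_mul_of_nonneg_left h2 hK)
      _ = _ := by field_simp
  have hZX : Z ^ (2 / 3 + e) ≤ X ^ (2 / 3 - 1 / 24000 + e : ℝ) * ((g₂ : ℝ) ^ (7 / 6 : ℝ))⁻¹ := by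
    rw [hZ, Real.div_rpow (by positivity) (by positivity), ← Real.rpow_mul hX0.le,
      ← Real.rpow_mul r20.le, div_eq_mul_inv]
    refine mul_le_mul ?_ ?_ (by positivity) (by positivity)
    · refine Real.rpow_le_rpow_of_exponent_le hX ?_
      nlinarith
    · refine inv_anti₀ (by positivity) ?_
      refine Real.rpow_le_rpow_of_exponent_le r2 ?_
      nlinarith
  refine h1.trans ?_
  have hp0 : 0 ≤ X ^ (2 / 3 - 1 / 24000 + e : ℝ) * ((g₂ : ℝ) ^ (7 / 6 : ℝ))⁻¹ := by positivity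
  calc D * Z ^ (2 / 3 + e) * H
      ≤ D * (X ^ (2 / 3 - 1 / 24000 + e : ℝ) * ((g₂ : ℝ) ^ (7 / 6 : ℝ))⁻¹) *
        ((1 + K / e) * X ^ e) := by
        have : 0 ≤ H := by linarith
        gcongr
    _ = D * (1 + K / e) * (X ^ (2 / 3 - 1 / 24000 + e : ℝ) * X ^ e) *
        ((g₂ : ℝ) ^ (7 / 6 : ℝ))⁻¹ := by ring
    _ = D * (1 + K / e) * X ^ (2 / 3 - 1 / 24000 + 2 * e : ℝ) *
        ((g₂ : ℝ) ^ (7 / 6 : ℝ))⁻¹ := by
        rw [← Real.rpow_add hX0]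
        congr 3
        ring
    _ ≤ _ := by
        refine mul_le_mul_of_nonneg_right ?_ (by positivity)
        refine mul_le_mul_of_nonneg_right (by linarith) (by positivity)

/-- **The large twists.** -/
theorem big_twists (θ : ℝ) (hθ0 : 0 < θ) (hθ : θ < 2 / 3) (K : ℝ) (hK : 0 ≤ K) :
    ∃ C : ℝ, 1 ≤ C ∧ ∀ X : ℝ, 1 ≤ X → ∀ s : ℤ, (s = 1 ∨ s = -1) →
    ∀ i j : ℕ, i ≤ 1 → j ≤ 2 →
    ∑ x ∈ ((Icc 1 ⌊X⌋₊) ×ˢ (Icc 1 ⌊X⌋₊)).filter (fun x : ℕ × ℕ =>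
        ¬ ((x.1 : ℝ) ≤ X ^ (1 / 4000 : ℝ) ∧ (x.2 : ℝ) ≤ X ^ (1 / 4000 : ℝ))),
      ∑ p ∈ TT X K x.1 x.2, sel (s * ((GG i j x.1 x.2 : ℕ) : ℤ)) p ^ θ ≤ C * X ^ ((2 : ℝ) / 3) := by
  classical
  obtain ⟨e, he⟩ : ∃ e : ℝ, e = 1 / 120000 := ⟨_, rfl⟩
  have he0 : 0 < e := by rw [he]; norm_num
  obtain ⟨C1, hC1, hwt⟩ := wt_le θ hθ0 hθ K e hK he0
  obtain ⟨C2, hC2, huu⟩ := uu_card K e hK he0
  obtain ⟨C3, hC3, hsm⟩ := Pool.Agent.TH867.SR.smooth_count e he0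
  have hsum : Summable fun n : ℕ => ((n : ℝ) ^ (7 / 6 : ℝ))⁻¹ :=
    Real.summable_nat_rpow_inv.2 (by norm_num)
  obtain ⟨Z, hZ⟩ : ∃ Z : ℝ, Z = ∑' n : ℕ, ((n : ℝ) ^ (7 / 6 : ℝ))⁻¹ := ⟨_, rfl⟩
  have hZ0 : 0 ≤ Z := by rw [hZ]; exact tsum_nonneg fun n => by positivity
  refine ⟨C1 * (C2 * C3 * Z) + 1, by
    have : 0 ≤ C1 * (C2 * C3 * Z) := by positivity
    linarith, ?_⟩
  intro X hX s hs i j hi hj
  have hX0 : 0 < X := by linarith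
  obtain ⟨B, hB⟩ : ∃ B : ℕ, B = ⌊X⌋₊ := ⟨_, rfl⟩
  have hBX : (B : ℝ) ≤ X := by rw [hB]; exact Nat.floor_le hX0.le
  have hB1 : 1 ≤ B := by rw [hB]; exact Nat.le_floor (by exact_mod_cast hX)
  rw [← hB]
  set Q : Finset (ℕ × ℕ) := ((Icc 1 B) ×ˢ (Icc 1 B)).filter (fun x : ℕ × ℕ =>
    ¬ ((x.1 : ℝ) ≤ X ^ (1 / 4000 : ℝ) ∧ (x.2 : ℝ) ≤ X ^ (1 / 4000 : ℝ))) with hQ
  have hQm : ∀ x ∈ Q, 0 < x.1 ∧ 0 < x.2 ∧ x.1 ≤ B ∧ x.2 ≤ B ∧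
      ¬ ((x.1 : ℝ) ≤ X ^ (1 / 4000 : ℝ) ∧ (x.2 : ℝ) ≤ X ^ (1 / 4000 : ℝ)) := by
    intro x hx
    obtain ⟨h1, h2⟩ := mem_filter.1 hx
    obtain ⟨h3, h4⟩ := mem_product.1 h1
    obtain ⟨h5, h6⟩ := mem_Icc.1 h3
    obtain ⟨h7, h8⟩ := mem_Icc.1 h4
    exact ⟨h5, h7, h6, h8, h2⟩
  have hk1 : ∑ x ∈ Q, ∑ p ∈ TT X K x.1 x.2, sel (s * ((GG i j x.1 x.2 : ℕ) : ℤ)) p ^ θ ≤
      (C1 * X ^ e) * ∑ x ∈ Q, ((TT X K x.1 x.2).card : ℝ) := by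
    rw [mul_sum]
    refine sum_le_sum fun x hx => ?_
    obtain ⟨h1, h2, -⟩ := hQm x hx
    refine (sum_le_card_nsmul _ _ _ (hwt X hX s hs i j x.1 x.2 hi hj h1 h2)).trans (le_of_eq ?_)
    rw [nsmul_eq_mul, mul_comm]
  -- the number of the triples `(g₁, g₂, p)`
  have hk2 : ∑ x ∈ Q, (TT X K x.1 x.2).card ≤ ∑ g₂ ∈ Icc 1 B, ∑ p ∈ UU X K g₂,
      ((Icc 1 B).filter fun a => a.primeFactors ⊆
        (rad (p.1 * p.2 * (p.1 + p.2))).primeFactors).card := by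
    have e1 : ∑ x ∈ Q, (TT X K x.1 x.2).card = (Q.sigma fun x => TT X K x.1 x.2).card :=
      (card_sigma _ _).symm
    have e2 : ∑ g₂ ∈ Icc 1 B, ∑ p ∈ UU X K g₂,
        ((Icc 1 B).filter fun a => a.primeFactors ⊆
          (rad (p.1 * p.2 * (p.1 + p.2))).primeFactors).card =
        ((Icc 1 B).sigma fun g₂ => (UU X K g₂).sigma fun p =>
          (Icc 1 B).filter fun a => a.primeFactors ⊆
            (rad (p.1 * p.2 * (p.1 + p.2))).primeFactors).card := by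
      rw [card_sigma]
      exact sum_congr rfl fun g₂ _ => (card_sigma _ _).symm
    rw [e1, e2]
    refine card_le_card_of_injOn (fun y => ⟨y.1.2, y.2, y.1.1⟩) ?_ ?_
    · rintro ⟨x, p⟩ hy
      rw [mem_coe, mem_sigma] at hy
      obtain ⟨hx, hp⟩ := hy
      simp only at hx hp
      obtain ⟨h1, h2, h3, h4, h5⟩ := hQm x hx
      obtain ⟨a1, a2, a3, a4, a5, a6⟩ := mem_TT.1 hp
      simp only [mem_coe, mem_sigma, mem_filter, mem_Icc]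
      refine ⟨⟨h2, h4⟩, big_sub hX h1 h2 h5 hp, ⟨h1, h3⟩, ?_⟩
      have hn0 : p.1 * p.2 * (p.1 + p.2) ≠ 0 := by
        have : 0 < p.2 := by omega
        positivity
      rw [rad, Nat.primeFactors_prod fun q hq => Nat.prime_of_mem_primeFactors hq]
      exact Nat.primeFactors_mono a4 hn0
    · rintro ⟨x, p⟩ _ ⟨x', p'⟩ _ h
      simp only [Sigma.mk.injEq, heq_eq_eq] at h
      obtain ⟨h1, h2, h3⟩ := h
      have : x = x' := Prod.ext h3 h1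
      subst this
      rw [h2]
  have hk3 : ∀ g₂ ∈ Icc 1 B, ∑ p ∈ UU X K g₂, (((Icc 1 B).filter fun a => a.primeFactors ⊆
        (rad (p.1 * p.2 * (p.1 + p.2))).primeFactors).card : ℝ) ≤
      (C2 * C3 * X ^ (2 / 3 - 1 / 24000 + 4 * e : ℝ)) * ((g₂ : ℝ) ^ (7 / 6 : ℝ))⁻¹ := by
    intro g₂ hg
    obtain ⟨hg1, -⟩ := mem_Icc.1 hg
    have h1 : ∀ p ∈ UU X K g₂, (((Icc 1 B).filter fun a => a.primeFactors ⊆
        (rad (p.1 * p.2 * (p.1 + p.2))).primeFactors).card : ℝ) ≤ C3 * X ^ e * X ^ e := by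
      intro p hp
      unfold UU at hp
      obtain ⟨-, -, -, -, -, h4', -⟩ := mem_filter.1 hp
      have h2 := hsm B (rad (p.1 * p.2 * (p.1 + p.2))) hB1 (rad_pos _)
      refine h2.trans ?_
      refine mul_le_mul ?_ (Real.rpow_le_rpow (Nat.cast_nonneg _) h4' he0.le) (by positivity)
        (by positivity)
      exact mul_le_mul_of_nonneg_left (Real.rpow_le_rpow (Nat.cast_nonneg _) hBX he0.le) hC3.le
    refine (sum_le_card_nsmul _ _ _ h1).trans ?_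
    rw [nsmul_eq_mul]
    calc ((UU X K g₂).card : ℝ) * (C3 * X ^ e * X ^ e)
        ≤ (C2 * X ^ (2 / 3 - 1 / 24000 + 2 * e : ℝ) * ((g₂ : ℝ) ^ (7 / 6 : ℝ))⁻¹) *
          (C3 * X ^ e * X ^ e) := mul_le_mul_of_nonneg_right (huu X hX g₂ hg1) (by positivity)
      _ = (C2 * C3 * (X ^ (2 / 3 - 1 / 24000 + 2 * e : ℝ) * X ^ e * X ^ e)) *
          ((g₂ : ℝ) ^ (7 / 6 : ℝ))⁻¹ := by ring
      _ = _ := by
          rw [← Real.rpow_add hX0, ← Real.rpow_add hX0]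
          congr 3
          ring
  have hk4 : ∑ x ∈ Q, ((TT X K x.1 x.2).card : ℝ) ≤
      C2 * C3 * X ^ (2 / 3 - 1 / 24000 + 4 * e : ℝ) * Z := by
    have h1 : ∑ x ∈ Q, ((TT X K x.1 x.2).card : ℝ) ≤ ∑ g₂ ∈ Icc 1 B, ∑ p ∈ UU X K g₂,
        (((Icc 1 B).filter fun a => a.primeFactors ⊆
        (rad (p.1 * p.2 * (p.1 + p.2))).primeFactors).card : ℝ) := by exact_mod_cast hk2
    refine h1.trans ((sum_le_sum hk3).trans ?_)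
    rw [← mul_sum]
    refine mul_le_mul_of_nonneg_left ?_ (by positivity)
    rw [hZ]
    exact hsum.sum_le_tsum _ (fun n _ => by positivity)
  refine hk1.trans ?_
  have hXe : 0 < X ^ e := by positivity
  calc (C1 * X ^ e) * ∑ x ∈ Q, ((TT X K x.1 x.2).card : ℝ)
      ≤ (C1 * X ^ e) * (C2 * C3 * X ^ (2 / 3 - 1 / 24000 + 4 * e : ℝ) * Z) :=
        mul_le_mul_of_nonneg_left hk4 (by positivity)
    _ = C1 * (C2 * C3 * Z) * (X ^ e * X ^ (2 / 3 - 1 / 24000 + 4 * e : ℝ)) := by ring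
    _ = C1 * (C2 * C3 * Z) * X ^ ((2 : ℝ) / 3) := by
        rw [← Real.rpow_add hX0]
        congr 2
        rw [he]
        norm_num
    _ ≤ _ := mul_le_mul_of_nonneg_right (by linarith) (by positivity)

end Pool.Agent.TH498.CO
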