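import Pool.Agent.TH498.CO.Bxm
import Pool.Agent.TH498.CO.BadP
import Pool.Agent.TH344.DT.Atw
import Pool.Agent.TH344.DT.Mafw
import Pool.Agent.TH344.DT.Self
import Pool.Agent.TH344.DT.Expw
import Pool.Agent.TH344.DT.Avg
import Pool.Agent.TH344.DT.Cmb
import Pool.Agent.TH344.DT.Ful
import Pool.Agent.TH344.DT.Lnk

set_option autoImplicit false

/-!
# The weighted moments of the 2-Selmer groups in dyadic boxes
-/

namespace Pool.Agent.TH498.CO

open Finset Pool.Agent.W307.SE Pool.Agent.TH344.DT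

/-- the weighted moments over short squares -/
theorem avgw (k : ℕ) (hk : 1 ≤ k) : ∃ T : Finset (Fin 3 → ℝ), (∀ t ∈ T, ∀ j, 0 < t j) ∧
    (∀ t ∈ T, 1 < ∏ j, t j) ∧ AVGW k T (fun a b => (Sel a b).ncard) := by
  obtain ⟨T, h1, h2, h3⟩ := mafw_of (atw_of ful lnk) cmb expw k hk
  exact ⟨T, h1, h2, avg k T h1 h3 _ selfg⟩

lemma rho_nonneg {T : Finset (Fin 3 → ℝ)} (hT : ∀ t ∈ T, ∀ j, 0 < t j) (n : Fin 3 → ℕ) :
    0 ≤ rho T n := by
  classical
  unfold rho
  rw [le_inf'_iff]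
  intro t ht
  rcases mem_insert.1 ht with h | h
  · rw [h]; simp
  · exact prod_nonneg fun j _ => pow_nonneg (hT t h j).le _

lemma rho_le_one (T : Finset (Fin 3 → ℝ)) (n : Fin 3 → ℕ) : rho T n ≤ 1 := by
  classical
  unfold rho
  refine (inf'_le _ (mem_insert_self _ _)).trans ?_
  simp

/-- **The weighted sum over a dyadic box.** -/
theorem box_momentW (k : ℕ) (T : Finset (Fin 3 → ℝ)) (hT : ∀ t ∈ T, ∀ j, 0 < t j)
    (hA : AVGW k T (fun a b => (Sel a b).ncard)) (L : ℕ) :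
    ∃ C : ℝ, 1 ≤ C ∧ ∀ D : ℤ, D ≠ 0 → ∀ (i j : ℕ) (E : Finset (ℕ × ℕ)),
    (∀ p ∈ E, 0 < p.1 ∧ p.1 ≤ p.2 ∧ Nat.Coprime p.1 p.2 ∧ p.2 ≤ (2 * p.1) ^ L ∧
      Nat.clog 2 p.1 = i ∧ Nat.clog 2 p.2 = j) →
    ∑ p ∈ E, sel D p ^ k * rho T (om3 p) ≤
      C * (2 * 8 ^ k) ^ D.natAbs.primeFactors.card * 2 ^ (i + j) := by
  classical
  obtain ⟨C0, hC0, h⟩ := hA (L + 1)
  obtain ⟨C, hC⟩ : ∃ C : ℝ, C = max C0 1 := ⟨_, rfl⟩
  have hC1 : 1 ≤ C := by rw [hC]; exact le_max_right _ _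
  have hC2 : C0 ≤ C := by rw [hC]; exact le_max_left _ _
  refine ⟨6 * C, by linarith, ?_⟩
  intro D hD i j E hE
  have hnn : (0 : ℝ) ≤ 6 * C * (2 * 8 ^ k) ^ D.natAbs.primeFactors.card * 2 ^ (i + j) := by
    positivity
  rcases E.eq_empty_or_nonempty with he | ⟨p0, hp0⟩
  · rw [he, sum_empty]
    exact hnn
  have hij : i ≤ j := by
    obtain ⟨-, a2, -, -, a4, a5⟩ := hE p0 hp0
    rw [← a4, ← a5]
    exact Nat.clog_mono_right 2 a2
  obtain ⟨X, hX⟩ : ∃ X : ℕ, X = 2 ^ (i + 1) := ⟨_, rfl⟩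
  have hX0 : 0 < X := by rw [hX]; positivity
  have hX2 : X = 2 * 2 ^ i := by rw [hX, pow_succ]; ring
  obtain ⟨J, hJ⟩ : ∃ J : ℕ, J = 2 ^ j / X + 1 := ⟨_, rfl⟩
  have hk : ∀ p ∈ E, (p.2 - 1) / X ∈ range J := by
    intro p hp
    obtain ⟨a1, a2, -, a3, a4, a5⟩ := hE p hp
    rw [mem_range, hJ, Nat.lt_succ_iff]
    refine Nat.div_le_div_right ?_
    have : p.2 ≤ 2 ^ j := by rw [← a5]; exact Nat.le_pow_clog (by norm_num) _
    omega
  rw [← sum_fiberwise_of_maps_to hk]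
  have hone : ∀ l ∈ range J, ∑ p ∈ E.filter (fun p => (p.2 - 1) / X = l),
      sel D p ^ k * rho T (om3 p) ≤
      C * (2 * 8 ^ k) ^ D.natAbs.primeFactors.card * (X : ℝ) ^ 2 := by
    intro l _
    rcases (E.filter (fun p => (p.2 - 1) / X = l)).eq_empty_or_nonempty with he | ⟨q, hq⟩
    · rw [he, sum_empty]
      positivity
    have hkX : l * X ≤ X ^ (L + 1) := by
      obtain ⟨hqE, hqk⟩ := mem_filter.1 hq
      obtain ⟨a1, a2, -, a3, a4, a5⟩ := hE q hqE
      have b1 : l * X ≤ q.2 := by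
        rw [← hqk]
        exact (Nat.div_mul_le_self _ _).trans (Nat.sub_le _ _)
      have b2 : q.1 ≤ 2 ^ i := by rw [← a4]; exact Nat.le_pow_clog (by norm_num) _
      calc l * X ≤ q.2 := b1
        _ ≤ (2 * q.1) ^ L := a3
        _ ≤ X ^ L := Nat.pow_le_pow_left (by rw [hX2]; omega) _
        _ ≤ X ^ (L + 1) := Nat.pow_le_pow_right hX0 (by omega)
    have hsum := h D (-(2 ^ i : ℤ) - 1) ((l * X : ℕ) : ℤ) X hD hX0 (by
      have e : (-(2 ^ i : ℤ) - 1).natAbs = 2 ^ i + 1 := by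
        have : (-(2 ^ i : ℤ) - 1) = -(((2 ^ i + 1 : ℕ)) : ℤ) := by push_cast; ring
        rw [this, Int.natAbs_neg, Int.natAbs_natCast]
      rw [e]
      have h1 : 1 ≤ 2 ^ i := Nat.one_le_two_pow
      calc 2 ^ i + 1 ≤ X := by rw [hX2]; omega
        _ = X ^ 1 := (pow_one _).symm
        _ ≤ X ^ (L + 1) := Nat.pow_le_pow_right hX0 (by omega)) (by
      rw [Int.natAbs_natCast]
      exact hkX)
    refine le_trans ?_ (hsum.trans ?_)
    · have hmem : ∀ p ∈ E.filter (fun p => (p.2 - 1) / X = l), 0 < p.1 ∧ p.1 ≤ 2 ^ i ∧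
          l * X < p.2 ∧ p.2 ≤ l * X + X ∧ p.1 ≤ p.2 ∧ Nat.Coprime p.1 p.2 := by
        intro p hp
        obtain ⟨hpE, hpk⟩ := mem_filter.1 hp
        obtain ⟨a1, a2, a2', a3, a4, a5⟩ := hE p hpE
        have b2 : p.1 ≤ 2 ^ i := by rw [← a4]; exact Nat.le_pow_clog (by norm_num) _
        have b6 : l * X < p.2 := by
          have := Nat.div_mul_le_self (p.2 - 1) X
          rw [hpk] at this
          omega
        have b7 : p.2 ≤ l * X + X := by
          have := Nat.lt_div_mul_add (a := p.2 - 1) hX0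
          rw [hpk] at this
          omega
        exact ⟨a1, b2, b6, b7, a2, a2'⟩
      have e0 : ∀ p ∈ E.filter (fun p => (p.2 - 1) / X = l),
          ((-(2 ^ i : ℤ) - 1) + ((2 ^ i + 1 - p.1 : ℕ) : ℤ),
            ((l * X : ℕ) : ℤ) + ((p.2 - l * X : ℕ) : ℤ)) = ((-(p.1 : ℤ), (p.2 : ℤ)) : ℤ × ℤ) := by
        intro p hp
        obtain ⟨a1, a2, a3, a4, a5, a6⟩ := hmem p hp
        have h1 : ((2 ^ i + 1 - p.1 : ℕ) : ℤ) = (2 ^ i : ℤ) + 1 - p.1 := by
          rw [Nat.cast_sub (by omega)]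
          push_cast
          ring
        have h2 : ((p.2 - l * X : ℕ) : ℤ) = (p.2 : ℤ) - ((l * X : ℕ) : ℤ) :=
          Nat.cast_sub (by omega)
        rw [h1, h2]
        ext
        · simp only
          ring
        · simp only
          ring
      have e1 : ∑ p ∈ E.filter (fun p => (p.2 - 1) / X = l), sel D p ^ k * rho T (om3 p) =
          ∑ t ∈ (E.filter (fun p => (p.2 - 1) / X = l)).image
            (fun p : ℕ × ℕ => ((2 ^ i + 1 - p.1, p.2 - l * X) : ℕ × ℕ)),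
            SW k T (fun a b => (Sel a b).ncard) D
              ((-(2 ^ i : ℤ) - 1) + (t.1 : ℤ), ((l * X : ℕ) : ℤ) + (t.2 : ℤ)) := by
        rw [sum_image]
        · refine sum_congr rfl fun p hp => ?_
          rw [e0 p hp]
          obtain ⟨a1, a2, a3, a4, a5, a6⟩ := hmem p hp
          unfold SW
          rw [if_pos, om3_eq]
          · rfl
          · refine ⟨?_, ?_, ?_, ?_⟩
            · simp only
              rw [IsCoprime.neg_left_iff]
              exact Nat.isCoprime_iff_coprime.2 a6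
            · simp only
              omega
            · simp only
              omega
            · simp only
              omega
        · intro p hp p' hp' hpp
          obtain ⟨a1, a2, a3, a4, a5, a6⟩ := hmem p hp
          obtain ⟨a1', a2', a3', a4', a5', a6'⟩ := hmem p' hp'
          simp only [Prod.mk.injEq] at hpp
          ext <;> omega
      rw [e1]
      refine sum_le_sum_of_subset_of_nonneg ?_ fun t _ _ => ?_
      · intro t ht
        obtain ⟨p, hp, rfl⟩ := mem_image.1 ht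
        obtain ⟨a1, a2, a3, a4, a5, a6⟩ := hmem p hp
        rw [mem_product, mem_Icc, mem_Icc]
        simp only
        omega
      · unfold SW
        split_ifs
        · exact mul_nonneg (by positivity) (rho_nonneg hT _)
        · exact le_rfl
    · refine mul_le_mul_of_nonneg_right (mul_le_mul_of_nonneg_right hC2 (by positivity))
        (by positivity)
  refine (sum_le_card_nsmul _ _ _ hone).trans ?_
  rw [card_range, nsmul_eq_mul]
  have hJX : (J : ℝ) * (X : ℝ) ^ 2 ≤ 6 * 2 ^ (i + j) := by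
    have h1 : J * X ≤ 2 ^ j + X := by
      rw [hJ, add_mul, one_mul]
      exact Nat.add_le_add_right (Nat.div_mul_le_self _ _) _
    have h2 : J * X ^ 2 ≤ (2 ^ j + X) * X := by
      rw [pow_two, ← mul_assoc]
      exact Nat.mul_le_mul_right _ h1
    have h3 : (2 ^ j + X) * X ≤ 6 * 2 ^ (i + j) := by
      have h4 : 2 ^ i ≤ 2 ^ j := Nat.pow_le_pow_right (by norm_num) hij
      rw [hX2, pow_add]
      nlinarith [Nat.zero_le (2 ^ i)]
    exact_mod_cast h2.trans h3
  calc (J : ℝ) * (C * (2 * 8 ^ k) ^ D.natAbs.primeFactors.card * (X : ℝ) ^ 2)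
      = C * (2 * 8 ^ k) ^ D.natAbs.primeFactors.card * ((J : ℝ) * (X : ℝ) ^ 2) := by ring
    _ ≤ C * (2 * 8 ^ k) ^ D.natAbs.primeFactors.card * (6 * 2 ^ (i + j)) :=
        mul_le_mul_of_nonneg_left hJX (by positivity)
    _ = _ := by ring

end Pool.Agent.TH498.CO
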