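import Pool.Agent.TH498.CO.Dat

set_option autoImplicit false

/-!
# The second moment of the 2-Selmer groups in dyadic boxes
-/

namespace Pool.Agent.TH498.CO

open Finset Pool.Agent.W307.SE

/-- the order of the 2-Selmer group of `y² = x (x + D u) (x - D v)` -/
noncomputable def sel (D : ℤ) (p : ℕ × ℕ) : ℝ :=
  ((Sel (D * (-(p.1 : ℤ))) (D * (p.2 : ℤ))).ncard : ℝ)

lemma sel_nonneg (D : ℤ) (p : ℕ × ℕ) : 0 ≤ sel D p := Nat.cast_nonneg _

lemma gd_eq {D : ℤ} {p : ℕ × ℕ} (h1 : 0 < p.1) (h2 : 0 < p.2) :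
    Pool.Agent.TH342.SQ.GD D (-(p.1 : ℤ), (p.2 : ℤ)) = sel D p ^ 2 := by
  unfold Pool.Agent.TH342.SQ.GD sel
  rw [if_pos]
  refine ⟨?_, ?_, ?_⟩
  · simp only
    omega
  · simp only
    omega
  · simp only
    omega

/-- **The sum over a dyadic box.** -/
theorem box_moment (L : ℕ) : ∃ C : ℝ, 1 ≤ C ∧ ∀ D : ℤ, D ≠ 0 → ∀ (i j : ℕ) (E : Finset (ℕ × ℕ)),
    (∀ p ∈ E, 0 < p.1 ∧ p.1 ≤ p.2 ∧ p.2 ≤ (2 * p.1) ^ L ∧ Nat.clog 2 p.1 = i ∧
      Nat.clog 2 p.2 = j) →
    ∑ p ∈ E, sel D p ^ 2 ≤ C * 128 ^ D.natAbs.primeFactors.card * 2 ^ (i + j) := by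
  classical
  obtain ⟨C0, hC0, h⟩ := Pool.Agent.TH342.SQ.all_pairs (L + 1)
  obtain ⟨C, hC⟩ : ∃ C : ℝ, C = max C0 1 := ⟨_, rfl⟩
  have hC1 : 1 ≤ C := by rw [hC]; exact le_max_right _ _
  have hC2 : C0 ≤ C := by rw [hC]; exact le_max_left _ _
  refine ⟨6 * C, by linarith, ?_⟩
  intro D hD i j E hE
  have hnn : (0 : ℝ) ≤ 6 * C * 128 ^ D.natAbs.primeFactors.card * 2 ^ (i + j) := by positivity
  rcases E.eq_empty_or_nonempty with he | ⟨p0, hp0⟩
  · rw [he, sum_empty]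
    exact hnn
  have hij : i ≤ j := by
    obtain ⟨-, a2, -, a4, a5⟩ := hE p0 hp0
    rw [← a4, ← a5]
    exact Nat.clog_mono_right 2 a2
  obtain ⟨X, hX⟩ : ∃ X : ℕ, X = 2 ^ (i + 1) := ⟨_, rfl⟩
  have hX0 : 0 < X := by rw [hX]; positivity
  have hX2 : X = 2 * 2 ^ i := by rw [hX, pow_succ]; ring
  obtain ⟨J, hJ⟩ : ∃ J : ℕ, J = 2 ^ j / X + 1 := ⟨_, rfl⟩
  have hk : ∀ p ∈ E, (p.2 - 1) / X ∈ range J := by
    intro p hp
    obtain ⟨a1, a2, a3, a4, a5⟩ := hE p hp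
    rw [mem_range, hJ, Nat.lt_succ_iff]
    refine Nat.div_le_div_right ?_
    have : p.2 ≤ 2 ^ j := by rw [← a5]; exact Nat.le_pow_clog (by norm_num) _
    omega
  rw [← sum_fiberwise_of_maps_to hk]
  have hone : ∀ k ∈ range J, ∑ p ∈ E.filter (fun p => (p.2 - 1) / X = k), sel D p ^ 2 ≤
      C * 128 ^ D.natAbs.primeFactors.card * (X : ℝ) ^ 2 := by
    intro k _
    rcases (E.filter (fun p => (p.2 - 1) / X = k)).eq_empty_or_nonempty with he | ⟨q, hq⟩
    · rw [he, sum_empty]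
      positivity
    have hkX : k * X ≤ X ^ (L + 1) := by
      obtain ⟨hqE, hqk⟩ := mem_filter.1 hq
      obtain ⟨a1, a2, a3, a4, a5⟩ := hE q hqE
      have b1 : k * X ≤ q.2 := by
        rw [← hqk]
        exact (Nat.div_mul_le_self _ _).trans (Nat.sub_le _ _)
      have b2 : q.1 ≤ 2 ^ i := by rw [← a4]; exact Nat.le_pow_clog (by norm_num) _
      calc k * X ≤ q.2 := b1
        _ ≤ (2 * q.1) ^ L := a3
        _ ≤ X ^ L := Nat.pow_le_pow_left (by rw [hX2]; omega) _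
        _ ≤ X ^ (L + 1) := Nat.pow_le_pow_right hX0 (by omega)
    have hsum := h D (-(2 ^ i : ℤ) - 1) ((k * X : ℕ) : ℤ) X hD hX0 (by
      have e : (-(2 ^ i : ℤ) - 1).natAbs = 2 ^ i + 1 := by
        have : (-(2 ^ i : ℤ) - 1) = -(((2 ^ i + 1 : ℕ)) : ℤ) := by push_cast; ring
        rw [this, Int.natAbs_neg, Int.natAbs_natCast]
      rw [e]
      have h1 : 1 ≤ 2 ^ i := Nat.one_le_two_pow
      calc 2 ^ i + 1 ≤ X := by rw [hX2]; omega
        _ = X ^ 1 := (pow_one _).symm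
        _ ≤ X ^ (L + 1) := Nat.pow_le_pow_right hX0 (by omega)) (by
      rw [Int.natAbs_natCast]
      exact hkX)
    refine le_trans ?_ (hsum.trans ?_)
    · have e1 : ∑ p ∈ E.filter (fun p => (p.2 - 1) / X = k), sel D p ^ 2 =
          ∑ t ∈ (E.filter (fun p => (p.2 - 1) / X = k)).image
            (fun p : ℕ × ℕ => ((-(p.1 : ℤ), (p.2 : ℤ)) : ℤ × ℤ)),
            Pool.Agent.TH342.SQ.GD D t := by
        rw [sum_image]
        · refine sum_congr rfl fun p hp => ?_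
          obtain ⟨a1, a2, -⟩ := hE p (mem_filter.1 hp).1
          exact (gd_eq a1 (by omega)).symm
        · intro p _ p' _ hpp
          simp only [Prod.mk.injEq] at hpp
          ext <;> omega
      rw [e1]
      refine sum_le_sum_of_subset_of_nonneg ?_ fun t _ _ => Pool.Agent.TH342.SQ.GD_nonneg D t
      intro t ht
      obtain ⟨p, hp, rfl⟩ := mem_image.1 ht
      obtain ⟨hpE, hpk⟩ := mem_filter.1 hp
      obtain ⟨a1, a2, a3, a4, a5⟩ := hE p hpE
      have b2 : p.1 ≤ 2 ^ i := by rw [← a4]; exact Nat.le_pow_clog (by norm_num) _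
      have b3 : ((p.1 : ℕ) : ℤ) ≤ (2 : ℤ) ^ i := by exact_mod_cast b2
      have b4 : ((X : ℕ) : ℤ) = 2 * (2 : ℤ) ^ i := by rw [hX2]; push_cast; ring
      have b5 : (0 : ℤ) < (2 : ℤ) ^ i := by positivity
      have b6 : k * X < p.2 := by
        have := Nat.div_mul_le_self (p.2 - 1) X
        rw [hpk] at this
        omega
      have b7 : p.2 ≤ k * X + X := by
        have := Nat.lt_div_mul_add (a := p.2 - 1) hX0
        rw [hpk] at this
        omega
      rw [Pool.Agent.TH342.SQ.mem_Bx]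
      refine ⟨⟨?_, ?_⟩, ?_, ?_⟩
      · simp only
        linarith
      · simp only
        have : (0 : ℤ) < p.1 := by exact_mod_cast a1
        rw [b4]
        linarith
      · simp only
        exact_mod_cast b6
      · simp only
        exact_mod_cast b7
    · refine mul_le_mul_of_nonneg_right (mul_le_mul_of_nonneg_right hC2 (by positivity))
        (by positivity)
  refine (sum_le_card_nsmul _ _ _ hone).trans ?_
  rw [card_range, nsmul_eq_mul]
  have hJX : (J : ℝ) * (X : ℝ) ^ 2 ≤ 6 * 2 ^ (i + j) := by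
    have h1 : J * X ≤ 2 ^ j + X := by
      rw [hJ, add_mul, one_mul]
      exact Nat.add_le_add_right (Nat.div_mul_le_self _ _) _
    have h2 : J * X ^ 2 ≤ (2 ^ j + X) * X := by
      rw [pow_two, ← mul_assoc]
      exact Nat.mul_le_mul_right _ h1
    have h3 : (2 ^ j + X) * X ≤ 6 * 2 ^ (i + j) := by
      have h4 : 2 ^ i ≤ 2 ^ j := Nat.pow_le_pow_right (by norm_num) hij
      rw [hX2, pow_add]
      nlinarith [Nat.zero_le (2 ^ i)]
    exact_mod_cast h2.trans h3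
  calc (J : ℝ) * (C * 128 ^ D.natAbs.primeFactors.card * (X : ℝ) ^ 2)
      = C * 128 ^ D.natAbs.primeFactors.card * ((J : ℝ) * (X : ℝ) ^ 2) := by ring
    _ ≤ C * 128 ^ D.natAbs.primeFactors.card * (6 * 2 ^ (i + j)) :=
        mul_le_mul_of_nonneg_left hJX (by positivity)
    _ = _ := by ring

end Pool.Agent.TH498.CO
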