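import Pool.Agent.TH498.CO.Bxm
import Pool.Agent.TH498.AR.Wt
import Pool.Agent.TH498.AR.Neg

set_option autoImplicit false

/-!
# The main part of the sum for one twist, and the pointwise bound
-/

namespace Pool.Agent.TH498.CO

open Finset Pool.Agent.W307.SE Pool.Agent.TH498.AR

lemma sel_rpow {D : ℤ} {p : ℕ × ℕ} {θ : ℝ} (hθ : 0 < θ) :
    (sel D p ^ θ) ^ (2 / θ) = sel D p ^ 2 := by
  rw [← Real.rpow_mul (sel_nonneg D p)]
  have : θ * (2 / θ) = ((2 : ℕ) : ℝ) := by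
    push_cast
    field_simp
  rw [this, Real.rpow_natCast]

/-- **The main part for one twist.** -/
theorem twist_main (θ : ℝ) (hθ0 : 0 < θ) (hθ : θ < 2 / 3) : ∃ C1 C2 : ℝ, 1 ≤ C1 ∧ 1 ≤ C2 ∧
    ∀ D : ℤ, D ≠ 0 → ∀ (P : Finset ℕ) (Y : ℝ), 1 ≤ Y → ∀ E : Finset (ℕ × ℕ),
    (∀ p ∈ E, 0 < p.1 ∧ p.1 ≤ p.2 ∧ Nat.Coprime p.1 p.2 ∧
      (radP P (p.1 * p.2 * (p.1 + p.2)) : ℝ) ≤ Y ∧
      (psi3 P p ≤ ⌊Y ^ (1 / 10 : ℝ)⌋₊ ∧ ⌊Y ^ (1 / 10 : ℝ)⌋₊ ^ 2 ≤ p.1) ∧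
      ((p.1 + p.2 : ℕ) : ℝ) ≤ Y ^ (1 / 3 + 1 / 240 : ℝ)) →
    ∑ p ∈ E, sel D p ^ θ ≤
      C1 * C2 ^ P.card * 128 ^ D.natAbs.primeFactors.card * Y ^ ((2 : ℝ) / 3) := by
  classical
  obtain ⟨r, hr⟩ : ∃ r : ℝ, r = 1 - θ / 2 := ⟨_, rfl⟩
  have hr1 : 2 / 3 < r := by rw [hr]; linarith
  have hr2 : r < 1 := by rw [hr]; linarith
  obtain ⟨t, ht⟩ : ∃ t : ℝ, t = (2 / 3 + r) / 2 := ⟨_, rfl⟩
  have ht1 : 2 / 3 < t := by rw [ht]; linarith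
  have ht2 : t < r := by rw [ht]; linarith
  obtain ⟨σ, hσ⟩ : ∃ σ : ℝ, σ = t / r := ⟨_, rfl⟩
  have hr0 : 0 < r := by linarith
  have hσ0 : 0 < σ := by rw [hσ]; exact div_pos (by linarith) hr0
  have hσ1 : σ < 1 := by rw [hσ, div_lt_one hr0]; exact ht2
  have hσr : σ * r = t := by rw [hσ]; field_simp
  obtain ⟨m, hm⟩ : ∃ m : ℝ, m = 2 / θ := ⟨_, rfl⟩
  have hm1 : 1 < m := by
    rw [hm, lt_div_iff₀ hθ0]
    linarith
  have hmi : 1 - 1 / m = r := by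
    rw [hm, hr]
    field_simp
  obtain ⟨C1, C2, hC1, hC2, hmain⟩ := main_sum σ m t 0 hσ0 hσ1 hm1 ht1 (by linarith) le_rfl
    (by rw [hmi, hσr, add_zero])
  obtain ⟨C3, hC3, hbox⟩ := box_moment 4
  refine ⟨C1 * C3, C2, by nlinarith, hC2, ?_⟩
  intro D hD P Y hY E hE
  have hY0 : 0 < Y := by linarith
  obtain ⟨M, hM⟩ : ∃ M : ℕ, M = ⌊Y ^ (1 / 10 : ℝ)⌋₊ := ⟨_, rfl⟩
  rw [← hM] at hE
  have hYt : 1 ≤ Y ^ (1 / 10 : ℝ) := Real.one_le_rpow hY (by norm_num)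
  have hM1 : 1 ≤ M := by rw [hM]; exact Nat.le_floor (by exact_mod_cast hYt)
  have hMlt : Y ^ (1 / 10 : ℝ) < M + 1 := by rw [hM]; exact Nat.lt_floor_add_one _
  obtain ⟨G, hG⟩ : ∃ G : ℝ, G = C3 * 128 ^ D.natAbs.primeFactors.card := ⟨_, rfl⟩
  have hG1 : 1 ≤ G := by
    rw [hG]
    have : (1 : ℝ) ≤ 128 ^ D.natAbs.primeFactors.card := one_le_pow₀ (by norm_num)
    nlinarith
  have key := hmain P Y G 1 hY hG1 le_rfl M (fun p => sel D p ^ θ)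
    (fun p => Real.rpow_nonneg (sel_nonneg D p) _) E (by
      intro p hp
      obtain ⟨a1, a2, a3, a4, ⟨a5, a6⟩, a7⟩ := hE p hp
      refine ⟨a1, a2, a3, a4, a5, a6.trans a2, ?_⟩
      have : 0 < psi3 P p := Nat.mul_pos (Nat.mul_pos (psiP_pos a1) (psiP_pos (by omega)))
        (psiP_pos (by omega))
      exact_mod_cast this) (by
      intro i j
      have e : ∑ p ∈ E.filter (fun p => Nat.clog 2 p.1 = i ∧ Nat.clog 2 p.2 = j),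
          (sel D p ^ θ) ^ m = ∑ p ∈ E.filter (fun p => Nat.clog 2 p.1 = i ∧ Nat.clog 2 p.2 = j),
          sel D p ^ 2 := sum_congr rfl fun p _ => by rw [hm]; exact sel_rpow hθ0
      rw [e, hG]
      refine hbox D hD i j _ ?_
      intro p hp
      obtain ⟨hpE, h1, h2⟩ := mem_filter.1 hp
      obtain ⟨a1, a2, a3, a4, ⟨a5, a6⟩, a7⟩ := hE p hpE
      refine ⟨a1, a2, ?_, h1, h2⟩
      -- `p.2 ≤ Y ^ (2 / 5) ≤ (2 p.1) ^ 4`
      have hMr : (1 : ℝ) ≤ M := by exact_mod_cast hM1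
      have b1 : Y ^ (1 / 10 : ℝ) ≤ 2 * M := by linarith
      have b2 : (M : ℝ) ^ 2 ≤ p.1 := by exact_mod_cast a6
      have b3 : Y ^ (1 / 5 : ℝ) ≤ (2 * (p.1 : ℝ)) ^ 2 := by
        have e1 : Y ^ (1 / 5 : ℝ) = (Y ^ (1 / 10 : ℝ)) ^ 2 := by
          rw [← Real.rpow_natCast, ← Real.rpow_mul hY0.le]
          norm_num
        rw [e1]
        calc (Y ^ (1 / 10 : ℝ)) ^ 2 ≤ (2 * (M : ℝ)) ^ 2 := pow_le_pow_left₀ (by linarith) b1 2
          _ = 4 * (M : ℝ) ^ 2 := by ring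
          _ ≤ 4 * p.1 := by linarith
          _ ≤ 4 * (p.1 * p.1) := by
              have : (1 : ℝ) ≤ p.1 := by exact_mod_cast a1
              nlinarith
          _ = _ := by ring
      have b4 : (p.2 : ℝ) ≤ (2 * (p.1 : ℝ)) ^ 4 := by
        calc (p.2 : ℝ) ≤ ((p.1 + p.2 : ℕ) : ℝ) := by exact_mod_cast Nat.le_add_left _ _
          _ ≤ Y ^ (1 / 3 + 1 / 240 : ℝ) := a7
          _ ≤ Y ^ (2 / 5 : ℝ) := Real.rpow_le_rpow_of_exponent_le hY (by norm_num)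
          _ = (Y ^ (1 / 5 : ℝ)) ^ 2 := by
              rw [← Real.rpow_natCast, ← Real.rpow_mul hY0.le]
              norm_num
          _ ≤ ((2 * (p.1 : ℝ)) ^ 2) ^ 2 := pow_le_pow_left₀ (by positivity) b3 2
          _ = _ := by ring
      exact_mod_cast b4)
  refine key.trans (le_of_eq ?_)
  rw [hG, neg_zero, Real.rpow_zero]
  ring

/-- the pointwise bound -/
theorem sel_le (ε : ℝ) (hε : 0 < ε) (K : ℝ) (hK : 0 ≤ K) : ∃ C : ℝ, 1 ≤ C ∧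
    ∀ X : ℝ, 1 ≤ X → ∀ D : ℤ, D ≠ 0 → (D.natAbs : ℝ) ≤ 18 * X → ∀ p : ℕ × ℕ, 0 < p.1 → 0 < p.2 →
    ((p.1 + p.2 : ℕ) : ℝ) ≤ X ^ K → sel D p ≤ C * X ^ ε := by
  obtain ⟨e, he⟩ : ∃ e : ℝ, e = min (ε / (2 * (1 + 3 * K))) (1 / 2) := ⟨_, rfl⟩
  have he0 : 0 < e := by rw [he]; exact lt_min (by positivity) (by norm_num)
  have he1 : e ≤ 1 / 2 := by rw [he]; exact min_le_right _ _
  have he2 : 2 * e * (1 + 3 * K) ≤ ε := by
    have : e ≤ ε / (2 * (1 + 3 * K)) := by rw [he]; exact min_le_left _ _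
    rw [le_div_iff₀ (by positivity)] at this
    linarith
  obtain ⟨C0, hC0, hτ⟩ := Pool.Agent.Helper112.divisor_bound e he0
  refine ⟨16 * (C0 ^ 2 * 18 ^ 2) * (C0 ^ 2 * 2 ^ 2) + 1, by
    have : 0 ≤ 16 * (C0 ^ 2 * 18 ^ 2) * (C0 ^ 2 * 2 ^ 2) := by positivity
    linarith, ?_⟩
  intro X hX D hD hDX p h1 h2 hp
  have hX0 : 0 < X := by linarith
  have ha : (-(p.1 : ℤ)) ≠ 0 := by omega
  have hb : ((p.2 : ℕ) : ℤ) ≠ 0 := by omega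
  have hab : (-(p.1 : ℤ)) ≠ (p.2 : ℤ) := by omega
  have htriv := Pool.Agent.TH342.SQ.triv hD ha hb hab
  obtain ⟨n, hn⟩ : ∃ n : ℕ, n = 2 * p.1 * p.2 * (p.1 + p.2) := ⟨_, rfl⟩
  have hn1 : 1 ≤ n := by
    rw [hn]
    exact Nat.mul_pos (Nat.mul_pos (Nat.mul_pos (by norm_num) h1) h2) (by omega)
  have hnn : (2 * (-(p.1 : ℤ)) * (p.2 : ℤ) * ((-(p.1 : ℤ)) - (p.2 : ℤ))).natAbs = n := by
    have : (2 * (-(p.1 : ℤ)) * (p.2 : ℤ) * ((-(p.1 : ℤ)) - (p.2 : ℤ))) = (n : ℤ) := by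
      rw [hn]; push_cast; ring
    rw [this, Int.natAbs_natCast]
  rw [hnn] at htriv
  have hD1 : 1 ≤ D.natAbs := Int.natAbs_pos.2 hD
  have t1 : ((D.natAbs.divisors.card : ℕ) : ℝ) ≤ C0 * 18 * X ^ e := by
    refine (hτ _ hD1).trans ?_
    rw [mul_assoc]
    refine mul_le_mul_of_nonneg_left ?_ hC0.le
    calc ((D.natAbs : ℕ) : ℝ) ^ e ≤ (18 * X) ^ e :=
          Real.rpow_le_rpow (Nat.cast_nonneg _) hDX he0.le
      _ = 18 ^ e * X ^ e := Real.mul_rpow (by norm_num) hX0.le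
      _ ≤ 18 * X ^ e := by
          refine mul_le_mul_of_nonneg_right ?_ (by positivity)
          calc (18 : ℝ) ^ e ≤ 18 ^ (1 : ℝ) :=
                Real.rpow_le_rpow_of_exponent_le (by norm_num) (by linarith)
            _ = 18 := Real.rpow_one _
  have t2 : ((n.divisors.card : ℕ) : ℝ) ≤ C0 * 2 * X ^ (3 * K * e) := by
    refine (hτ _ hn1).trans ?_
    rw [mul_assoc]
    refine mul_le_mul_of_nonneg_left ?_ hC0.le
    have hs : (0 : ℝ) < X ^ K := by positivity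
    have hp1 : (p.1 : ℝ) ≤ X ^ K := le_trans (by exact_mod_cast Nat.le_add_right _ _) hp
    have hp2 : (p.2 : ℝ) ≤ X ^ K := le_trans (by exact_mod_cast Nat.le_add_left _ _) hp
    have hn2 : (n : ℝ) ≤ 2 * (X ^ K) ^ 3 := by
      have e1 : (n : ℝ) = 2 * p.1 * p.2 * ((p.1 + p.2 : ℕ) : ℝ) := by rw [hn]; push_cast; ring
      rw [e1]
      calc 2 * (p.1 : ℝ) * p.2 * ((p.1 + p.2 : ℕ) : ℝ) ≤ 2 * X ^ K * X ^ K * X ^ K := by
            gcongr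
        _ = _ := by ring
    calc ((n : ℕ) : ℝ) ^ e ≤ (2 * (X ^ K) ^ 3) ^ e :=
          Real.rpow_le_rpow (Nat.cast_nonneg _) hn2 he0.le
      _ = 2 ^ e * X ^ (3 * K * e) := by
          rw [Real.mul_rpow (by norm_num) (by positivity), ← Real.rpow_natCast,
            ← Real.rpow_mul hX0.le, ← Real.rpow_mul hX0.le]
          congr 2
          push_cast
          ring
      _ ≤ 2 * X ^ (3 * K * e) := by
          refine mul_le_mul_of_nonneg_right ?_ (by positivity)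
          calc (2 : ℝ) ^ e ≤ 2 ^ (1 : ℝ) :=
                Real.rpow_le_rpow_of_exponent_le (by norm_num) (by linarith)
            _ = 2 := Real.rpow_one _
  have hw : (16 : ℝ) ^ D.natAbs.primeFactors.card ≤ ((D.natAbs.divisors.card : ℕ) : ℝ) ^ 4 := by
    have := Pool.Agent.TH342.SQ.two_pow_le D.natAbs (by omega)
    have h3 : ((2 : ℝ) ^ D.natAbs.primeFactors.card) ≤ ((D.natAbs.divisors.card : ℕ) : ℝ) := by
      exact_mod_cast this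
    calc (16 : ℝ) ^ D.natAbs.primeFactors.card = ((2 : ℝ) ^ D.natAbs.primeFactors.card) ^ 4 := by
          rw [← pow_mul, mul_comm, pow_mul]; norm_num
      _ ≤ _ := pow_le_pow_left₀ (by positivity) h3 4
  obtain ⟨T, hT⟩ : ∃ T : ℝ, T = ((D.natAbs.divisors.card : ℕ) : ℝ) := ⟨_, rfl⟩
  obtain ⟨U, hU⟩ : ∃ U : ℝ, U = ((n.divisors.card : ℕ) : ℝ) := ⟨_, rfl⟩
  rw [← hT] at t1 hw
  rw [← hU] at t2 htriv
  have hT0 : 0 ≤ T := by rw [hT]; positivity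
  have hU0 : 0 ≤ U := by rw [hU]; positivity
  have hsq : sel D p ^ 2 ≤ (16 * (T ^ 2 * U ^ 2)) ^ 2 := by
    unfold sel
    refine htriv.trans ?_
    calc 256 * 16 ^ D.natAbs.primeFactors.card * U ^ 4 ≤ 256 * T ^ 4 * U ^ 4 := by gcongr
      _ = _ := by ring
  have hle : sel D p ≤ 16 * (T ^ 2 * U ^ 2) :=
    le_of_sq_le_sq hsq (by positivity)
  have hfin : 16 * (T ^ 2 * U ^ 2) ≤ 16 * ((C0 * 18 * X ^ e) ^ 2 * (C0 * 2 * X ^ (3 * K * e)) ^ 2) := by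
    gcongr
  have hC00 : 0 ≤ C0 := hC0.le
  have hxx : (X ^ e) ^ 2 * (X ^ (3 * K * e)) ^ 2 ≤ X ^ ε := by
    rw [← Real.rpow_natCast, ← Real.rpow_natCast, ← Real.rpow_mul hX0.le, ← Real.rpow_mul hX0.le,
      ← Real.rpow_add hX0]
    refine Real.rpow_le_rpow_of_exponent_le hX ?_
    push_cast
    nlinarith
  have hXε : 0 ≤ X ^ ε := by positivity
  calc sel D p ≤ 16 * ((C0 * 18 * X ^ e) ^ 2 * (C0 * 2 * X ^ (3 * K * e)) ^ 2) := hle.trans hfin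
    _ = (16 * (C0 ^ 2 * 18 ^ 2) * (C0 ^ 2 * 2 ^ 2)) * ((X ^ e) ^ 2 * (X ^ (3 * K * e)) ^ 2) := by ring
    _ ≤ (16 * (C0 ^ 2 * 18 ^ 2) * (C0 ^ 2 * 2 ^ 2)) * X ^ ε :=
        mul_le_mul_of_nonneg_left hxx (by positivity)
    _ ≤ _ := mul_le_mul_of_nonneg_right (by linarith) hXε

end Pool.Agent.TH498.CO
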