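import Pool.Agent.TH498.CO.Agg2
import Pool.Agent.TH498.CO.BxW
import Pool.Agent.TH498.CO.Mn

set_option autoImplicit false

/-!
# The weights of the high moments and of the exceptional pairs
-/

namespace Pool.Agent.TH498.CO

open Finset Pool.Agent.W307.SE Pool.Agent.TH498.AR Pool.Agent.H328R2.ABC Pool.Agent.TH344.DT

/-- the second coordinate is at most a power of the first -/
lemma box_shape {Y : ℝ} {M : ℕ} (hY : 1 ≤ Y) (hM : M = ⌊Y ^ (1 / 10 : ℝ)⌋₊) {p : ℕ × ℕ}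
    (a1 : 0 < p.1) (a6 : M ^ 2 ≤ p.1) (a7 : ((p.1 + p.2 : ℕ) : ℝ) ≤ Y ^ (1 / 3 + 1 / 240 : ℝ)) :
    p.2 ≤ (2 * p.1) ^ 4 := by
  have hY0 : 0 < Y := by linarith
  have hYt : 1 ≤ Y ^ (1 / 10 : ℝ) := Real.one_le_rpow hY (by norm_num)
  have hM1 : 1 ≤ M := by rw [hM]; exact Nat.le_floor (by exact_mod_cast hYt)
  have hMlt : Y ^ (1 / 10 : ℝ) < M + 1 := by rw [hM]; exact Nat.lt_floor_add_one _
  have hMr : (1 : ℝ) ≤ M := by exact_mod_cast hM1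
  have b1 : Y ^ (1 / 10 : ℝ) ≤ 2 * M := by linarith
  have b2 : (M : ℝ) ^ 2 ≤ p.1 := by exact_mod_cast a6
  have b3 : Y ^ (1 / 5 : ℝ) ≤ (2 * (p.1 : ℝ)) ^ 2 := by
    have e1 : Y ^ (1 / 5 : ℝ) = (Y ^ (1 / 10 : ℝ)) ^ 2 := by
      rw [← Real.rpow_natCast, ← Real.rpow_mul hY0.le]
      norm_num
    rw [e1]
    calc (Y ^ (1 / 10 : ℝ)) ^ 2 ≤ (2 * (M : ℝ)) ^ 2 := pow_le_pow_left₀ (by linarith) b1 2
      _ = 4 * (M : ℝ) ^ 2 := by ring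
      _ ≤ 4 * p.1 := by linarith
      _ ≤ 4 * (p.1 * p.1) := by
          have : (1 : ℝ) ≤ p.1 := by exact_mod_cast a1
          nlinarith
      _ = _ := by ring
  have b4 : (p.2 : ℝ) ≤ (2 * (p.1 : ℝ)) ^ 4 := by
    calc (p.2 : ℝ) ≤ ((p.1 + p.2 : ℕ) : ℝ) := by exact_mod_cast Nat.le_add_left _ _
      _ ≤ Y ^ (1 / 3 + 1 / 240 : ℝ) := a7
      _ ≤ Y ^ (2 / 5 : ℝ) := Real.rpow_le_rpow_of_exponent_le hY (by norm_num)
      _ = (Y ^ (1 / 5 : ℝ)) ^ 2 := by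
          rw [← Real.rpow_natCast, ← Real.rpow_mul hY0.le]
          norm_num
      _ ≤ ((2 * (p.1 : ℝ)) ^ 2) ^ 2 := pow_le_pow_left₀ (by positivity) b3 2
      _ = _ := by ring
  exact_mod_cast b4

/-- the weight of the `k`-th moment -/
noncomputable def fmom (θ : ℝ) (k : ℕ) (T : Finset (Fin 3 → ℝ)) (D : ℤ) (p : ℕ × ℕ) : ℝ :=
  (sel D p ^ k * rho T (om3 p)) ^ (θ / k)

lemma fmom_nonneg {θ : ℝ} {k : ℕ} {T : Finset (Fin 3 → ℝ)} (hT : ∀ t ∈ T, ∀ j, 0 < t j) (D : ℤ)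
    (p : ℕ × ℕ) : 0 ≤ fmom θ k T D p :=
  Real.rpow_nonneg (mul_nonneg (pow_nonneg (sel_nonneg D p) k) (rho_nonneg hT _)) _

open Classical in
/-- the weight of the exceptional pairs -/
noncomputable def fbad (T : Finset (Fin 3 → ℝ)) (_D : ℤ) (p : ℕ × ℕ) : ℝ :=
  if rho T (om3 p) < 1 then 1 else 0

lemma fbad_nonneg (T : Finset (Fin 3 → ℝ)) (D : ℤ) (p : ℕ × ℕ) : 0 ≤ fbad T D p := by
  unfold fbad
  split_ifs <;> norm_num

/-- **The main part for the high moments.** -/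
theorem mn_moment (θ : ℝ) (hθ0 : 0 < θ) (k : ℕ) (hk : 3 * θ < k) (T : Finset (Fin 3 → ℝ))
    (hT : ∀ t ∈ T, ∀ j, 0 < t j) (hA : AVGW k T (fun a b => (Sel a b).ncard)) :
    ∃ C1 C2 : ℝ, 1 ≤ C1 ∧ 1 ≤ C2 ∧ ∀ Z : ℝ, 1 ≤ Z →
      MnH (fmom θ k T) (2 * 8 ^ k) C1 C2 1 Z := by
  classical
  have hk0 : (0 : ℝ) < k := by linarith
  obtain ⟨r, hr⟩ : ∃ r : ℝ, r = 1 - θ / k := ⟨_, rfl⟩
  have hθk : θ / k < 1 / 3 := by rw [div_lt_div_iff₀ hk0 (by norm_num)]; linarith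
  have hθk0 : 0 < θ / k := by positivity
  have hr1 : 2 / 3 < r := by rw [hr]; linarith
  have hr2 : r < 1 := by rw [hr]; linarith
  obtain ⟨t, ht⟩ : ∃ t : ℝ, t = (2 / 3 + r) / 2 := ⟨_, rfl⟩
  have ht1 : 2 / 3 < t := by rw [ht]; linarith
  have ht2 : t < r := by rw [ht]; linarith
  obtain ⟨σ, hσ⟩ : ∃ σ : ℝ, σ = t / r := ⟨_, rfl⟩
  have hr0 : 0 < r := by linarith
  have hσ0 : 0 < σ := by rw [hσ]; exact div_pos (by linarith) hr0
  have hσ1 : σ < 1 := by rw [hσ, div_lt_one hr0]; exact ht2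
  have hσr : σ * r = t := by rw [hσ]; field_simp
  obtain ⟨m, hm⟩ : ∃ m : ℝ, m = k / θ := ⟨_, rfl⟩
  have hm1 : 1 < m := by
    rw [hm, lt_div_iff₀ hθ0]
    linarith
  have hmi : 1 - 1 / m = r := by
    rw [hm, hr]
    field_simp
  obtain ⟨C1, C2, hC1, hC2, hmain⟩ := main_sum σ m t 0 hσ0 hσ1 hm1 ht1 (by linarith) le_rfl
    (by rw [hmi, hσr, add_zero])
  obtain ⟨C3, hC3, hbox⟩ := box_momentW k T hT hA 4
  refine ⟨C1 * C3, C2, by nlinarith, hC2, ?_⟩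
  intro Z hZ D hD P Y hYZ E hE
  have hY : 1 ≤ Y := hZ.trans hYZ
  have hY0 : 0 < Y := by linarith
  obtain ⟨M, hM⟩ : ∃ M : ℕ, M = ⌊Y ^ (1 / 10 : ℝ)⌋₊ := ⟨_, rfl⟩
  rw [← hM] at hE
  obtain ⟨G, hG⟩ : ∃ G : ℝ, G = C3 * (2 * 8 ^ k) ^ D.natAbs.primeFactors.card := ⟨_, rfl⟩
  have hB1 : (1 : ℝ) ≤ 2 * 8 ^ k := by
    have : (1 : ℝ) ≤ 8 ^ k := one_le_pow₀ (by norm_num)
    linarith
  have hG1 : 1 ≤ G := by
    rw [hG]
    have : (1 : ℝ) ≤ (2 * 8 ^ k) ^ D.natAbs.primeFactors.card := one_le_pow₀ hB1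
    nlinarith
  have key := hmain P Y G 1 hY hG1 le_rfl M (fun p => fmom θ k T D p)
    (fun p => fmom_nonneg hT D p) E (by
      intro p hp
      obtain ⟨a1, a2, a3, a4, ⟨a5, a6⟩, a7⟩ := hE p hp
      refine ⟨a1, a2, a3, a4, a5, a6.trans a2, ?_⟩
      have : 0 < psi3 P p := Nat.mul_pos (Nat.mul_pos (psiP_pos a1) (psiP_pos (by omega)))
        (psiP_pos (by omega))
      exact_mod_cast this) (by
      intro i j
      have e : ∑ p ∈ E.filter (fun p => Nat.clog 2 p.1 = i ∧ Nat.clog 2 p.2 = j),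
          (fmom θ k T D p) ^ m = ∑ p ∈ E.filter (fun p => Nat.clog 2 p.1 = i ∧
            Nat.clog 2 p.2 = j), sel D p ^ k * rho T (om3 p) := by
        refine sum_congr rfl fun p _ => ?_
        unfold fmom
        rw [← Real.rpow_mul (mul_nonneg (pow_nonneg (sel_nonneg D p) k) (rho_nonneg hT _)), hm]
        have : θ / k * (k / θ) = 1 := by field_simp
        rw [this, Real.rpow_one]
      rw [e, hG]
      refine hbox D hD i j _ ?_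
      intro p hp
      obtain ⟨hpE, h1, h2⟩ := mem_filter.1 hp
      obtain ⟨a1, a2, a3, a4, ⟨a5, a6⟩, a7⟩ := hE p hpE
      exact ⟨a1, a2, a3, box_shape hY hM a1 a6 a7, h1, h2⟩)
  refine key.trans (le_of_eq ?_)
  rw [hG, neg_zero, Real.rpow_zero]
  ring

/-- **The main part for the exceptional pairs.** -/
theorem mn_bad : ∃ C1 C2 : ℝ, 1 ≤ C1 ∧ 1 ≤ C2 ∧ ∀ (T : Finset (Fin 3 → ℝ)),
    (∀ t ∈ T, ∀ j, 0 < t j) → (∀ t ∈ T, 1 < ∏ j, t j) → ∀ ε : ℝ, 0 < ε →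
    ∃ Z0 : ℝ, 1 ≤ Z0 ∧ ∀ Z : ℝ, Z0 ≤ Z → MnH (fbad T) 1 C1 C2 ε Z := by
  classical
  obtain ⟨C1, C2, hC1, hC2, hmain⟩ := main_sum (17 / 18) 4 (17 / 24) 0 (by norm_num) (by norm_num)
    (by norm_num) (by norm_num) (by norm_num) le_rfl (by norm_num)
  refine ⟨C1, C2, hC1, hC2, ?_⟩
  intro T hT1 hT2 ε hε
  obtain ⟨i0, hi0⟩ := box_bad T hT1 hT2 (ε ^ 4) (by positivity)
  obtain ⟨Z0, hZ0⟩ : ∃ Z0 : ℝ, Z0 = (2 ^ i0 + 1) ^ 10 := ⟨_, rfl⟩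
  have hZ01 : 1 ≤ Z0 := by
    rw [hZ0]
    refine one_le_pow₀ ?_
    have : (0 : ℝ) < 2 ^ i0 := by positivity
    linarith
  refine ⟨Z0, hZ01, ?_⟩
  intro Z hZ D hD P Y hYZ E hE
  have hY : 1 ≤ Y := hZ01.trans (hZ.trans hYZ)
  have hY0 : 0 < Y := by linarith
  obtain ⟨M, hM⟩ : ∃ M : ℕ, M = ⌊Y ^ (1 / 10 : ℝ)⌋₊ := ⟨_, rfl⟩
  rw [← hM] at hE
  have hMi : 2 ^ i0 + 1 ≤ M := by
    rw [hM]
    refine Nat.le_floor ?_
    have h1 : ((2 : ℝ) ^ i0 + 1) = (((2 : ℝ) ^ i0 + 1) ^ 10) ^ (1 / 10 : ℝ) := by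
      rw [← Real.rpow_natCast ((2 : ℝ) ^ i0 + 1) 10, ← Real.rpow_mul (by positivity)]
      norm_num
    push_cast
    rw [h1, ← hZ0]
    exact Real.rpow_le_rpow (by linarith) (hZ.trans hYZ) (by norm_num)
  have key := hmain P Y 1 1 hY le_rfl le_rfl M (fun p => fbad T D p / ε)
    (fun p => div_nonneg (fbad_nonneg T D p) hε.le) E (by
      intro p hp
      obtain ⟨a1, a2, a3, a4, ⟨a5, a6⟩, a7⟩ := hE p hp
      refine ⟨a1, a2, a3, a4, a5, a6.trans a2, ?_⟩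
      have : 0 < psi3 P p := Nat.mul_pos (Nat.mul_pos (psiP_pos a1) (psiP_pos (by omega)))
        (psiP_pos (by omega))
      exact_mod_cast this) (by
      intro i j
      set Bx := E.filter (fun p => Nat.clog 2 p.1 = i ∧ Nat.clog 2 p.2 = j) with hBx
      have e : ∑ p ∈ Bx, (fbad T D p / ε) ^ (4 : ℝ) =
          ((Bx.filter fun p => rho T (om3 p) < 1).card : ℝ) * (ε ^ 4)⁻¹ := by
        rw [card_filter, Nat.cast_sum, sum_mul]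
        refine sum_congr rfl fun p _ => ?_
        unfold fbad
        have h4 : (4 : ℝ) = ((4 : ℕ) : ℝ) := by norm_num
        rw [h4, Real.rpow_natCast]
        split_ifs
        · rw [Nat.cast_one]
          field_simp
        · simp
      rw [e, ← div_eq_mul_inv, div_le_iff₀ (by positivity)]
      have hj : ((Bx.filter fun p => rho T (om3 p) < 1).card : ℝ) ≤ ε ^ 4 * 2 ^ (i + j) := by
        rcases (Bx.filter fun p => rho T (om3 p) < 1).eq_empty_or_nonempty with he | ⟨q, hq⟩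
        · rw [he, card_empty, Nat.cast_zero]
          positivity
        have hii : i0 ≤ i := by
          obtain ⟨hqB, -⟩ := mem_filter.1 hq
          obtain ⟨hqE, h1, -⟩ := mem_filter.1 hqB
          obtain ⟨a1, a2, a3, a4, ⟨a5, a6⟩, a7⟩ := hE q hqE
          by_contra hlt
          push Not at hlt
          have h2 : q.1 ≤ 2 ^ i := by rw [← h1]; exact Nat.le_pow_clog (by norm_num) _
          have h3 : 2 ^ i ≤ 2 ^ i0 := Nat.pow_le_pow_right (by norm_num) hlt.le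
          have h4 : M ≤ M ^ 2 := Nat.le_self_pow (by norm_num) _
          omega
        refine hi0 i j hii _ ?_
        intro p hp
        obtain ⟨hpB, h5⟩ := mem_filter.1 hp
        obtain ⟨hpE, h1, h2⟩ := mem_filter.1 hpB
        obtain ⟨a1, a2, a3, a4, ⟨a5, a6⟩, a7⟩ := hE p hpE
        exact ⟨a1, a2, box_shape hY hM a1 a6 a7, h1, h2, h5⟩
      linarith)
  rw [neg_zero, Real.rpow_zero, ← sum_div, div_le_iff₀ hε] at key
  refine key.trans (le_of_eq ?_)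
  rw [one_pow]
  ring

/-- the pointwise bound of the weight -/
theorem pt_moment (θ : ℝ) (hθ0 : 0 < θ) (k : ℕ) (hk : 3 * θ < k) (T : Finset (Fin 3 → ℝ))
    (hT : ∀ t ∈ T, ∀ j, 0 < t j) (K A : ℝ) (hK : 0 ≤ K) (hA : 0 ≤ A) :
    ∃ c7 : ℝ, 1 ≤ c7 ∧ ∀ X : ℝ, 1 ≤ X → ∀ d' : ℤ, d' ≠ 0 → (d'.natAbs : ℝ) ≤ X ^ A →
    ∀ s : ℤ, (s = 1 ∨ s = -1) → ∀ i j : ℕ, i ≤ 1 → j ≤ 2 →
      PtH (fmom θ k T) K X (c7 * X ^ (1 / 240000 : ℝ)) d' s i j := by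
  have hk0 : (0 : ℝ) < k := by linarith
  have hkn : k ≠ 0 := by
    intro h
    rw [h] at hk0
    norm_num at hk0
  obtain ⟨C7, hC7, hsel⟩ := sel_le2 ((1 / 240000) / θ) (by positivity) K A hK hA
  refine ⟨C7 ^ θ, Real.one_le_rpow hC7 hθ0.le, ?_⟩
  intro X hX d' hd' hd'X s hs i j hi hj g₁ g₂ hg1 hg2 p hp
  have hX0 : 0 < X := by linarith
  obtain ⟨a1, a2, a3, a4, a5, a6⟩ := mem_TT.1 hp
  have hg0 : 0 < GG i j g₁ g₂ :=
    Nat.mul_pos (Nat.mul_pos (by positivity) (by positivity)) (Nat.mul_pos hg1 hg2)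
  have hDabs := natAbs_twist2 hs d' (GG i j g₁ g₂)
  have hd1 : 0 < d'.natAbs := Int.natAbs_pos.2 hd'
  have hD0 : d' * (s * ((GG i j g₁ g₂ : ℕ) : ℤ)) ≠ 0 := by
    have h2 : 0 < (d' * (s * ((GG i j g₁ g₂ : ℕ) : ℤ))).natAbs := by
      rw [hDabs]; exact Nat.mul_pos hd1 hg0
    exact Int.natAbs_pos.1 h2
  have hggX : (g₁ : ℝ) * g₂ ≤ X := by
    have h1 : g₁ * g₂ ≤ rad (p.1 * p.2 * (p.1 + p.2)) * (g₁ * g₂) * g₂ := by
      calc g₁ * g₂ = 1 * (g₁ * g₂) * 1 := by ring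
        _ ≤ _ := Nat.mul_le_mul (Nat.mul_le_mul_right _ (rad_pos _)) hg2
    have h2 : ((g₁ * g₂ : ℕ) : ℝ) ≤ X := le_trans (by exact_mod_cast h1) a5
    push_cast at h2
    exact h2
  have hDX : ((d' * (s * ((GG i j g₁ g₂ : ℕ) : ℤ))).natAbs : ℝ) ≤ 18 * X ^ (A + 1) := by
    rw [hDabs]
    push_cast
    have h1 := GG_le hi hj hggX
    calc (d'.natAbs : ℝ) * ((GG i j g₁ g₂ : ℕ) : ℝ) ≤ X ^ A * (18 * X) := by
          refine mul_le_mul hd'X h1 (Nat.cast_nonneg _) (by positivity)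
      _ = 18 * (X ^ A * X) := by ring
      _ = 18 * X ^ (A + 1) := by
          rw [Real.rpow_add hX0, Real.rpow_one]
  have h1 := hsel X hX _ hD0 hDX p a1 (by omega) a6
  unfold fmom
  have hs0 := sel_nonneg (d' * (s * ((GG i j g₁ g₂ : ℕ) : ℤ))) p
  have h2 : (sel (d' * (s * ((GG i j g₁ g₂ : ℕ) : ℤ))) p ^ k * rho T (om3 p)) ^ (θ / k) ≤
      (sel (d' * (s * ((GG i j g₁ g₂ : ℕ) : ℤ))) p ^ k) ^ (θ / k) := by
    refine Real.rpow_le_rpow (mul_nonneg (pow_nonneg hs0 k) (rho_nonneg hT _)) ?_ (by positivity)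
    exact mul_le_of_le_one_right (pow_nonneg hs0 k) (rho_le_one T _)
  refine h2.trans ?_
  rw [← Real.rpow_natCast, ← Real.rpow_mul hs0]
  have e1 : (k : ℝ) * (θ / k) = θ := by field_simp
  rw [e1]
  calc sel (d' * (s * ((GG i j g₁ g₂ : ℕ) : ℤ))) p ^ θ ≤ (C7 * X ^ (1 / 240000 / θ : ℝ)) ^ θ :=
        Real.rpow_le_rpow hs0 h1 hθ0.le
    _ = C7 ^ θ * X ^ (1 / 240000 : ℝ) := by
        rw [Real.mul_rpow (by linarith) (by positivity), ← Real.rpow_mul hX0.le]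
        congr 2
        field_simp

/-- the pointwise bound of the indicator -/
theorem pt_bad (T : Finset (Fin 3 → ℝ)) (K X : ℝ) (hX : 1 ≤ X) (d' s : ℤ) (i j : ℕ) :
    PtH (fbad T) K X (1 * X ^ (1 / 240000 : ℝ)) d' s i j := by
  intro g₁ g₂ _ _ p _
  have h1 : 1 ≤ X ^ (1 / 240000 : ℝ) := Real.one_le_rpow hX (by norm_num)
  unfold fbad
  split_ifs <;> linarith

end Pool.Agent.TH498.CO
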