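import Pool.Agent.TH498.CO.Fin
import Pool.Agent.TH498.CO.DatG
import Pool.Agent.TH498.CO.MnW

set_option autoImplicit false

/-!
# The parameters of the curves, and the sums of the weights over them
-/

namespace Pool.Agent.TH498.CO

open Finset Pool.Agent.W307.SE Pool.Agent.TH498.AR Pool.Agent.H328R2.ABC
  Pool.Agent.H925R.Szpiro Pool.Agent.TH841.SH Pool.Agent.TH344.DT

/-- the value of a weight at the parameters -/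
noncomputable def ev (f : ℤ → ℕ × ℕ → ℝ) (d : ℤ) (t : Par) : ℝ :=
  f (d * (t.1.1 * ((GG t.1.2.1 t.1.2.2 t.2.1.1 t.2.1.2 : ℕ) : ℤ))) t.2.2

/-- the parameters of the curves of bounded conductor -/
noncomputable def TN (X K : ℝ) : Finset Par :=
  (({1, -1} : Finset ℤ) ×ˢ (range 2 ×ˢ range 3)) ×ˢ
    (((Icc 1 ⌊X⌋₊) ×ˢ (Icc 1 ⌊X⌋₊)).sigma fun x : ℕ × ℕ => TT X K x.1 x.2)

/-- the parameters of the curves of bounded discriminant -/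
def FN (m : ℕ) : Finset Par :=
  (({1, -1} : Finset ℤ) ×ˢ (range 2 ×ˢ range 3)) ×ˢ
    (((Icc 1 m) ×ˢ (Icc 1 m)).sigma fun _ : ℕ × ℕ => (Icc 1 m) ×ˢ (Icc 1 m))

/-- **The parameters.** -/
theorem params : ∃ τ : ℤ × ℤ → Par, ∀ q : ℤ × ℤ, IsMin q.1 q.2 → FullS q.1 q.2 →
    (∀ N K : ℝ, 1 ≤ N → 0 ≤ K → (condS q.1 q.2 : ℝ) ≤ N → |((D q.1 q.2 : ℤ) : ℝ)| ≤ N ^ K →
      τ q ∈ TN (6 * N) K) ∧
    (∀ m : ℕ, |((D q.1 q.2 : ℤ) : ℝ)| ≤ m → τ q ∈ FN m) ∧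
    (∀ d : ℤ, d ≠ 0 →
      Bd (Pool.Agent.W307.RT.Sh (d ^ 2 * (-q.1)) (d ^ 3 * (-q.2))) (ev sel d (τ q))) ∧
    (∃ e1 e2 e3 : ℤ, ∀ x : ℤ,
      x ^ 3 + (-q.1) * x + (-q.2) = (x - e1) * (x - e2) * (x - e3)) ∧
    3 * q.1 = ((GG (τ q).1.2.1 (τ q).1.2.2 (τ q).2.1.1 (τ q).2.1.2 : ℕ) : ℤ) ^ 2 *
      (((τ q).2.2.1 : ℤ) ^ 2 + (τ q).2.2.1 * (τ q).2.2.2 + ((τ q).2.2.2 : ℤ) ^ 2) ∧
    27 * q.2 = -((τ q).1.1 * (((GG (τ q).1.2.1 (τ q).1.2.2 (τ q).2.1.1 (τ q).2.1.2 : ℕ) : ℤ) ^ 3 *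
      ((2 * ((τ q).2.2.1 : ℤ) + (τ q).2.2.2) * (((τ q).2.2.1 : ℤ) - (τ q).2.2.2) *
        (((τ q).2.2.1 : ℤ) + 2 * (τ q).2.2.2)))) := by
  classical
  have hpar : ∀ q : ℤ × ℤ, ∃ t : Par, IsMin q.1 q.2 → FullS q.1 q.2 →
      (∀ N K : ℝ, 1 ≤ N → 0 ≤ K → (condS q.1 q.2 : ℝ) ≤ N → |((D q.1 q.2 : ℤ) : ℝ)| ≤ N ^ K →
        t ∈ TN (6 * N) K) ∧
      (∀ m : ℕ, |((D q.1 q.2 : ℤ) : ℝ)| ≤ m → t ∈ FN m) ∧
      (∀ d : ℤ, d ≠ 0 →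
        Bd (Pool.Agent.W307.RT.Sh (d ^ 2 * (-q.1)) (d ^ 3 * (-q.2))) (ev sel d t)) ∧
      (∃ e1 e2 e3 : ℤ, ∀ x : ℤ,
        x ^ 3 + (-q.1) * x + (-q.2) = (x - e1) * (x - e2) * (x - e3)) ∧
      3 * q.1 = ((GG t.1.2.1 t.1.2.2 t.2.1.1 t.2.1.2 : ℕ) : ℤ) ^ 2 *
        ((t.2.2.1 : ℤ) ^ 2 + t.2.2.1 * t.2.2.2 + (t.2.2.2 : ℤ) ^ 2) ∧
      27 * q.2 = -(t.1.1 * (((GG t.1.2.1 t.1.2.2 t.2.1.1 t.2.1.2 : ℕ) : ℤ) ^ 3 *
        ((2 * (t.2.2.1 : ℤ) + t.2.2.2) * ((t.2.2.1 : ℤ) - t.2.2.2) *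
          ((t.2.2.1 : ℤ) + 2 * t.2.2.2)))) := by
    rintro ⟨a, b⟩
    by_cases hq : IsMin a b ∧ FullS a b
    swap
    · exact ⟨((1, (0, 0)), ⟨(0, 0), (0, 0)⟩), fun h h' => absurd ⟨h, h'⟩ hq⟩
    obtain ⟨hmin, hf⟩ := hq
    obtain ⟨s, i, j, g₁, g₂, u, v, hs, hi, hj, hg1, hg2, hu, huv, hcop, hdvd, hcond, h3a, h27, hD,
      hroots, hbd⟩ := dataG a b hmin hf
    have hg0 : 0 < GG i j g₁ g₂ :=
      Nat.mul_pos (Nat.mul_pos (by positivity) (by positivity)) (Nat.mul_pos hg1 hg2)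
    have hu1 : (1 : ℤ) ≤ u := by exact_mod_cast hu
    have hv1 : (1 : ℤ) ≤ v := by exact_mod_cast (by omega : 1 ≤ v)
    have hG1 : (1 : ℤ) ≤ ((GG i j g₁ g₂ : ℕ) : ℤ) := by exact_mod_cast hg0
    have h3 : ((u : ℤ) + v) ≤ (u * v * (u + v)) := by
      have : (1 : ℤ) ≤ u * v := by nlinarith
      nlinarith
    have h4 : ((u : ℤ) + v) ≤ (u * v * (u + v)) ^ 2 := by nlinarith
    have hDuv : ((u + v : ℕ) : ℤ) ≤ D a b := by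
      rw [hD]
      have h2 : (1 : ℤ) ≤ ((GG i j g₁ g₂ : ℕ) : ℤ) ^ 6 := one_le_pow₀ hG1
      push_cast at h2 ⊢
      nlinarith
    have hDG : ((GG i j g₁ g₂ : ℕ) : ℤ) ≤ D a b := by
      rw [hD]
      have h2 : ((GG i j g₁ g₂ : ℕ) : ℤ) ≤ ((GG i j g₁ g₂ : ℕ) : ℤ) ^ 6 :=
        le_self_pow₀ hG1 (by norm_num)
      have h5 : (1 : ℤ) ≤ (u * v * (u + v)) ^ 2 := by nlinarith
      nlinarith
    refine ⟨((s, (i, j)), ⟨(g₁, g₂), (u, v)⟩), fun _ _ => ⟨?_, ?_, hbd, hroots, h3a, h27⟩⟩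
    · intro N K hN hK hc hd
      simp only at hc hd
      have hX1 : 1 ≤ 6 * N := by linarith
      have hcR : ((rad (u * v * (u + v)) * (g₁ * g₂) * g₂ : ℕ) : ℝ) ≤ 6 * N := by
        have : ((rad (u * v * (u + v)) * (g₁ * g₂) * g₂ : ℕ) : ℝ) ≤
            ((6 * condS a b : ℕ) : ℝ) := by
          exact_mod_cast hcond
        push_cast at this ⊢
        linarith
      have hgg : g₁ * g₂ ≤ ⌊6 * N⌋₊ := by
        refine Nat.le_floor ?_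
        have h1 : g₁ * g₂ ≤ rad (u * v * (u + v)) * (g₁ * g₂) * g₂ := by
          calc g₁ * g₂ = 1 * (g₁ * g₂) * 1 := by ring
            _ ≤ _ := Nat.mul_le_mul (Nat.mul_le_mul_right _ (rad_pos _)) hg2
        exact le_trans (by exact_mod_cast h1) hcR
      have hg1B : g₁ ≤ ⌊6 * N⌋₊ := (Nat.le_mul_of_pos_right _ hg2).trans hgg
      have hg2B : g₂ ≤ ⌊6 * N⌋₊ := (Nat.le_mul_of_pos_left _ hg1).trans hgg
      have hheight : ((u + v : ℕ) : ℝ) ≤ (6 * N) ^ K := by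
        have h2 : ((u + v : ℕ) : ℝ) ≤ ((D a b : ℤ) : ℝ) := by exact_mod_cast hDuv
        calc ((u + v : ℕ) : ℝ) ≤ |((D a b : ℤ) : ℝ)| := h2.trans (le_abs_self _)
          _ ≤ N ^ K := hd
          _ ≤ (6 * N) ^ K := Real.rpow_le_rpow (by linarith) (by linarith) hK
      unfold TN
      simp only [mem_product, mem_sigma, mem_range, mem_Icc, mem_insert, mem_singleton]
      exact ⟨⟨hs, by omega, by omega⟩, ⟨⟨hg1, hg1B⟩, hg2, hg2B⟩,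
        mem_TT.2 ⟨hu, huv, hcop, hdvd, hcR, hheight⟩⟩
    · intro m hm
      simp only at hm
      have h1 : D a b ≤ (m : ℤ) := by
        have : ((D a b : ℤ) : ℝ) ≤ ((m : ℤ) : ℝ) := by
          push_cast
          exact (le_abs_self _).trans hm
        exact_mod_cast this
      have h2 : GG i j g₁ g₂ ≤ m := by exact_mod_cast hDG.trans h1
      have h5 : u + v ≤ m := by exact_mod_cast hDuv.trans h1
      have h6 : g₁ * g₂ ≤ GG i j g₁ g₂ := by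
        unfold GG
        exact Nat.le_mul_of_pos_left _ (by positivity)
      have hg1B : g₁ ≤ m := (Nat.le_mul_of_pos_right _ hg2).trans (h6.trans h2)
      have hg2B : g₂ ≤ m := (Nat.le_mul_of_pos_left _ hg1).trans (h6.trans h2)
      unfold FN
      simp only [mem_product, mem_sigma, mem_range, mem_Icc, mem_insert, mem_singleton]
      exact ⟨⟨hs, by omega, by omega⟩, ⟨⟨hg1, hg1B⟩, hg2, hg2B⟩, ⟨hu, by omega⟩, by omega,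
        by omega⟩
  choose τ hτ using hpar
  exact ⟨τ, hτ⟩

/-- **The sum of a weight over the parameters.** -/
theorem sum_TN (K B C2 : ℝ) (hK : 0 ≤ K) (hB : 1 ≤ B) (hC2 : 1 ≤ C2) :
    ∃ C : ℝ, 1 ≤ C ∧ ∀ (f : ℤ → ℕ × ℕ → ℝ), (∀ D p, 0 ≤ f D p) →
    ∀ (C1 δ c7 X : ℝ), 0 ≤ C1 → 0 ≤ δ → 0 ≤ c7 → 1 ≤ X → ∀ d' : ℤ, d' ≠ 0 →
    MnH f B C1 C2 δ (X ^ (1 - 1 / 1000 : ℝ)) →
    (∀ s : ℤ, (s = 1 ∨ s = -1) → ∀ i j : ℕ, i ≤ 1 → j ≤ 2 →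
      PtH f K X (c7 * X ^ (1 / 240000 : ℝ)) d' s i j) →
    ∑ t ∈ TN X K, ev f d' t ≤
      C * (δ * C1 * B ^ d'.natAbs.primeFactors.card * X ^ ((2 : ℝ) / 3) +
        c7 * X ^ (2 / 3 - 1 / 48000 : ℝ)) := by
  classical
  obtain ⟨C, hC, hall⟩ := agg_all K B C2 hK hB hC2
  refine ⟨12 * C, by linarith, ?_⟩
  intro f hf0 C1 δ c7 X hC1 hδ hc7 hX d' hd' hmain hpt
  have hX0 : 0 < X := by linarith
  unfold TN
  rw [sum_product]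
  have hk2 : ∀ x ∈ ({1, -1} : Finset ℤ) ×ˢ (range 2 ×ˢ range 3),
      ∑ y ∈ ((Icc 1 ⌊X⌋₊) ×ˢ (Icc 1 ⌊X⌋₊)).sigma fun x : ℕ × ℕ => TT X K x.1 x.2,
        ev f d' (x, y) ≤ C * (δ * C1 * B ^ d'.natAbs.primeFactors.card * X ^ ((2 : ℝ) / 3) +
        c7 * X ^ (2 / 3 - 1 / 48000 : ℝ)) := by
    rintro ⟨s, i, j⟩ hx
    rw [mem_product, mem_product, mem_range, mem_range, mem_insert, mem_singleton] at hx
    simp only at hx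
    rw [sum_sigma]
    exact hall f hf0 C1 δ c7 X hC1 hδ hc7 hX d' hd' hmain s hx.1 i j (by omega) (by omega)
      (hpt s hx.1 i j (by omega) (by omega))
  refine (sum_le_card_nsmul _ _ _ hk2).trans ?_
  rw [nsmul_eq_mul]
  have hcard : (({1, -1} : Finset ℤ) ×ˢ (range 2 ×ˢ range 3)).card ≤ 12 := by
    rw [card_product, card_product, card_range, card_range]
    have h2 : ({1, -1} : Finset ℤ).card ≤ 2 := card_le_two
    omega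
  have hcard' : (((({1, -1} : Finset ℤ) ×ˢ (range 2 ×ˢ range 3)).card : ℕ) : ℝ) ≤ 12 := by
    exact_mod_cast hcard
  have hnn : 0 ≤ C * (δ * C1 * B ^ d'.natAbs.primeFactors.card * X ^ ((2 : ℝ) / 3) +
        c7 * X ^ (2 / 3 - 1 / 48000 : ℝ)) := by positivity
  calc _ ≤ 12 * (C * (δ * C1 * B ^ d'.natAbs.primeFactors.card * X ^ ((2 : ℝ) / 3) +
        c7 * X ^ (2 / 3 - 1 / 48000 : ℝ))) := mul_le_mul_of_nonneg_right hcard' hnn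
    _ = _ := by ring

lemma six_rpow {N a : ℝ} (hN : 1 ≤ N) (ha : a ≤ 1) : (6 * N) ^ a ≤ 6 * N ^ a := by
  rw [Real.mul_rpow (by norm_num) (by linarith)]
  refine mul_le_mul_of_nonneg_right ?_ (by positivity)
  calc (6 : ℝ) ^ a ≤ 6 ^ (1 : ℝ) := Real.rpow_le_rpow_of_exponent_le (by norm_num) ha
    _ = 6 := Real.rpow_one _

/-- **The high moments over the parameters.** -/
theorem cur_moment (θ : ℝ) (hθ0 : 0 < θ) (k : ℕ) (hk : 3 * θ < k) (T : Finset (Fin 3 → ℝ))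
    (hT : ∀ t ∈ T, ∀ j, 0 < t j) (hAV : AVGW k T (fun a b => (Sel a b).ncard))
    (K A : ℝ) (hK : 0 ≤ K) (hA : 0 ≤ A) :
    ∃ C : ℝ, 1 ≤ C ∧ ∀ N : ℝ, 1 ≤ N → ∀ d : ℤ, d ≠ 0 → (d.natAbs : ℝ) ≤ N ^ A →
      ∑ t ∈ TN (6 * N) K, ev (fmom θ k T) d t ≤
        C * (2 * 8 ^ k) ^ d.natAbs.primeFactors.card * N ^ ((2 : ℝ) / 3) := by
  obtain ⟨C1, C2, hC1, hC2, hmn⟩ := mn_moment θ hθ0 k hk T hT hAV
  obtain ⟨c7, hc7, hpt⟩ := pt_moment θ hθ0 k hk T hT K A hK hA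
  have hB1 : (1 : ℝ) ≤ 2 * 8 ^ k := by
    have : (1 : ℝ) ≤ 8 ^ k := one_le_pow₀ (by norm_num)
    linarith
  obtain ⟨C, hC, hsum⟩ := sum_TN K (2 * 8 ^ k) C2 hK hB1 hC2
  refine ⟨C * (C1 + c7) * 6, by
    have : 1 ≤ C * (C1 + c7) := by nlinarith
    linarith, ?_⟩
  intro N hN d hd hdN
  have hX1 : 1 ≤ 6 * N := by linarith
  have hX0 : 0 < 6 * N := by linarith
  have h1 := hsum (fmom θ k T) (fun D p => fmom_nonneg hT D p) C1 1 c7 (6 * N) (by linarith)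
    zero_le_one (by linarith) hX1 d hd (hmn _ (Real.one_le_rpow hX1 (by norm_num)))
    (hpt (6 * N) hX1 d hd (hdN.trans (Real.rpow_le_rpow (by linarith) (by linarith) hA)))
  refine h1.trans ?_
  obtain ⟨V, hV⟩ : ∃ V : ℝ, V = (2 * 8 ^ k) ^ d.natAbs.primeFactors.card := ⟨_, rfl⟩
  have hV1 : 1 ≤ V := by rw [hV]; exact one_le_pow₀ hB1
  rw [← hV]
  have h2 : (6 * N) ^ (2 / 3 - 1 / 48000 : ℝ) ≤ (6 * N) ^ ((2 : ℝ) / 3) :=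
    Real.rpow_le_rpow_of_exponent_le hX1 (by norm_num)
  have h3 : (6 * N) ^ ((2 : ℝ) / 3) ≤ 6 * N ^ ((2 : ℝ) / 3) := six_rpow hN (by norm_num)
  have h4 : 0 ≤ (6 * N) ^ ((2 : ℝ) / 3) := by positivity
  calc C * (1 * C1 * V * (6 * N) ^ ((2 : ℝ) / 3) + c7 * (6 * N) ^ (2 / 3 - 1 / 48000 : ℝ))
      ≤ C * (C1 * V * (6 * N) ^ ((2 : ℝ) / 3) + c7 * V * (6 * N) ^ ((2 : ℝ) / 3)) := by
        refine mul_le_mul_of_nonneg_left ?_ (by linarith)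
        rw [one_mul]
        refine add_le_add le_rfl ?_
        calc c7 * (6 * N) ^ (2 / 3 - 1 / 48000 : ℝ) ≤ c7 * (6 * N) ^ ((2 : ℝ) / 3) :=
              mul_le_mul_of_nonneg_left h2 (by linarith)
          _ = c7 * 1 * (6 * N) ^ ((2 : ℝ) / 3) := by ring
          _ ≤ _ := by gcongr
    _ = C * (C1 + c7) * V * (6 * N) ^ ((2 : ℝ) / 3) := by ring
    _ ≤ C * (C1 + c7) * V * (6 * N ^ ((2 : ℝ) / 3)) := by gcongr
    _ = _ := by ring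

/-- **The exceptional parameters.** -/
theorem cur_bad (T : Finset (Fin 3 → ℝ)) (hT1 : ∀ t ∈ T, ∀ j, 0 < t j)
    (hT2 : ∀ t ∈ T, 1 < ∏ j, t j) (K : ℝ) (hK : 0 ≤ K) (ε : ℝ) (hε : 0 < ε) :
    ∃ N0 : ℝ, 1 ≤ N0 ∧ ∀ N : ℝ, N0 ≤ N →
      ∑ t ∈ TN (6 * N) K, ev (fbad T) 1 t ≤ ε * N ^ ((2 : ℝ) / 3) := by
  obtain ⟨C1, C2, hC1, hC2, hmn⟩ := mn_bad
  obtain ⟨C, hC, hsum⟩ := sum_TN K 1 C2 hK le_rfl hC2
  obtain ⟨δ, hδ⟩ : ∃ δ : ℝ, δ = ε / (12 * C * C1) := ⟨_, rfl⟩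
  have hδ0 : 0 < δ := by rw [hδ]; positivity
  obtain ⟨Z0, hZ0, hmnZ⟩ := hmn T hT1 hT2 δ hδ0
  have t1 : Filter.Tendsto (fun N : ℝ => (6 * N) ^ (1 - 1 / 1000 : ℝ)) Filter.atTop
      Filter.atTop := (tendsto_rpow_atTop (by norm_num)).comp
        (Filter.tendsto_id.const_mul_atTop (by norm_num))
  have t2 : Filter.Tendsto (fun N : ℝ => (6 * N) ^ (-(1 / 48000) : ℝ)) Filter.atTop
      (nhds 0) := (tendsto_rpow_neg_atTop (by norm_num)).comp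
        (Filter.tendsto_id.const_mul_atTop (by norm_num))
  have e1 := t1.eventually_ge_atTop Z0
  have e2 := t2.eventually (ge_mem_nhds (show (0 : ℝ) < ε / (12 * C) by positivity))
  obtain ⟨N1, hN1⟩ := (e1.and e2).exists_forall_of_atTop
  refine ⟨max N1 1, le_max_right _ _, ?_⟩
  intro N hN
  have hN' : 1 ≤ N := (le_max_right _ _).trans hN
  obtain ⟨g1, g2⟩ := hN1 N ((le_max_left _ _).trans hN)
  have hX1 : 1 ≤ 6 * N := by linarith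
  have hX0 : 0 < 6 * N := by linarith
  have h1 := hsum (fbad T) (fun D p => fbad_nonneg T D p) C1 δ 1 (6 * N) (by linarith)
    hδ0.le zero_le_one hX1 1 one_ne_zero (hmnZ _ g1)
    (fun s _ i j _ _ => pt_bad T K (6 * N) hX1 1 s i j)
  refine h1.trans ?_
  rw [one_pow, mul_one, one_mul]
  have h3 : (6 * N) ^ ((2 : ℝ) / 3) ≤ 6 * N ^ ((2 : ℝ) / 3) := six_rpow hN' (by norm_num)
  have h4 : 0 ≤ (6 * N) ^ ((2 : ℝ) / 3) := by positivity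
  have h5 : (6 * N) ^ (2 / 3 - 1 / 48000 : ℝ) ≤ ε / (12 * C) * (6 * N) ^ ((2 : ℝ) / 3) := by
    have : (6 * N) ^ (2 / 3 - 1 / 48000 : ℝ) =
        (6 * N) ^ (-(1 / 48000) : ℝ) * (6 * N) ^ ((2 : ℝ) / 3) := by
      rw [← Real.rpow_add hX0]
      congr 1
      ring
    rw [this]
    exact mul_le_mul_of_nonneg_right g2 h4
  calc C * (δ * C1 * (6 * N) ^ ((2 : ℝ) / 3) + (6 * N) ^ (2 / 3 - 1 / 48000 : ℝ))
      ≤ C * (δ * C1 * (6 * N) ^ ((2 : ℝ) / 3) + ε / (12 * C) * (6 * N) ^ ((2 : ℝ) / 3)) := by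
        refine mul_le_mul_of_nonneg_left ?_ (by linarith)
        linarith
    _ = ε / 6 * (6 * N) ^ ((2 : ℝ) / 3) := by
        rw [hδ]
        have : C1 ≠ 0 := by linarith
        have : C ≠ 0 := by linarith
        field_simp
        ring
    _ ≤ ε / 6 * (6 * N ^ ((2 : ℝ) / 3)) := by gcongr
    _ = _ := by ring

end Pool.Agent.TH498.CO
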