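import Pool.Agent.H925R.Szpiro.Twist
import Pool.Agent.TH342.ShortSqSha

set_option autoImplicit false

/-!
# Minimal models with full rational 2-torsion: parameters, rank and Tate-Shafarevich group
-/

namespace Pool.Agent.TH498.CO

open Finset Pool.Agent.H925R.Szpiro Pool.Agent.W307.SE Pool.Agent.H328R2.ABC

/-- the twisting factor -/
def GG (i j g₁ g₂ : ℕ) : ℕ := 2 ^ i * 3 ^ j * (g₁ * g₂)

lemma sq_cases {x y : ℤ} (h : x ^ 2 = y ^ 2) : ∃ s : ℤ, (s = 1 ∨ s = -1) ∧ x = -(s * y) := by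
  rcases sq_eq_sq_iff_eq_or_eq_neg.1 h with h | h
  · exact ⟨-1, Or.inr rfl, by rw [h]; ring⟩
  · exact ⟨1, Or.inl rfl, by rw [h]; ring⟩

/-- **The parameters of a minimal model.** -/
theorem data (a b : ℤ) (hmin : IsMin a b) (hf : FullS a b) :
    ∃ (s : ℤ) (i j g₁ g₂ u v : ℕ), (s = 1 ∨ s = -1) ∧ i ≤ 1 ∧ j ≤ 2 ∧ 0 < g₁ ∧ 0 < g₂ ∧ 0 < u ∧
      u ≤ v ∧ Nat.Coprime u v ∧ g₁ ∣ u * v * (u + v) ∧
      rad (u * v * (u + v)) * (g₁ * g₂) * g₂ ≤ 6 * condS a b ∧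
      3 * a = ((GG i j g₁ g₂ : ℕ) : ℤ) ^ 2 * (u ^ 2 + u * v + v ^ 2) ∧
      27 * b = -(s * (((GG i j g₁ g₂ : ℕ) : ℤ) ^ 3 * ((2 * u + v) * (u - v) * (u + 2 * v)))) ∧
      D a b = ((GG i j g₁ g₂ : ℕ) : ℤ) ^ 6 * (u * v * (u + v)) ^ 2 ∧
      Pool.Agent.TH841.SH.Bd (Pool.Agent.W307.RT.Sh (-a) (-b))
        ((Sel (s * ((GG i j g₁ g₂ : ℕ) : ℤ) * (-(u : ℤ))) (s * ((GG i j g₁ g₂ : ℕ) : ℤ) * v)).ncard :
          ℝ) := by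
  obtain ⟨i, j, g₁, g₂, u', v', hi, hj, hg1, hg2, hu', hv', hcop', hdvd', h3a', hD', hcond'⟩ :=
    twist_pair a b hmin hf
  obtain ⟨u, v, hu, hv, huv, hcop, hdvd, h3a, hD, hcond⟩ : ∃ u v : ℕ, 0 < u ∧ 0 < v ∧ u ≤ v ∧
      Nat.Coprime u v ∧ g₁ ∣ u * v * (u + v) ∧
      3 * a = ((2 ^ i * 3 ^ j * (g₁ * g₂) : ℕ) : ℤ) ^ 2 * (u ^ 2 + u * v + v ^ 2) ∧
      D a b = ((2 ^ i * 3 ^ j * (g₁ * g₂) : ℕ) : ℤ) ^ 6 * (u * v * (u + v)) ^ 2 ∧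
      rad (u * v * (u + v)) * (g₁ * g₂) * g₂ ≤ 6 * condS a b := by
    have e0 : v' * u' * (v' + u') = u' * v' * (u' + v') := by ring
    rcases le_total u' v' with h | h
    · exact ⟨u', v', hu', hv', h, hcop', hdvd', h3a', hD', hcond'⟩
    · refine ⟨v', u', hv', hu', h, hcop'.symm, by rw [e0]; exact hdvd', ?_, ?_,
        by rw [e0]; exact hcond'⟩
      · rw [h3a']; ring
      · rw [hD']; ring
  have hGG : (2 ^ i * 3 ^ j * (g₁ * g₂) : ℕ) = GG i j g₁ g₂ := rfl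
  rw [hGG] at h3a hD
  obtain ⟨g, hg⟩ : ∃ g : ℕ, g = GG i j g₁ g₂ := ⟨_, rfl⟩
  have hg0 : 0 < g := by
    rw [hg]
    exact Nat.mul_pos (Nat.mul_pos (by positivity) (by positivity)) (Nat.mul_pos hg1 hg2)
  rw [← hg] at h3a hD
  have hsq : (27 * b) ^ 2 = ((g : ℤ) ^ 3 * ((2 * u + v) * (u - v) * (u + 2 * v))) ^ 2 := by
    have h1 : 27 * b ^ 2 = 4 * a ^ 3 - (g : ℤ) ^ 6 * (u * v * (u + v)) ^ 2 := by
      have : D a b = 4 * a ^ 3 - 27 * b ^ 2 := rfl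
      rw [← hD, this]
      ring
    have h2 : 27 * (4 * a ^ 3) = 4 * ((g : ℤ) ^ 2 * (u ^ 2 + u * v + v ^ 2)) ^ 3 := by
      rw [← h3a]
      ring
    calc (27 * b) ^ 2 = 27 * (27 * b ^ 2) := by ring
      _ = 27 * (4 * a ^ 3) - 27 * ((g : ℤ) ^ 6 * (u * v * (u + v)) ^ 2) := by rw [h1]; ring
      _ = _ := by rw [h2]; ring
  obtain ⟨s, hs, hb⟩ := sq_cases hsq
  refine ⟨s, i, j, g₁, g₂, u, v, hs, hi, hj, hg1, hg2, hu, huv, hcop, hdvd, hcond, ?_⟩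
  rw [← hg]
  refine ⟨h3a, hb, hD, ?_⟩
  have hs2 : s ^ 2 = 1 := by rcases hs with h | h <;> rw [h] <;> norm_num
  have hsq' : (s : ℚ) ^ 2 = 1 := by exact_mod_cast hs2
  have hs3 : (s : ℚ) ^ 3 = s := by rw [pow_succ, hsq', one_mul]
  have h3q : (a : ℚ) = (g : ℚ) ^ 2 * ((u : ℚ) ^ 2 + u * v + v ^ 2) / 3 := by
    have : (3 : ℚ) * a = (g : ℚ) ^ 2 * ((u : ℚ) ^ 2 + u * v + v ^ 2) := by exact_mod_cast h3a
    linarith
  have hbq : (b : ℚ) = -(s * ((g : ℚ) ^ 3 * ((2 * u + v) * ((u : ℚ) - v) * (u + 2 * v)))) / 27 := by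
    have : (27 : ℚ) * b = -(s * ((g : ℚ) ^ 3 * ((2 * u + v) * ((u : ℚ) - v) * (u + 2 * v)))) := by
      have := congrArg (fun z : ℤ => (z : ℚ)) hb
      push_cast at this
      linarith
    linarith
  -- the roots
  obtain ⟨e1, he1⟩ : ∃ z : ℤ, (z : ℚ) = -(s * g * (2 * u + v)) / 3 := by
    refine int_root 0 (-a) (-b) _ ?_
    push_cast
    rw [h3q, hbq]
    linear_combination (-(g : ℚ) ^ 3 * (2 * u + v) ^ 3 / 27) * hs3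
  obtain ⟨e2, he2⟩ : ∃ z : ℤ, (z : ℚ) = (s * g * ((u : ℚ) - v)) / 3 := by
    refine int_root 0 (-a) (-b) _ ?_
    push_cast
    rw [h3q, hbq]
    linear_combination ((g : ℚ) ^ 3 * ((u : ℚ) - v) ^ 3 / 27) * hs3
  obtain ⟨e3, he3⟩ : ∃ z : ℤ, (z : ℚ) = (s * g * ((u : ℚ) + 2 * v)) / 3 := by
    refine int_root 0 (-a) (-b) _ ?_
    push_cast
    rw [h3q, hbq]
    linear_combination ((g : ℚ) ^ 3 * ((u : ℚ) + 2 * v) ^ 3 / 27) * hs3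
  have hpoly : ∀ x : ℤ, x ^ 3 + (-a) * x + (-b) = (x - e2) * (x - e1) * (x - e3) := by
    intro x
    have : ((x ^ 3 + (-a) * x + (-b) : ℤ) : ℚ) = (((x - e2) * (x - e1) * (x - e3) : ℤ) : ℚ) := by
      push_cast
      rw [he1, he2, he3, h3q, hbq]
      linear_combination ((x : ℚ) * ((g : ℚ) ^ 2 * ((u : ℚ) ^ 2 + u * v + v ^ 2) / 3)) * hsq' +
        (-((g : ℚ) ^ 3 * ((2 * u + v) * ((u : ℚ) - v) * (u + 2 * v))) / 27) * hs3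
    exact_mod_cast this
  have h12 : ((e1 - e2 : ℤ) : ℚ) = ((s * (g : ℤ) * (-(u : ℤ)) : ℤ) : ℚ) * (1 : ℚ) ^ 2 := by
    push_cast
    rw [he1, he2]
    ring
  have h32 : ((e3 - e2 : ℤ) : ℚ) = ((s * (g : ℤ) * v : ℤ) : ℚ) * (1 : ℚ) ^ 2 := by
    push_cast
    rw [he3, he2]
    ring
  have hdisc : 4 * (-a) ^ 3 + 27 * (-b) ^ 2 ≠ 0 := by
    have e : 4 * (-a) ^ 3 + 27 * (-b) ^ 2 = -(D a b) := by unfold D; ring
    rw [e, neg_ne_zero]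
    exact hmin.1
  have hs0 : s ≠ 0 := by rcases hs with h | h <;> rw [h] <;> norm_num
  have hg0' : (g : ℤ) ≠ 0 := by exact_mod_cast hg0.ne'
  have hu0 : (u : ℤ) ≠ 0 := by exact_mod_cast hu.ne'
  have hv0 : (v : ℤ) ≠ 0 := by exact_mod_cast hv.ne'
  have hA : s * (g : ℤ) * (-(u : ℤ)) ≠ 0 := mul_ne_zero (mul_ne_zero hs0 hg0') (neg_ne_zero.2 hu0)
  have hB : s * (g : ℤ) * (v : ℤ) ≠ 0 := mul_ne_zero (mul_ne_zero hs0 hg0') hv0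
  have hAB : s * (g : ℤ) * (-(u : ℤ)) ≠ s * (g : ℤ) * (v : ℤ) := by
    intro h
    have := mul_left_cancel₀ (mul_ne_zero hs0 hg0') h
    have h1 : (0 : ℤ) < u := by exact_mod_cast hu
    have h2 : (0 : ℤ) < v := by exact_mod_cast hv
    linarith
  have hfin := Pool.Agent.TH342.SQ.rank_le hA hB hAB
  obtain ⟨f1, f2⟩ := Pool.Agent.W410.FK.selc _ _ _ _ _ _ _ 1 hdisc hpoly one_ne_zero h12 h32 hfin.1
  obtain ⟨g1, g2⟩ := Pool.Agent.TH841.SH.bd_selR hdisc hpoly f1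
  exact ⟨g1, g2.trans (by exact_mod_cast f2)⟩

end Pool.Agent.TH498.CO
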