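import Pool.Agent.TH498.CO.Cur

set_option autoImplicit false

/-!
# The exceptional set of density zero, off which all the moments are bounded
-/

namespace Pool.Agent.TH498.CO

open Finset Pool.Agent.W307.SE Pool.Agent.TH498.AR Pool.Agent.H328R2.ABC
  Pool.Agent.H925R.Szpiro Pool.Agent.TH841.SH Pool.Agent.TH344.DT

lemma fmom_eq {θ : ℝ} {k : ℕ} (hk : k ≠ 0) {T : Finset (Fin 3 → ℝ)} {D : ℤ} {p : ℕ × ℕ}
    (h : rho T (om3 p) = 1) : fmom θ k T D p = sel D p ^ θ := by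
  unfold fmom
  have hk0 : (0 : ℝ) < k := by exact_mod_cast Nat.pos_of_ne_zero hk
  rw [h, mul_one, ← Real.rpow_natCast, ← Real.rpow_mul (sel_nonneg D p)]
  congr 1
  field_simp

lemma rho_empty (n : Fin 3 → ℕ) : rho (∅ : Finset (Fin 3 → ℝ)) n = 1 := by
  unfold rho
  apply le_antisymm
  · refine (inf'_le _ (mem_insert_self _ _)).trans ?_
    simp
  · rw [le_inf'_iff]
    intro t ht
    rcases mem_insert.1 ht with h | h
    · rw [h]; simp
    · exact absurd h (notMem_empty _)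

/-- the family -/
def Fam (N K : ℝ) (q : ℤ × ℤ) : Prop :=
  IsMin q.1 q.2 ∧ FullS q.1 q.2 ∧ (condS q.1 q.2 : ℝ) ≤ N ∧ |((D q.1 q.2 : ℤ) : ℝ)| ≤ N ^ K

/-- **The exceptional set.** -/
theorem exc : ∃ (n : ℤ → ℤ × ℤ → ℝ) (Ex : Set (ℤ × ℤ)),
    (∀ q : ℤ × ℤ, IsMin q.1 q.2 → FullS q.1 q.2 →
      (∀ d : ℤ, d ≠ 0 →
        Bd (Pool.Agent.W307.RT.Sh (d ^ 2 * (-q.1)) (d ^ 3 * (-q.2))) (n d q)) ∧
      ∃ e1 e2 e3 : ℤ, ∀ x : ℤ,
        x ^ 3 + (-q.1) * x + (-q.2) = (x - e1) * (x - e2) * (x - e3)) ∧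
    (∀ K : ℝ, 0 ≤ K → ∀ ε : ℝ, 0 < ε → ∃ N0 : ℝ, 1 ≤ N0 ∧ ∀ N : ℝ, N0 ≤ N →
      ∀ S : Finset (ℤ × ℤ), (∀ q ∈ S, Fam N K q) → (∀ q ∈ S, q ∈ Ex) →
      (S.card : ℝ) ≤ ε * N ^ ((2 : ℝ) / 3)) ∧
    (∀ θ : ℝ, 0 < θ → ∀ K A : ℝ, 0 ≤ K → 0 ≤ A → ∃ C : ℝ, 1 ≤ C ∧ ∀ N : ℝ, 1 ≤ N →
      ∀ S : Finset (ℤ × ℤ), (∀ q ∈ S, Fam N K q) → (∀ q ∈ S, q ∉ Ex) →
      ∀ d : ℤ, d ≠ 0 → (d.natAbs : ℝ) ≤ N ^ A →
      ∑ q ∈ S, n d q ^ θ ≤
        C * (16 * 512 ^ θ) ^ d.natAbs.primeFactors.card * N ^ ((2 : ℝ) / 3)) := by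
  classical
  obtain ⟨τ, hτ⟩ := params
  have hinj : ∀ q q' : ℤ × ℤ, IsMin q.1 q.2 → FullS q.1 q.2 → IsMin q'.1 q'.2 →
      FullS q'.1 q'.2 → τ q = τ q' → q = q' := by
    intro q q' h1 h2 h1' h2' h
    obtain ⟨-, -, -, -, g1, g2⟩ := hτ q h1 h2
    obtain ⟨-, -, -, -, g1', g2'⟩ := hτ q' h1' h2'
    rw [h] at g1 g2
    have e1 : q.1 = q'.1 := by linarith
    have e2 : q.2 = q'.2 := by linarith
    exact Prod.ext e1 e2
  have hav := fun k : ℕ => avgw (k + 1) (by omega)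
  choose T hT1 hT2 hAV using hav
  -- the exceptional curves of each moment
  set Z : ℕ → Set (ℤ × ℤ) := fun k => {q | rho (T k) (om3 (τ q).2.2) < 1} with hZ
  have hcount : ∀ (k : ℕ) (N K : ℝ), 1 ≤ N → 0 ≤ K → ∀ S : Finset (ℤ × ℤ),
      (∀ q ∈ S, Fam N K q) → (∀ q ∈ S, q ∈ Z k) →
      (S.card : ℝ) ≤ ∑ t ∈ TN (6 * N) K, ev (fbad (T k)) 1 t := by
    intro k N K hN hK S hS hSZ
    have hI : Set.InjOn τ (S : Set (ℤ × ℤ)) := by
      intro q hq q' hq' h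
      obtain ⟨h1, h2, -, -⟩ := hS q hq
      obtain ⟨h1', h2', -, -⟩ := hS q' hq'
      exact hinj q q' h1 h2 h1' h2' h
    have h1 : (S.card : ℝ) = ∑ q ∈ S, ev (fbad (T k)) 1 (τ q) := by
      rw [card_eq_sum_ones, Nat.cast_sum]
      refine sum_congr rfl fun q hq => ?_
      have h2 : rho (T k) (om3 (τ q).2.2) < 1 := hSZ q hq
      unfold ev fbad
      rw [if_pos h2, Nat.cast_one]
    rw [h1, ← sum_image (f := fun t => ev (fbad (T k)) 1 t) hI]
    refine sum_le_sum_of_subset_of_nonneg ?_ fun t _ _ => fbad_nonneg _ _ _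
    intro t ht
    obtain ⟨q, hq, rfl⟩ := mem_image.1 ht
    obtain ⟨h1, h2, h3, h4⟩ := hS q hq
    exact (hτ q h1 h2).1 N K hN hK h3 h4
  have hbad := fun k : ℕ => cur_bad (T k) (hT1 k) (hT2 k) (k : ℝ) (Nat.cast_nonneg k)
    ((1 / 2) ^ k * (1 / 2) ^ k) (by positivity)
  choose M hM1 hM using hbad
  set Ex : Set (ℤ × ℤ) := {q | ∃ k : ℕ, q ∈ Z k ∧ M k ^ (k : ℝ) < |((D q.1 q.2 : ℤ) : ℝ)|}
    with hEx
  refine ⟨fun d q => ev sel d (τ q), Ex, fun q h1 h2 => ?_, ?_, ?_⟩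
  · obtain ⟨-, -, g1, g2, -, -⟩ := hτ q h1 h2
    exact ⟨g1, g2⟩
  · intro K hK ε hε
    obtain ⟨k2, hk2⟩ := exists_nat_ge K
    obtain ⟨k3, hk3⟩ := exists_pow_lt_of_lt_one (show (0 : ℝ) < ε / 4 by positivity)
      (show (1 / 2 : ℝ) < 1 by norm_num)
    obtain ⟨k1, hk1⟩ : ∃ k1 : ℕ, k1 = max k2 k3 := ⟨_, rfl⟩
    have hKk1 : K ≤ k1 := hk2.trans (by rw [hk1]; exact_mod_cast le_max_left _ _)
    have hk1e : (1 / 2 : ℝ) ^ k1 ≤ ε / 4 := by
      refine le_trans (pow_le_pow_of_le_one (by norm_num) (by norm_num) ?_) hk3.le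
      rw [hk1]
      exact le_max_right _ _
    have hb := fun k : ℕ => cur_bad (T k) (hT1 k) (hT2 k) K hK (ε / 4 * (1 / 2) ^ k)
      (by positivity)
    choose N1 hN1 hN2 using hb
    refine ⟨1 + ∑ k ∈ range k1, N1 k, by
      have : 0 ≤ ∑ k ∈ range k1, N1 k := sum_nonneg fun k _ => zero_le_one.trans (hN1 k)
      linarith, ?_⟩
    intro N hN S hS hSE
    have hs0 : 0 ≤ ∑ k ∈ range k1, N1 k := sum_nonneg fun k _ => zero_le_one.trans (hN1 k)
    have hN' : 1 ≤ N := by linarith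
    have hNk : ∀ k < k1, N1 k ≤ N := by
      intro k hk
      have : N1 k ≤ ∑ k ∈ range k1, N1 k :=
        single_le_sum (f := N1) (fun k _ => zero_le_one.trans (hN1 k)) (mem_range.2 hk)
      linarith
    have hκ : ∀ q : ℤ × ℤ, ∃ k : ℕ, q ∈ S → (q ∈ Z k ∧
        M k ^ (k : ℝ) < |((D q.1 q.2 : ℤ) : ℝ)|) := by
      intro q
      by_cases hq : q ∈ S
      · obtain ⟨k, hk⟩ := hSE q hq
        exact ⟨k, fun _ => hk⟩
      · exact ⟨0, fun h => absurd h hq⟩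
    choose κ hκ using hκ
    have hcov : ∀ q ∈ S, κ q ∈ range (S.sup κ + 1) := by
      intro q hq
      rw [mem_range, Nat.lt_succ_iff]
      exact le_sup (f := κ) hq
    have hcard := card_eq_sum_card_fiberwise hcov
    have hfib : ∀ k ∈ range (S.sup κ + 1), ((S.filter fun q => κ q = k).card : ℝ) ≤
        (ε / 4 * N ^ ((2 : ℝ) / 3)) * (1 / 2) ^ k := by
      intro k _
      have hN23 : 0 ≤ N ^ ((2 : ℝ) / 3) := by positivity
      rcases (S.filter fun q => κ q = k).eq_empty_or_nonempty with he | ⟨q0, hq0⟩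
      · rw [he, card_empty, Nat.cast_zero]
        positivity
      have hSZ : ∀ q ∈ S.filter (fun q => κ q = k), q ∈ Z k := by
        intro q hq
        obtain ⟨h1, h2⟩ := mem_filter.1 hq
        rw [← h2]
        exact (hκ q h1).1
      rcases lt_or_ge k k1 with hk | hk
      · have h1 := hcount k N K hN' hK _ (fun q hq => hS q (mem_filter.1 hq).1) hSZ
        refine (h1.trans (hN2 k N (hNk k hk))).trans (le_of_eq ?_)
        ring
      · have hKk : K ≤ k := hKk1.trans (by exact_mod_cast hk)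
        have hNKk : N ^ K ≤ N ^ (k : ℝ) := Real.rpow_le_rpow_of_exponent_le hN' hKk
        have hMN : M k ≤ N := by
          obtain ⟨h1, h2⟩ := mem_filter.1 hq0
          have h3 := (hκ q0 h1).2
          rw [h2] at h3
          obtain ⟨-, -, -, h4⟩ := hS q0 h1
          by_contra hlt
          push Not at hlt
          have h5 : N ^ (k : ℝ) ≤ M k ^ (k : ℝ) :=
            Real.rpow_le_rpow (by linarith) hlt.le (Nat.cast_nonneg k)
          linarith
        have h1 := hcount k N k hN' (Nat.cast_nonneg k) _ (fun q hq => by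
          obtain ⟨a1, a2, a3, a4⟩ := hS q (mem_filter.1 hq).1
          exact ⟨a1, a2, a3, a4.trans hNKk⟩) hSZ
        refine (h1.trans (hM k N hMN)).trans ?_
        have h2 : (1 / 2 : ℝ) ^ k ≤ ε / 4 :=
          (pow_le_pow_of_le_one (by norm_num) (by norm_num) hk).trans hk1e
        calc (1 / 2 : ℝ) ^ k * (1 / 2) ^ k * N ^ ((2 : ℝ) / 3)
            ≤ ε / 4 * (1 / 2) ^ k * N ^ ((2 : ℝ) / 3) := by gcongr
          _ = _ := by ring
    have hgeo : ∑ k ∈ range (S.sup κ + 1), (1 / 2 : ℝ) ^ k ≤ 2 := by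
      have := sum_geometric_two_le (S.sup κ + 1)
      exact this
    have hN23 : 0 ≤ N ^ ((2 : ℝ) / 3) := by positivity
    calc (S.card : ℝ) = ∑ k ∈ range (S.sup κ + 1), ((S.filter fun q => κ q = k).card : ℝ) := by
          rw [hcard]
          push_cast
          rfl
      _ ≤ ∑ k ∈ range (S.sup κ + 1), (ε / 4 * N ^ ((2 : ℝ) / 3)) * (1 / 2) ^ k :=
          sum_le_sum hfib
      _ = (ε / 4 * N ^ ((2 : ℝ) / 3)) * ∑ k ∈ range (S.sup κ + 1), (1 / 2 : ℝ) ^ k := by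
          rw [← mul_sum]
      _ ≤ (ε / 4 * N ^ ((2 : ℝ) / 3)) * 2 := by gcongr
      _ ≤ ε * N ^ ((2 : ℝ) / 3) := by nlinarith
  · intro θ hθ0 K A hK hA
    obtain ⟨k, hk⟩ : ∃ k : ℕ, k = ⌊3 * θ⌋₊ := ⟨_, rfl⟩
    have hk1 : 3 * θ < ((k + 1 : ℕ) : ℝ) := by
      rw [hk]
      push_cast
      exact Nat.lt_floor_add_one _
    have hk2 : (k : ℝ) ≤ 3 * θ := by rw [hk]; exact Nat.floor_le (by positivity)
    obtain ⟨C, hC, hmom⟩ := cur_moment θ hθ0 (k + 1) hk1 (T k) (hT1 k) (hAV k) K A hK hA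
    obtain ⟨c7, hc7, hpt⟩ := pt_moment θ hθ0 (k + 1) hk1 ∅
      (fun t ht => absurd ht (notMem_empty t)) K A hK hA
    obtain ⟨m, hm⟩ := exists_nat_ge (M k ^ (k : ℝ))
    refine ⟨C + (FN m).card * (c7 * 6), by
      have : 0 ≤ ((FN m).card : ℝ) * (c7 * 6) := by positivity
      linarith, ?_⟩
    intro N hN S hS hSE d hd hdN
    have hX1 : 1 ≤ 6 * N := by linarith
    have hN23 : 0 ≤ N ^ ((2 : ℝ) / 3) := by positivity
    obtain ⟨V, hV⟩ : ∃ V : ℝ, V = (16 * 512 ^ θ) ^ d.natAbs.primeFactors.card := ⟨_, rfl⟩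
    have h512 : (1 : ℝ) ≤ 512 ^ θ := Real.one_le_rpow (by norm_num) hθ0.le
    have hV1 : 1 ≤ V := by rw [hV]; exact one_le_pow₀ (by linarith)
    rw [← hV]
    have hB : ((2 : ℝ) * 8 ^ (k + 1)) ^ d.natAbs.primeFactors.card ≤ V := by
      rw [hV]
      refine pow_le_pow_left₀ (by positivity) ?_ _
      have h1 : (8 : ℝ) ^ k ≤ 512 ^ θ := by
        calc (8 : ℝ) ^ k = 8 ^ (k : ℝ) := (Real.rpow_natCast 8 k).symm
          _ ≤ 8 ^ (3 * θ) := Real.rpow_le_rpow_of_exponent_le (by norm_num) hk2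
          _ = 512 ^ θ := by
              rw [Real.rpow_mul (by norm_num)]
              norm_num
      rw [pow_succ]
      linarith
    have hmemT : ∀ q ∈ S, τ q ∈ TN (6 * N) K := by
      intro q hq
      obtain ⟨h1, h2, h3, h4⟩ := hS q hq
      exact (hτ q h1 h2).1 N K hN hK h3 h4
    have hI : Set.InjOn τ (S : Set (ℤ × ℤ)) := by
      intro q hq q' hq' h
      obtain ⟨h1, h2, -, -⟩ := hS q hq
      obtain ⟨h1', h2', -, -⟩ := hS q' hq'
      exact hinj q q' h1 h2 h1' h2' h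
    rw [← sum_filter_add_sum_filter_not S (fun q => q ∉ Z k)]
    have hgood : ∑ q ∈ S.filter (fun q => q ∉ Z k), ev sel d (τ q) ^ θ ≤
        C * V * N ^ ((2 : ℝ) / 3) := by
      have h1 : ∑ q ∈ S.filter (fun q => q ∉ Z k), ev sel d (τ q) ^ θ =
          ∑ q ∈ S.filter (fun q => q ∉ Z k), ev (fmom θ (k + 1) (T k)) d (τ q) := by
        refine sum_congr rfl fun q hq => ?_
        have h2 : ¬ rho (T k) (om3 (τ q).2.2) < 1 := (mem_filter.1 hq).2
        have h3 : rho (T k) (om3 (τ q).2.2) = 1 :=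
          le_antisymm (rho_le_one _ _) (not_lt.1 h2)
        unfold ev
        rw [fmom_eq (by omega) h3]
      have hI' : Set.InjOn τ ((S.filter fun q => q ∉ Z k : Finset (ℤ × ℤ)) : Set (ℤ × ℤ)) :=
        hI.mono (by
          intro q hq
          exact (mem_filter.1 (mem_coe.1 hq)).1)
      rw [h1, ← sum_image (f := fun t => ev (fmom θ (k + 1) (T k)) d t) hI']
      refine le_trans (sum_le_sum_of_subset_of_nonneg (t := TN (6 * N) K) ?_
        fun t _ _ => fmom_nonneg (hT1 k) _ _) ?_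
      · intro t ht
        obtain ⟨q, hq, rfl⟩ := mem_image.1 ht
        exact hmemT q (mem_filter.1 hq).1
      · refine (hmom N hN d hd hdN).trans ?_
        gcongr
    have hrest : ∑ q ∈ S.filter (fun q => ¬ q ∉ Z k), ev sel d (τ q) ^ θ ≤
        (FN m).card * (c7 * 6) * V * N ^ ((2 : ℝ) / 3) := by
      have h1 : ∀ q ∈ S.filter (fun q => ¬ q ∉ Z k), ev sel d (τ q) ^ θ ≤
          c7 * (6 * N) ^ (1 / 240000 : ℝ) := by
        intro q hq
        have hT := hmemT q (mem_filter.1 hq).1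
        unfold TN at hT
        simp only [mem_product, mem_sigma, mem_range, mem_Icc, mem_insert, mem_singleton] at hT
        obtain ⟨⟨hs, hi, hj⟩, ⟨⟨hg1, -⟩, hg2, -⟩, hp⟩ := hT
        have h2 := hpt (6 * N) hX1 d hd
          (hdN.trans (Real.rpow_le_rpow (by linarith) (by linarith) hA))
          (τ q).1.1 hs (τ q).1.2.1 (τ q).1.2.2 (by omega) (by omega) (τ q).2.1.1 (τ q).2.1.2
          hg1 hg2 (τ q).2.2 hp
        rw [fmom_eq (by omega) (rho_empty _)] at h2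
        exact h2
      have hc : (S.filter (fun q => ¬ q ∉ Z k)).card ≤ (FN m).card := by
        refine card_le_card_of_injOn τ ?_ (hI.mono (by
          intro q hq
          exact (mem_filter.1 (mem_coe.1 hq)).1))
        intro q hq
        obtain ⟨hqS, hqZ⟩ := mem_filter.1 (mem_coe.1 hq)
        rw [not_not] at hqZ
        obtain ⟨h1, h2, h3, h4⟩ := hS q hqS
        refine mem_coe.2 ((hτ q h1 h2).2.1 m (le_trans ?_ hm))
        by_contra hlt
        push Not at hlt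
        exact hSE q hqS ⟨k, hqZ, hlt⟩
      refine (sum_le_card_nsmul _ _ _ h1).trans ?_
      rw [nsmul_eq_mul]
      have hc' : ((S.filter (fun q => ¬ q ∉ Z k)).card : ℝ) ≤ (FN m).card := by
        exact_mod_cast hc
      have h6 : (6 * N) ^ (1 / 240000 : ℝ) ≤ 6 * N ^ ((2 : ℝ) / 3) := by
        refine (six_rpow hN (by norm_num)).trans ?_
        exact mul_le_mul_of_nonneg_left
          (Real.rpow_le_rpow_of_exponent_le hN (by norm_num)) (by norm_num)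
      calc ((S.filter (fun q => ¬ q ∉ Z k)).card : ℝ) * (c7 * (6 * N) ^ (1 / 240000 : ℝ))
          ≤ (FN m).card * (c7 * (6 * N ^ ((2 : ℝ) / 3))) := by gcongr
        _ = (FN m).card * (c7 * 6) * 1 * N ^ ((2 : ℝ) / 3) := by ring
        _ ≤ _ := by gcongr
    refine (add_le_add hgood hrest).trans (le_of_eq ?_)
    ring

end Pool.Agent.TH498.CO
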