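import Pool.Agent.TH498.CO.Tot
import Pool.Agent.TH867.EC.TwistLow

set_option autoImplicit false

/-!
# The curves with full rational 2-torsion ordered by the conductor
-/

namespace Pool.Agent.TH498.CO

open Finset Pool.Agent.W307.SE Pool.Agent.TH498.AR Pool.Agent.H328R2.ABC
  Pool.Agent.H925R.Szpiro Pool.Agent.TH841.SH

/-- `Bd` gives at least `1` -/
lemma one_le_of_bd {W : WeierstrassCurve ℚ} {n : ℝ} (h : Bd W n) : 1 ≤ n := by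
  have hd : D.HasDiv W 0 := ⟨0, fun _ _ _ => Subsingleton.elim _ _⟩
  have h1 := h.div_le (Nat.zero_le _) hd
  simpa using h1

/-- from a sum over a family to the theorem -/
lemma family_real {ι : Type} (S : Finset ι) (W : ι → WeierstrassCurve ℚ) (n : ι → ℝ) (M θ : ℝ)
    (hθ : 0 < θ) (hW : ∀ i ∈ S, Bd (W i) (n i)) (hS : ∑ i ∈ S, n i ^ θ ≤ M) :
    (∀ i ∈ S, ∀ k : ℕ, Finite (D.ShaTor (W i) (2 ^ k))) ∧
    (∀ k : ℕ, 1 ≤ k → ∑ i ∈ S, wt (W i) k ^ θ ≤ M) ∧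
    ∀ r δ : ℕ, ∀ T ⊆ S, (∀ i ∈ T, r ≤ D.rk (W i) ∧ D.HasDiv (W i) δ) →
      (T.card : ℝ) ≤ M / 2 ^ (θ * ((r : ℝ) + δ)) := by
  refine ⟨fun i hi k => (hW i hi).fin k, fun k hk => ?_, fun r δ T hT hTr => ?_⟩
  · refine le_trans (Finset.sum_le_sum fun i hi => ?_) hS
    exact Real.rpow_le_rpow (wt_nonneg _ _) ((hW i hi).wt_le hk) hθ.le
  · have hp : (0 : ℝ) < 2 ^ (θ * ((r : ℝ) + δ)) := by positivity
    rw [le_div_iff₀ hp]
    refine le_trans ?_ hS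
    refine le_trans ?_ (Finset.sum_le_sum_of_subset_of_nonneg hT
      (fun i hi _ => Real.rpow_nonneg (le_trans zero_le_one (one_le_of_bd (hW i hi))) θ))
    rw [← nsmul_eq_mul]
    refine Finset.card_nsmul_le_sum _ _ _ fun i hi => ?_
    obtain ⟨hr, hd⟩ := hTr i hi
    have h1 := (hW i (hT hi)).div_le hr hd
    calc (2 : ℝ) ^ (θ * ((r : ℝ) + δ)) = ((2 : ℝ) ^ (r + δ)) ^ θ := by
          rw [← Real.rpow_natCast, ← Real.rpow_mul (by norm_num)]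
          congr 1
          push_cast
          ring
      _ ≤ _ := Real.rpow_le_rpow (by positivity) h1 hθ.le

/-- the type of the parameters -/
abbrev Par : Type := (ℤ × (ℕ × ℕ)) × (Sigma fun _ : ℕ × ℕ => ℕ × ℕ)

/-- the weight of the parameters -/
noncomputable def wpar (t : Par) : ℝ :=
  sel (t.1.1 * ((GG t.1.2.1 t.1.2.2 t.2.1.1 t.2.1.2 : ℕ) : ℤ)) t.2.2

/-- **The sum over the curves.** -/
theorem curves_sum (θ : ℝ) (hθ0 : 0 < θ) (hθ : θ < 2 / 3) (K : ℝ) (hK : 0 ≤ K) :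
    ∃ C : ℝ, 1 ≤ C ∧ ∀ N : ℝ, 1 ≤ N → ∀ S : Finset (ℤ × ℤ),
    (∀ q ∈ S, IsMin q.1 q.2 ∧ FullS q.1 q.2 ∧ (condS q.1 q.2 : ℝ) ≤ N ∧
      |((D q.1 q.2 : ℤ) : ℝ)| ≤ N ^ K) →
    ∃ n : ℤ × ℤ → ℝ, (∀ q ∈ S, Bd (Pool.Agent.W307.RT.Sh (-q.1) (-q.2)) (n q)) ∧
      ∑ q ∈ S, n q ^ θ ≤ C * N ^ ((2 : ℝ) / 3) := by
  classical
  obtain ⟨C, hC, hall⟩ := all_twists θ hθ0 hθ K hK
  refine ⟨12 * C * 6, by linarith, ?_⟩
  intro N hN S hS
  obtain ⟨X, hX⟩ : ∃ X : ℝ, X = 6 * N := ⟨_, rfl⟩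
  have hX1 : 1 ≤ X := by rw [hX]; linarith
  have hX0 : 0 < X := by linarith
  obtain ⟨B, hB⟩ : ∃ B : ℕ, B = ⌊X⌋₊ := ⟨_, rfl⟩
  set T : Finset Par := (({1, -1} : Finset ℤ) ×ˢ (range 2 ×ˢ range 3)) ×ˢ
    (((Icc 1 B) ×ˢ (Icc 1 B)).sigma fun x : ℕ × ℕ => TT X K x.1 x.2) with hT
  have hpar : ∀ q : ℤ × ℤ, ∃ t : Par, q ∈ S → (t ∈ T ∧
      Bd (Pool.Agent.W307.RT.Sh (-q.1) (-q.2)) (wpar t) ∧
      3 * q.1 = ((GG t.1.2.1 t.1.2.2 t.2.1.1 t.2.1.2 : ℕ) : ℤ) ^ 2 *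
        ((t.2.2.1 : ℤ) ^ 2 + t.2.2.1 * t.2.2.2 + (t.2.2.2 : ℤ) ^ 2) ∧
      27 * q.2 = -(t.1.1 * (((GG t.1.2.1 t.1.2.2 t.2.1.1 t.2.1.2 : ℕ) : ℤ) ^ 3 *
        ((2 * (t.2.2.1 : ℤ) + t.2.2.2) * ((t.2.2.1 : ℤ) - t.2.2.2) *
          ((t.2.2.1 : ℤ) + 2 * t.2.2.2))))) := by
    rintro ⟨a, b⟩
    by_cases hq : (a, b) ∈ S
    swap
    · exact ⟨((1, (0, 0)), ⟨(0, 0), (0, 0)⟩), fun h => absurd h hq⟩
    obtain ⟨hmin, hf, hc, hd⟩ := hS _ hq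
    simp only at hmin hf hc hd
    obtain ⟨s, i, j, g₁, g₂, u, v, hs, hi, hj, hg1, hg2, hu, huv, hcop, hdvd, hcond, h3a, h27, hD,
      hbd⟩ := data a b hmin hf
    refine ⟨((s, (i, j)), ⟨(g₁, g₂), (u, v)⟩), fun _ => ⟨?_, hbd, h3a, h27⟩⟩
    have hg0 : 0 < GG i j g₁ g₂ :=
      Nat.mul_pos (Nat.mul_pos (by positivity) (by positivity)) (Nat.mul_pos hg1 hg2)
    have hcR : ((rad (u * v * (u + v)) * (g₁ * g₂) * g₂ : ℕ) : ℝ) ≤ X := by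
      have : ((rad (u * v * (u + v)) * (g₁ * g₂) * g₂ : ℕ) : ℝ) ≤ ((6 * condS a b : ℕ) : ℝ) := by
        exact_mod_cast hcond
      push_cast at this ⊢
      rw [hX]
      linarith
    have hgg : g₁ * g₂ ≤ B := by
      rw [hB]
      refine Nat.le_floor ?_
      have h1 : g₁ * g₂ ≤ rad (u * v * (u + v)) * (g₁ * g₂) * g₂ := by
        calc g₁ * g₂ = 1 * (g₁ * g₂) * 1 := by ring
          _ ≤ _ := Nat.mul_le_mul (Nat.mul_le_mul_right _ (rad_pos _)) hg2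
      exact le_trans (by exact_mod_cast h1) hcR
    have hg1B : g₁ ≤ B := (Nat.le_mul_of_pos_right _ hg2).trans hgg
    have hg2B : g₂ ≤ B := (Nat.le_mul_of_pos_left _ hg1).trans hgg
    have hheight : ((u + v : ℕ) : ℝ) ≤ X ^ K := by
      have h1 : ((u + v : ℕ) : ℤ) ≤ D a b := by
        rw [hD]
        have h2 : (1 : ℤ) ≤ ((GG i j g₁ g₂ : ℕ) : ℤ) ^ 6 := by
          have : (1 : ℤ) ≤ ((GG i j g₁ g₂ : ℕ) : ℤ) := by exact_mod_cast hg0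
          exact one_le_pow₀ this
        have hu1 : (1 : ℤ) ≤ u := by exact_mod_cast hu
        have hv1 : (1 : ℤ) ≤ v := by exact_mod_cast (by omega : 1 ≤ v)
        have h3 : ((u : ℤ) + v) ≤ (u * v * (u + v)) := by
          have : (1 : ℤ) ≤ u * v := by nlinarith
          nlinarith
        have h4 : ((u : ℤ) + v) ≤ (u * v * (u + v)) ^ 2 := by nlinarith
        push_cast
        nlinarith
      have h2 : ((u + v : ℕ) : ℝ) ≤ ((D a b : ℤ) : ℝ) := by exact_mod_cast h1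
      calc ((u + v : ℕ) : ℝ) ≤ |((D a b : ℤ) : ℝ)| := h2.trans (le_abs_self _)
        _ ≤ N ^ K := hd
        _ ≤ X ^ K := Real.rpow_le_rpow (by linarith) (by rw [hX]; linarith) hK
    rw [hT]
    simp only [mem_product, mem_sigma, mem_range, mem_Icc, mem_insert, mem_singleton]
    exact ⟨⟨hs, by omega, by omega⟩, ⟨⟨hg1, hg1B⟩, hg2, hg2B⟩,
      mem_TT.2 ⟨hu, huv, hcop, hdvd, hcR, hheight⟩⟩
  choose τ hτ using hpar
  have hinj : Set.InjOn τ (S : Set (ℤ × ℤ)) := by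
    intro q hq q' hq' h
    obtain ⟨-, -, h1, h2⟩ := hτ q hq
    obtain ⟨-, -, h1', h2'⟩ := hτ q' hq'
    rw [h] at h1 h2
    have e1 : q.1 = q'.1 := by linarith
    have e2 : q.2 = q'.2 := by linarith
    exact Prod.ext e1 e2
  refine ⟨fun q => wpar (τ q), fun q hq => (hτ q hq).2.1, ?_⟩
  have hk1 : ∑ q ∈ S, wpar (τ q) ^ θ ≤ ∑ t ∈ T, wpar t ^ θ := by
    rw [← sum_image (f := fun t => wpar t ^ θ) hinj]
    refine sum_le_sum_of_subset_of_nonneg ?_ fun t _ _ => Real.rpow_nonneg (sel_nonneg _ _) _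
    intro t ht
    obtain ⟨q, hq, rfl⟩ := mem_image.1 ht
    exact (hτ q hq).1
  refine hk1.trans ?_
  rw [hT, sum_product]
  have hk2 : ∀ x ∈ ({1, -1} : Finset ℤ) ×ˢ (range 2 ×ˢ range 3),
      ∑ y ∈ ((Icc 1 B) ×ˢ (Icc 1 B)).sigma fun x : ℕ × ℕ => TT X K x.1 x.2, wpar (x, y) ^ θ ≤
      C * X ^ ((2 : ℝ) / 3) := by
    rintro ⟨s, i, j⟩ hx
    rw [mem_product, mem_product, mem_range, mem_range, mem_insert, mem_singleton] at hx
    simp only at hx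
    rw [sum_sigma]
    have := hall X hX1 s hx.1 i j (by omega) (by omega)
    rw [← hB] at this
    exact this
  refine (sum_le_card_nsmul _ _ _ hk2).trans ?_
  rw [nsmul_eq_mul]
  have hcard : (({1, -1} : Finset ℤ) ×ˢ (range 2 ×ˢ range 3)).card ≤ 12 := by
    rw [card_product, card_product, card_range, card_range]
    have h2 : ({1, -1} : Finset ℤ).card ≤ 2 := card_le_two
    omega
  have hcard' : (((({1, -1} : Finset ℤ) ×ˢ (range 2 ×ˢ range 3)).card : ℕ) : ℝ) ≤ 12 := by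
    exact_mod_cast hcard
  have hXN : X ^ ((2 : ℝ) / 3) ≤ 6 * N ^ ((2 : ℝ) / 3) := by
    rw [hX, Real.mul_rpow (by norm_num) (by linarith)]
    refine mul_le_mul_of_nonneg_right ?_ (by positivity)
    calc (6 : ℝ) ^ ((2 : ℝ) / 3) ≤ 6 ^ (1 : ℝ) :=
          Real.rpow_le_rpow_of_exponent_le (by norm_num) (by norm_num)
      _ = 6 := Real.rpow_one _
  calc _ ≤ 12 * (C * X ^ ((2 : ℝ) / 3)) := mul_le_mul_of_nonneg_right hcard' (by positivity)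
    _ ≤ 12 * (C * (6 * N ^ ((2 : ℝ) / 3))) := by gcongr
    _ = _ := by ring

end Pool.Agent.TH498.CO
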