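import Pool.Agent.TH498.CO.Exc

set_option autoImplicit false

/-!
# The families of the curves ordered by the conductor, off the exceptional set
-/

namespace Pool.Agent.TH498.CO

open Finset Pool.Agent.W307.SE Pool.Agent.TH498.AR Pool.Agent.H328R2.ABC
  Pool.Agent.H925R.Szpiro Pool.Agent.TH841.SH

/-- `c` differs from the prime-to-6 part of the conductor by a bounded factor -/
def CL (c : ℤ → ℤ → ℝ) : Prop := ∀ a b : ℤ, IsMin a b → FullS a b →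
  (condS a b : ℝ) ≤ c a b ∧ c a b ≤ 2 ^ 8 * 3 ^ 5 * (condS a b : ℝ)

/-- the family -/
def Fc (c : ℤ → ℤ → ℝ) (K N : ℝ) : Set (ℤ × ℤ) :=
  {q | IsMin q.1 q.2 ∧ FullS q.1 q.2 ∧ c q.1 q.2 ≤ N ∧ |((D q.1 q.2 : ℤ) : ℝ)| ≤ N ^ K}

/-- the family is finite and its number is bounded from below -/
theorem fc_fin {c : ℤ → ℤ → ℝ} (hc : CL c) {K N : ℝ} (hK : 2 ≤ K) (hN : 4 * 10 ^ 7 ≤ N) :
    (Fc c K N).Finite ∧ ∀ S : Finset (ℤ × ℤ), (S : Set (ℤ × ℤ)) = Fc c K N →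
      N ^ ((2 : ℝ) / 3) / 10 ^ 6 ≤ (S.card : ℝ) := by
  obtain ⟨C0, hC0, hfin⟩ := Pool.Agent.TH867.EC.curS_upper 1 one_pos
  have hN1 : 1 ≤ N := by linarith
  have hN0 : 0 < N := by linarith
  have hlogN : 1 ≤ Real.log N := by
    rw [Real.le_log_iff_exp_le hN0]
    have := Real.exp_one_lt_d9
    linarith
  have hsub : Fc c K N ⊆ Pool.Agent.TH867.EC.CurS N (K * Real.log N) := by
    intro q hq
    obtain ⟨h1, h2, h3, h4⟩ := hq
    refine ⟨h1, h2, (hc q.1 q.2 h1 h2).1.trans h3, ?_⟩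
    have h5 : (0 : ℝ) < |((D q.1 q.2 : ℤ) : ℝ)| := abs_pos.2 (by exact_mod_cast h1.1)
    have h6 := Real.log_le_log h5 h4
    rwa [Real.log_rpow hN0] at h6
  refine ⟨(hfin N (K * Real.log N) hN1 (by nlinarith)).1.subset hsub, ?_⟩
  intro S hS
  obtain ⟨R, hR⟩ : ∃ R : ℝ, R = N / 62208 := ⟨_, rfl⟩
  have hR1 : 576 ≤ R := by rw [hR, le_div_iff₀ (by norm_num)]; linarith
  have hR0 : 0 < R := by linarith
  have hRN : R ≤ N := by rw [hR]; exact div_le_self hN0.le (by norm_num)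
  have h1 := Pool.Agent.TH867.EC.curS_lower R (2 * Real.log R) hR1 le_rfl
  have h2 : Pool.Agent.TH867.EC.CurS R (2 * Real.log R) ⊆ (S : Set (ℤ × ℤ)) := by
    intro q hq
    obtain ⟨g1, g2, g3, g4⟩ := hq
    rw [hS]
    refine ⟨g1, g2, ?_, ?_⟩
    · have g5 := (hc q.1 q.2 g1 g2).2
      have g6 : (condS q.1 q.2 : ℝ) ≤ R := g3
      rw [hR, le_div_iff₀ (by norm_num)] at g6
      have g7 : (2 : ℝ) ^ 8 * 3 ^ 5 = 62208 := by norm_num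
      rw [g7] at g5
      linarith
    · have g5 : (0 : ℝ) < |((D q.1 q.2 : ℤ) : ℝ)| := abs_pos.2 (by exact_mod_cast g1.1)
      have g6 : Real.log |((D q.1 q.2 : ℤ) : ℝ)| ≤ K * Real.log N := by
        refine le_trans g4 ?_
        have g7 : Real.log R ≤ Real.log N := Real.log_le_log hR0 hRN
        nlinarith
      rw [← Real.log_rpow hN0] at g6
      exact (Real.log_le_log_iff g5 (by positivity)).1 g6
  have h3 : ((Pool.Agent.TH867.EC.CurS R (2 * Real.log R)).ncard : ℝ) ≤ S.card := by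
    have := Set.ncard_le_ncard h2 S.finite_toSet
    rw [Set.ncard_coe_finset] at this
    exact_mod_cast this
  refine le_trans ?_ (h1.trans h3)
  have h4 : (62208 : ℝ) ^ ((2 : ℝ) / 3) ≤ 1600 := by
    have e1 : (62208 : ℝ) ^ ((2 : ℝ) / 3) = ((62208 : ℝ) ^ 2) ^ ((1 : ℝ) / 3) := by
      rw [← Real.rpow_natCast, ← Real.rpow_mul (by norm_num)]
      norm_num
    have e2 : (1600 : ℝ) = ((1600 : ℝ) ^ 3) ^ ((1 : ℝ) / 3) := by
      rw [← Real.rpow_natCast, ← Real.rpow_mul (by norm_num)]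
      norm_num
    rw [e1, e2]
    exact Real.rpow_le_rpow (by norm_num) (by norm_num) (by norm_num)
  have h5 : N ^ ((2 : ℝ) / 3) = 62208 ^ ((2 : ℝ) / 3) * R ^ ((2 : ℝ) / 3) := by
    rw [← Real.mul_rpow (by norm_num) hR0.le, hR]
    congr 1
    ring
  have h6 : 0 ≤ R ^ ((2 : ℝ) / 3) := by positivity
  rw [h5, div_le_iff₀ (by norm_num)]
  nlinarith

lemma fc_fam {c : ℤ → ℤ → ℝ} (hc : CL c) {K N : ℝ} {S : Finset (ℤ × ℤ)}
    (hS : (S : Set (ℤ × ℤ)) = Fc c K N) : ∀ q ∈ S, Fam N K q := by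
  intro q hq
  have h : q ∈ Fc c K N := by rw [← hS]; exact mem_coe.2 hq
  obtain ⟨h1, h2, h3, h4⟩ := h
  exact ⟨h1, h2, (hc q.1 q.2 h1 h2).1.trans h3, h4⟩

/-- the upper bound of the number -/
theorem fc_upper (K : ℝ) (hK : 2 ≤ K) : ∃ C : ℝ, 0 < C ∧ ∀ c : ℤ → ℤ → ℝ, CL c → ∀ N : ℝ,
    4 * 10 ^ 7 ≤ N → ∀ S : Finset (ℤ × ℤ), (S : Set (ℤ × ℤ)) = Fc c K N →
    (S.card : ℝ) ≤ C * N ^ ((2 : ℝ) / 3) := by
  obtain ⟨C, hC, hcur⟩ := curves_sum (1 / 2) (by norm_num) (by norm_num) K (by linarith)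
  refine ⟨C, by linarith, ?_⟩
  intro c hc N hN S hS
  obtain ⟨n, hn, hsum⟩ := hcur N (by linarith) S (fc_fam hc hS)
  refine le_trans ?_ hsum
  rw [card_eq_sum_ones, Nat.cast_sum]
  refine sum_le_sum fun q hq => ?_
  rw [Nat.cast_one]
  exact Real.one_le_rpow (one_le_of_bd (hn q hq)) (by norm_num)

open Classical in
/-- **The families off the exceptional set.** -/
theorem lims : ∃ (n : ℤ → ℤ × ℤ → ℝ) (Ex : Set (ℤ × ℤ)),
    (∀ q : ℤ × ℤ, IsMin q.1 q.2 → FullS q.1 q.2 →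
      (∀ d : ℤ, d ≠ 0 →
        Bd (Pool.Agent.W307.RT.Sh (d ^ 2 * (-q.1)) (d ^ 3 * (-q.2))) (n d q)) ∧
      ∃ e1 e2 e3 : ℤ, ∀ x : ℤ,
        x ^ 3 + (-q.1) * x + (-q.2) = (x - e1) * (x - e2) * (x - e3)) ∧
    (∀ K : ℝ, 2 ≤ K → ∀ ε : ℝ, 0 < ε → ∃ N0 : ℝ, 4 * 10 ^ 7 ≤ N0 ∧ ∀ c : ℤ → ℤ → ℝ, CL c →
      ∀ N : ℝ, N0 ≤ N → ∀ S : Finset (ℤ × ℤ), (S : Set (ℤ × ℤ)) = Fc c K N →
      ((S.filter fun q => q ∈ Ex).card : ℝ) ≤ ε * S.card) ∧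
    (∀ θ : ℝ, 0 < θ → ∀ K A : ℝ, 2 ≤ K → 0 ≤ A → ∃ C : ℝ, 1 ≤ C ∧ ∀ c : ℤ → ℤ → ℝ, CL c →
      ∀ N : ℝ, 4 * 10 ^ 7 ≤ N → ∀ S : Finset (ℤ × ℤ), (S : Set (ℤ × ℤ)) = Fc c K N →
      ∀ d : ℤ, d ≠ 0 → (d.natAbs : ℝ) ≤ N ^ A →
      ∑ q ∈ S.filter (fun q => q ∉ Ex), n d q ^ θ ≤
        C * (16 * 512 ^ θ) ^ d.natAbs.primeFactors.card * S.card) := by
  obtain ⟨n, Ex, h1, h2, h3⟩ := exc
  refine ⟨n, Ex, h1, ?_, ?_⟩
  · intro K hK ε hε
    obtain ⟨N0, hN0, h⟩ := h2 K (by linarith) (ε / 10 ^ 6) (by positivity)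
    refine ⟨max N0 (4 * 10 ^ 7), le_max_right _ _, ?_⟩
    intro c hc N hN S hS
    have hN1 : N0 ≤ N := (le_max_left _ _).trans hN
    have hN2 : 4 * 10 ^ 7 ≤ N := (le_max_right _ _).trans hN
    have g1 := h N hN1 (S.filter fun q => q ∈ Ex)
      (fun q hq => fc_fam hc hS q (mem_filter.1 hq).1) (fun q hq => (mem_filter.1 hq).2)
    have g2 := (fc_fin hc hK hN2).2 S hS
    rw [div_le_iff₀ (by norm_num)] at g2
    refine g1.trans ?_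
    calc ε / 10 ^ 6 * N ^ ((2 : ℝ) / 3) ≤ ε / 10 ^ 6 * (S.card * 10 ^ 6) :=
          mul_le_mul_of_nonneg_left g2 (by positivity)
      _ = _ := by ring
  · intro θ hθ K A hK hA
    obtain ⟨C, hC, h⟩ := h3 θ hθ K A (by linarith) hA
    refine ⟨C * 10 ^ 6, by linarith, ?_⟩
    intro c hc N hN S hS d hd hdN
    have g1 := h N (by linarith) (S.filter fun q => q ∉ Ex)
      (fun q hq => fc_fam hc hS q (mem_filter.1 hq).1) (fun q hq => (mem_filter.1 hq).2) d hd hdN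
    have g2 := (fc_fin hc hK hN).2 S hS
    rw [div_le_iff₀ (by norm_num)] at g2
    refine g1.trans ?_
    calc C * (16 * 512 ^ θ) ^ d.natAbs.primeFactors.card * N ^ ((2 : ℝ) / 3)
        ≤ C * (16 * 512 ^ θ) ^ d.natAbs.primeFactors.card * (S.card * 10 ^ 6) :=
          mul_le_mul_of_nonneg_left g2 (by positivity)
      _ = _ := by ring

end Pool.Agent.TH498.CO
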