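import Pool.Agent.TH498.CO.Big

set_option autoImplicit false

/-!
# The sum over all the twists
-/

namespace Pool.Agent.TH498.CO

open Finset Pool.Agent.W307.SE Pool.Agent.TH498.AR Pool.Agent.H328R2.ABC

lemma card_pf (i j g₁ g₂ : ℕ) : (GG i j g₁ g₂).primeFactors.card ≤
    2 + (g₁.primeFactors.card + g₂.primeFactors.card) := by
  have hmul : ∀ a b : ℕ, (a * b).primeFactors.card ≤ a.primeFactors.card + b.primeFactors.card := by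
    intro a b
    rcases Nat.eq_zero_or_pos a with h | h
    · rw [h, zero_mul]; simp
    rcases Nat.eq_zero_or_pos b with h' | h'
    · rw [h', mul_zero]; simp
    rw [Nat.primeFactors_mul h.ne' h'.ne']
    exact card_union_le _ _
  have hpow : ∀ p k : ℕ, p.Prime → (p ^ k).primeFactors.card ≤ 1 := by
    intro p k hp
    have h1 : (p ^ k).primeFactors ⊆ {p} := by
      intro q hq
      have hqp := Nat.prime_of_mem_primeFactors hq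
      have := hqp.dvd_of_dvd_pow (Nat.dvd_of_mem_primeFactors hq)
      rw [mem_singleton]
      exact (Nat.prime_dvd_prime_iff_eq hqp hp).1 this
    exact (card_le_card h1).trans (by simp)
  unfold GG
  have h1 := hmul (2 ^ i * 3 ^ j) (g₁ * g₂)
  have h2 := hmul (2 ^ i) (3 ^ j)
  have h3 := hmul g₁ g₂
  have h4 := hpow 2 i Nat.prime_two
  have h5 := hpow 3 j Nat.prime_three
  omega

/-- the sum over `g₁` -/
lemma sum_g1 (C : ℝ) (hC : 1 ≤ C) : ∃ D : ℝ, 1 ≤ D ∧ ∀ B : ℕ,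
    ∑ g ∈ Icc 1 B, C ^ g.primeFactors.card * (((rad g : ℝ) * g) ^ ((2 : ℝ) / 3))⁻¹ ≤ D := by
  obtain ⟨D1, hD1, h1⟩ := omega_le C (1 / 12) hC (by norm_num)
  obtain ⟨D2, D3, hD2, hD3, h2⟩ := sum_bound (1 / 4) (by norm_num)
  refine ⟨D1 * D2, by nlinarith, fun B => ?_⟩
  have h3 := h2 ∅ B
  rw [card_empty, pow_zero, mul_one] at h3
  calc ∑ g ∈ Icc 1 B, C ^ g.primeFactors.card * (((rad g : ℝ) * g) ^ ((2 : ℝ) / 3))⁻¹
      ≤ ∑ g ∈ Icc 1 B, D1 * ff (1 / 4) ∅ g := by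
        refine sum_le_sum fun g hg => ?_
        obtain ⟨hg1, -⟩ := mem_Icc.1 hg
        have hgr : (1 : ℝ) ≤ g := by exact_mod_cast hg1
        have hg0 : (0 : ℝ) < g := by linarith
        have hrad : radP ∅ g = rad g := by
          unfold radP rad
          refine prod_congr ?_ fun _ _ => rfl
          ext p
          simp
        unfold ff
        rw [hrad]
        obtain ⟨r, hr⟩ : ∃ r : ℝ, r = (rad g : ℝ) := ⟨_, rfl⟩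
        rw [← hr]
        have hr1 : 1 ≤ r := by rw [hr]; exact_mod_cast rad_pos g
        have hr0 : 0 < r := by linarith
        have hrg : r ≤ g := by rw [hr]; exact_mod_cast rad_le hg1
        have key : (g : ℝ) ^ (1 / 12 : ℝ) * (((r * g) ^ ((2 : ℝ) / 3))⁻¹) ≤
            (g : ℝ) ^ (-(1 / 4) : ℝ) / r := by
          rw [le_div_iff₀ hr0, Real.mul_rpow hr0.le hg0.le, mul_inv, ← Real.rpow_neg hr0.le,
            ← Real.rpow_neg hg0.le]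
          have e1 : (g : ℝ) ^ (1 / 12 : ℝ) * (r ^ (-(2 / 3) : ℝ) * (g : ℝ) ^ (-(2 / 3) : ℝ)) * r =
              (g : ℝ) ^ (-(1 / 4) : ℝ) * (r ^ (1 / 3 : ℝ) * (g : ℝ) ^ (-(1 / 3) : ℝ)) := by
            have a1 : r ^ (-(2 / 3) : ℝ) * r = r ^ (1 / 3 : ℝ) := by
              conv_lhs => rw [← Real.rpow_one r, ← Real.rpow_mul hr0.le, ← Real.rpow_add hr0]
              norm_num
            have a2 : (g : ℝ) ^ (1 / 12 : ℝ) * (g : ℝ) ^ (-(2 / 3) : ℝ) =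
                (g : ℝ) ^ (-(1 / 4) : ℝ) * (g : ℝ) ^ (-(1 / 3) : ℝ) := by
              rw [← Real.rpow_add hg0, ← Real.rpow_add hg0]
              norm_num
            calc _ = ((g : ℝ) ^ (1 / 12 : ℝ) * (g : ℝ) ^ (-(2 / 3) : ℝ)) *
                  (r ^ (-(2 / 3) : ℝ) * r) := by ring
              _ = _ := by rw [a1, a2]; ring
          rw [e1]
          have e2 : r ^ (1 / 3 : ℝ) * (g : ℝ) ^ (-(1 / 3) : ℝ) ≤ 1 := by
            calc r ^ (1 / 3 : ℝ) * (g : ℝ) ^ (-(1 / 3) : ℝ) ≤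
                  (g : ℝ) ^ (1 / 3 : ℝ) * (g : ℝ) ^ (-(1 / 3) : ℝ) :=
                  mul_le_mul_of_nonneg_right (Real.rpow_le_rpow hr0.le hrg (by norm_num))
                    (by positivity)
              _ = 1 := by
                  rw [← Real.rpow_add hg0]
                  norm_num
          calc _ ≤ (g : ℝ) ^ (-(1 / 4) : ℝ) * 1 := mul_le_mul_of_nonneg_left e2 (by positivity)
            _ = _ := mul_one _
        calc C ^ g.primeFactors.card * ((r * g) ^ ((2 : ℝ) / 3))⁻¹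
            ≤ (D1 * (g : ℝ) ^ (1 / 12 : ℝ)) * ((r * g) ^ ((2 : ℝ) / 3))⁻¹ :=
              mul_le_mul_of_nonneg_right (h1 g hg1) (by positivity)
          _ = D1 * ((g : ℝ) ^ (1 / 12 : ℝ) * ((r * g) ^ ((2 : ℝ) / 3))⁻¹) := by ring
          _ ≤ _ := mul_le_mul_of_nonneg_left key (by linarith)
    _ = D1 * ∑ g ∈ Icc 1 B, ff (1 / 4) ∅ g := (mul_sum _ _ _).symm
    _ ≤ _ := mul_le_mul_of_nonneg_left h3 (by linarith)

/-- the sum over `g₂` -/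
lemma sum_g2 (C : ℝ) (hC : 1 ≤ C) : ∃ D : ℝ, 1 ≤ D ∧ ∀ B : ℕ,
    ∑ g ∈ Icc 1 B, C ^ g.primeFactors.card * (((g : ℝ) ^ 2) ^ ((2 : ℝ) / 3))⁻¹ ≤ D := by
  obtain ⟨D1, hD1, h1⟩ := omega_le C (1 / 12) hC (by norm_num)
  have hsum : Summable fun n : ℕ => ((n : ℝ) ^ (5 / 4 : ℝ))⁻¹ :=
    Real.summable_nat_rpow_inv.2 (by norm_num)
  obtain ⟨Z, hZ⟩ : ∃ Z : ℝ, Z = ∑' n : ℕ, ((n : ℝ) ^ (5 / 4 : ℝ))⁻¹ := ⟨_, rfl⟩
  have hZ0 : 0 ≤ Z := by rw [hZ]; exact tsum_nonneg fun n => by positivity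
  refine ⟨D1 * Z + 1, by
    have : 0 ≤ D1 * Z := mul_nonneg (by linarith) hZ0
    linarith, fun B => ?_⟩
  calc ∑ g ∈ Icc 1 B, C ^ g.primeFactors.card * (((g : ℝ) ^ 2) ^ ((2 : ℝ) / 3))⁻¹
      ≤ ∑ g ∈ Icc 1 B, D1 * ((g : ℝ) ^ (5 / 4 : ℝ))⁻¹ := by
        refine sum_le_sum fun g hg => ?_
        obtain ⟨hg1, -⟩ := mem_Icc.1 hg
        have hgr : (1 : ℝ) ≤ g := by exact_mod_cast hg1
        have hg0 : (0 : ℝ) < g := by linarith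
        calc C ^ g.primeFactors.card * (((g : ℝ) ^ 2) ^ ((2 : ℝ) / 3))⁻¹
            ≤ (D1 * (g : ℝ) ^ (1 / 12 : ℝ)) * (((g : ℝ) ^ 2) ^ ((2 : ℝ) / 3))⁻¹ :=
              mul_le_mul_of_nonneg_right (h1 g hg1) (by positivity)
          _ = D1 * ((g : ℝ) ^ (1 / 12 : ℝ) * (g : ℝ) ^ (-(4 / 3) : ℝ)) := by
              rw [← Real.rpow_natCast, ← Real.rpow_mul hg0.le, ← Real.rpow_neg hg0.le]
              norm_num
              ring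
          _ = D1 * (g : ℝ) ^ (-(5 / 4) : ℝ) := by
              rw [← Real.rpow_add hg0]
              norm_num
          _ = _ := by rw [Real.rpow_neg hg0.le]
    _ = D1 * ∑ g ∈ Icc 1 B, ((g : ℝ) ^ (5 / 4 : ℝ))⁻¹ := (mul_sum _ _ _).symm
    _ ≤ D1 * Z := by
        refine mul_le_mul_of_nonneg_left ?_ (by linarith)
        rw [hZ]
        exact hsum.sum_le_tsum _ (fun n _ => by positivity)
    _ ≤ _ := by linarith

/-- **The small twists.** -/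
theorem small_twists (θ : ℝ) (hθ0 : 0 < θ) (hθ : θ < 2 / 3) (K : ℝ) (hK : 0 ≤ K) :
    ∃ C : ℝ, 1 ≤ C ∧ ∀ X : ℝ, 1 ≤ X → ∀ s : ℤ, (s = 1 ∨ s = -1) →
    ∀ i j : ℕ, i ≤ 1 → j ≤ 2 →
    ∑ x ∈ ((Icc 1 ⌊X⌋₊) ×ˢ (Icc 1 ⌊X⌋₊)).filter (fun x : ℕ × ℕ =>
        (x.1 : ℝ) ≤ X ^ (1 / 4000 : ℝ) ∧ (x.2 : ℝ) ≤ X ^ (1 / 4000 : ℝ)),
      ∑ p ∈ TT X K x.1 x.2, sel (s * ((GG i j x.1 x.2 : ℕ) : ℤ)) p ^ θ ≤ C * X ^ ((2 : ℝ) / 3) := by
  classical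
  obtain ⟨C1, C2, C3, hC1, hC2, hC3, hst⟩ := small_twist θ hθ0 hθ K hK
  obtain ⟨D1, hD1, hs1⟩ := sum_g1 (C2 * 128) (by linarith)
  obtain ⟨D2, hD2, hs2⟩ := sum_g2 128 (by norm_num)
  refine ⟨C1 * 128 ^ 2 * (D1 * D2) + C3, by
    have : 0 ≤ C1 * 128 ^ 2 * (D1 * D2) := by positivity
    linarith, ?_⟩
  intro X hX s hs i j hi hj
  have hX0 : 0 < X := by linarith
  obtain ⟨B, hB⟩ : ∃ B : ℕ, B = ⌊X⌋₊ := ⟨_, rfl⟩
  rw [← hB]
  set Q : Finset (ℕ × ℕ) := ((Icc 1 B) ×ˢ (Icc 1 B)).filter (fun x : ℕ × ℕ =>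
    (x.1 : ℝ) ≤ X ^ (1 / 4000 : ℝ) ∧ (x.2 : ℝ) ≤ X ^ (1 / 4000 : ℝ)) with hQ
  have hQm : ∀ x ∈ Q, 0 < x.1 ∧ 0 < x.2 ∧ (x.1 : ℝ) ≤ X ^ (1 / 4000 : ℝ) ∧
      (x.2 : ℝ) ≤ X ^ (1 / 4000 : ℝ) := by
    intro x hx
    obtain ⟨h1, h2⟩ := mem_filter.1 hx
    obtain ⟨h3, h4⟩ := mem_product.1 h1
    exact ⟨(mem_Icc.1 h3).1, (mem_Icc.1 h4).1, h2.1, h2.2⟩
  have hk1 : ∀ x ∈ Q, ∑ p ∈ TT X K x.1 x.2, sel (s * ((GG i j x.1 x.2 : ℕ) : ℤ)) p ^ θ ≤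
      C1 * 128 ^ 2 * X ^ ((2 : ℝ) / 3) *
        (((C2 * 128) ^ x.1.primeFactors.card * (((rad x.1 : ℝ) * x.1) ^ ((2 : ℝ) / 3))⁻¹) *
        (128 ^ x.2.primeFactors.card * (((x.2 : ℝ) ^ 2) ^ ((2 : ℝ) / 3))⁻¹)) +
      C3 * X ^ (2 / 3 - 1 / 1000 : ℝ) := by
    intro x hx
    obtain ⟨h1, h2, h3, h4⟩ := hQm x hx
    refine (hst X hX s hs i j x.1 x.2 hi hj h1 h2 h3 h4).trans ?_
    refine add_le_add ?_ le_rfl
    have r1 : (0 : ℝ) < x.1 := by exact_mod_cast h1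
    have r2 : (0 : ℝ) < x.2 := by exact_mod_cast h2
    have rr : (0 : ℝ) < rad x.1 := by exact_mod_cast rad_pos x.1
    have e1 : (X / ((rad x.1 : ℝ) * x.1 * (x.2 : ℝ) ^ 2)) ^ ((2 : ℝ) / 3) =
        X ^ ((2 : ℝ) / 3) * ((((rad x.1 : ℝ) * x.1) ^ ((2 : ℝ) / 3))⁻¹ *
          (((x.2 : ℝ) ^ 2) ^ ((2 : ℝ) / 3))⁻¹) := by
      rw [Real.div_rpow hX0.le (by positivity), Real.mul_rpow (by positivity) (by positivity),
        div_eq_mul_inv, mul_inv]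
    have e2 : (128 : ℝ) ^ (GG i j x.1 x.2).primeFactors.card ≤
        128 ^ 2 * (128 ^ x.1.primeFactors.card * 128 ^ x.2.primeFactors.card) := by
      rw [← pow_add, ← pow_add]
      exact pow_le_pow_right₀ (by norm_num) (card_pf i j x.1 x.2)
    rw [e1]
    calc C1 * C2 ^ x.1.primeFactors.card * 128 ^ (GG i j x.1 x.2).primeFactors.card *
          (X ^ ((2 : ℝ) / 3) * ((((rad x.1 : ℝ) * x.1) ^ ((2 : ℝ) / 3))⁻¹ *
          (((x.2 : ℝ) ^ 2) ^ ((2 : ℝ) / 3))⁻¹))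
        ≤ C1 * C2 ^ x.1.primeFactors.card *
          (128 ^ 2 * (128 ^ x.1.primeFactors.card * 128 ^ x.2.primeFactors.card)) *
          (X ^ ((2 : ℝ) / 3) * ((((rad x.1 : ℝ) * x.1) ^ ((2 : ℝ) / 3))⁻¹ *
          (((x.2 : ℝ) ^ 2) ^ ((2 : ℝ) / 3))⁻¹)) := by
          refine mul_le_mul_of_nonneg_right ?_ (by positivity)
          exact mul_le_mul_of_nonneg_left e2 (by positivity)
      _ = _ := by
          rw [mul_pow]
          ring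
  have hQc : (Q.card : ℝ) ≤ X ^ (1 / 2000 : ℝ) := by
    obtain ⟨y, hy⟩ : ∃ y : ℝ, y = X ^ (1 / 4000 : ℝ) := ⟨_, rfl⟩
    have hy0 : 0 ≤ y := by rw [hy]; positivity
    have h1 : Q ⊆ (Icc 1 ⌊y⌋₊) ×ˢ (Icc 1 ⌊y⌋₊) := by
      intro x hx
      obtain ⟨h1, h2, h3, h4⟩ := hQm x hx
      rw [← hy] at h3 h4
      rw [mem_product, mem_Icc, mem_Icc]
      exact ⟨⟨h1, Nat.le_floor h3⟩, h2, Nat.le_floor h4⟩
    have h2 := card_le_card h1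
    rw [card_product, Nat.card_Icc, Nat.add_sub_cancel] at h2
    have h3 : (Q.card : ℝ) ≤ (⌊y⌋₊ : ℝ) * ⌊y⌋₊ := by exact_mod_cast h2
    refine h3.trans ?_
    calc (⌊y⌋₊ : ℝ) * ⌊y⌋₊ ≤ y * y := by
          have := Nat.floor_le hy0
          gcongr
      _ = _ := by
          rw [hy, ← Real.rpow_add hX0]
          norm_num
  refine (sum_le_sum hk1).trans ?_
  rw [sum_add_distrib, sum_const, nsmul_eq_mul, ← mul_sum]
  have hsub : Q ⊆ (Icc 1 B) ×ˢ (Icc 1 B) := filter_subset _ _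
  have hk2 : ∑ x ∈ Q, (((C2 * 128) ^ x.1.primeFactors.card *
        (((rad x.1 : ℝ) * x.1) ^ ((2 : ℝ) / 3))⁻¹) *
        (128 ^ x.2.primeFactors.card * (((x.2 : ℝ) ^ 2) ^ ((2 : ℝ) / 3))⁻¹)) ≤ D1 * D2 := by
    refine (sum_le_sum_of_subset_of_nonneg hsub fun x _ _ => by positivity).trans ?_
    rw [sum_product]
    refine le_trans (le_of_eq ?_) (mul_le_mul (hs1 B) (hs2 B)
      (sum_nonneg fun x _ => by positivity) (by linarith))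
    rw [sum_mul_sum]
  have hk3 : (Q.card : ℝ) * (C3 * X ^ (2 / 3 - 1 / 1000 : ℝ)) ≤ C3 * X ^ ((2 : ℝ) / 3) := by
    calc (Q.card : ℝ) * (C3 * X ^ (2 / 3 - 1 / 1000 : ℝ))
        ≤ X ^ (1 / 2000 : ℝ) * (C3 * X ^ (2 / 3 - 1 / 1000 : ℝ)) :=
          mul_le_mul_of_nonneg_right hQc (by positivity)
      _ = C3 * (X ^ (1 / 2000 : ℝ) * X ^ (2 / 3 - 1 / 1000 : ℝ)) := by ring
      _ ≤ _ := by
          refine mul_le_mul_of_nonneg_left ?_ (by linarith)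
          rw [← Real.rpow_add hX0]
          exact Real.rpow_le_rpow_of_exponent_le hX (by norm_num)
  calc _ ≤ C1 * 128 ^ 2 * X ^ ((2 : ℝ) / 3) * (D1 * D2) + C3 * X ^ ((2 : ℝ) / 3) :=
        add_le_add (mul_le_mul_of_nonneg_left hk2 (by positivity)) hk3
    _ = _ := by ring

/-- **All the twists.** -/
theorem all_twists (θ : ℝ) (hθ0 : 0 < θ) (hθ : θ < 2 / 3) (K : ℝ) (hK : 0 ≤ K) :
    ∃ C : ℝ, 1 ≤ C ∧ ∀ X : ℝ, 1 ≤ X → ∀ s : ℤ, (s = 1 ∨ s = -1) →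
    ∀ i j : ℕ, i ≤ 1 → j ≤ 2 →
    ∑ x ∈ (Icc 1 ⌊X⌋₊) ×ˢ (Icc 1 ⌊X⌋₊),
      ∑ p ∈ TT X K x.1 x.2, sel (s * ((GG i j x.1 x.2 : ℕ) : ℤ)) p ^ θ ≤ C * X ^ ((2 : ℝ) / 3) := by
  classical
  obtain ⟨C1, hC1, h1⟩ := small_twists θ hθ0 hθ K hK
  obtain ⟨C2, hC2, h2⟩ := big_twists θ hθ0 hθ K hK
  refine ⟨C1 + C2, by linarith, fun X hX s hs i j hi hj => ?_⟩
  rw [← sum_filter_add_sum_filter_not ((Icc 1 ⌊X⌋₊) ×ˢ (Icc 1 ⌊X⌋₊)) (fun x : ℕ × ℕ =>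
        (x.1 : ℝ) ≤ X ^ (1 / 4000 : ℝ) ∧ (x.2 : ℝ) ≤ X ^ (1 / 4000 : ℝ)), add_mul]
  exact add_le_add (h1 X hX s hs i j hi hj) (h2 X hX s hs i j hi hj)

end Pool.Agent.TH498.CO
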