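import Pool.Agent.TH344.DT.Tur
import Pool.Agent.TH344.DT.Bad

set_option autoImplicit false

/-!
# The normal order of the number of prime factors in short intervals, and the exceptional pairs
-/

namespace Pool.Agent.TH498.CO

open Finset Filter Pool.Agent.TH344.DT

open Pool.Agent.TH344.DT.Tur (Q L o o_eq L_nonneg L_tendsto o_le)

/-- the multiples in an interval -/
lemma cnt_mult (a H d : ℕ) (hd : 0 < d) :
    (H : ℝ) / d - 1 ≤ ∑ n ∈ Ioc a (a + H), (if d ∣ n then (1 : ℝ) else 0) ∧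
    ∑ n ∈ Ioc a (a + H), (if d ∣ n then (1 : ℝ) else 0) ≤ (H : ℝ) / d + 1 := by
  have h1 : ∑ n ∈ Ioc 0 (a + H), (if d ∣ n then (1 : ℝ) else 0) =
      ∑ n ∈ Ioc 0 a, (if d ∣ n then (1 : ℝ) else 0) +
      ∑ n ∈ Ioc a (a + H), (if d ∣ n then (1 : ℝ) else 0) :=
    (sum_Ioc_consecutive _ (Nat.zero_le a) (Nat.le_add_right a H)).symm
  rw [Pool.Agent.TH344.DT.Tur.sum_ind, Pool.Agent.TH344.DT.Tur.sum_ind] at h1
  have hd0 : (0 : ℝ) < d := by exact_mod_cast hd
  have h2 : (((a + H) / d : ℕ) : ℝ) ≤ ((a + H : ℕ) : ℝ) / d := Nat.cast_div_le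
  have h3 : ((a / d : ℕ) : ℝ) ≤ (a : ℝ) / d := Nat.cast_div_le
  have h4 : ((a + H : ℕ) : ℝ) / d < (((a + H) / d : ℕ) : ℝ) + 1 := by
    rw [div_lt_iff₀ hd0]
    exact_mod_cast (by rw [add_mul, one_mul]; exact Nat.lt_div_mul_add hd)
  have h5 : (a : ℝ) / d < ((a / d : ℕ) : ℝ) + 1 := by
    rw [div_lt_iff₀ hd0]
    exact_mod_cast (by rw [add_mul, one_mul]; exact Nat.lt_div_mul_add hd)
  have h6 : ((a + H : ℕ) : ℝ) / d = (a : ℝ) / d + (H : ℝ) / d := by
    push_cast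
    ring
  rw [h6] at h2 h4
  constructor <;> linarith

lemma card_Q2 (M : ℕ) : ((Q M).card : ℝ) ≤ Nat.sqrt M := by
  have h1 : Q M ⊆ Ioc 0 (Nat.sqrt M) := by
    intro p hp
    unfold Q at hp
    rw [mem_filter, mem_range] at hp
    rw [mem_Ioc]
    exact ⟨hp.2.pos, by omega⟩
  have := card_le_card h1
  rw [Nat.card_Ioc, Nat.sub_zero] at this
  exact_mod_cast this

/-- **Turan's inequality in short intervals.** -/
lemma turan2 (M H a : ℕ) (hH : M ≤ H) :
    ∑ n ∈ Ioc a (a + H), ((o M n : ℝ) - L M) ^ 2 ≤ H * (3 * L M + 2) := by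
  obtain ⟨q, hq⟩ : ∃ q : ℝ, q = ((Q M).card : ℝ) := ⟨_, rfl⟩
  have hq0 : 0 ≤ q := by rw [hq]; positivity
  have hL0 := L_nonneg M
  have hq1 : q ≤ Nat.sqrt M := by rw [hq]; exact card_Q2 M
  have hq2 : q ^ 2 ≤ H := by
    calc q ^ 2 ≤ (Nat.sqrt M : ℝ) ^ 2 := pow_le_pow_left₀ hq0 hq1 2
      _ ≤ (M : ℝ) := by exact_mod_cast Nat.sqrt_le' M
      _ ≤ H := by exact_mod_cast hH
  have hq3 : q ≤ H := by
    calc q ≤ (Nat.sqrt M : ℝ) := hq1
      _ ≤ (M : ℝ) := by exact_mod_cast Nat.sqrt_le_self M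
      _ ≤ H := by exact_mod_cast hH
  -- the first moment
  have h1 : (H : ℝ) * L M - q ≤ ∑ n ∈ Ioc a (a + H), (o M n : ℝ) := by
    simp only [o_eq]
    rw [sum_comm]
    have h2 : ∑ p ∈ Q M, ((H : ℝ) / p - 1) ≤
        ∑ p ∈ Q M, ∑ n ∈ Ioc a (a + H), (if p ∣ n then (1 : ℝ) else 0) := by
      refine sum_le_sum fun p hp => ?_
      unfold Q at hp
      rw [mem_filter] at hp
      exact (cnt_mult a H p hp.2.pos).1
    rw [sum_sub_distrib, sum_const, nsmul_eq_mul, mul_one, ← hq] at h2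
    refine le_trans (le_of_eq ?_) h2
    congr 1
    unfold L
    rw [mul_sum]
    exact sum_congr rfl fun p _ => mul_one_div _ _
  -- the second moment
  have h2 : ∑ n ∈ Ioc a (a + H), (o M n : ℝ) ^ 2 ≤ H * L M ^ 2 + H * L M + q ^ 2 + q := by
    have e1 : ∑ n ∈ Ioc a (a + H), (o M n : ℝ) ^ 2 =
        ∑ p ∈ Q M, ∑ p' ∈ Q M, ∑ n ∈ Ioc a (a + H), (if p ∣ n ∧ p' ∣ n then (1 : ℝ) else 0) := by
      simp only [o_eq]
      have : ∀ n : ℕ, (∑ p ∈ Q M, if p ∣ n then (1 : ℝ) else 0) ^ 2 =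
          ∑ p ∈ Q M, ∑ p' ∈ Q M, (if p ∣ n ∧ p' ∣ n then (1 : ℝ) else 0) := by
        intro n
        rw [sq, sum_mul_sum]
        refine sum_congr rfl fun p _ => sum_congr rfl fun p' _ => ?_
        by_cases h1 : p ∣ n <;> by_cases h2 : p' ∣ n <;> simp [h1, h2]
      simp only [this]
      rw [sum_comm]
      refine sum_congr rfl fun p _ => ?_
      rw [sum_comm]
    rw [e1]
    have h3 : ∀ p ∈ Q M, ∀ p' ∈ Q M, ∑ n ∈ Ioc a (a + H),
        (if p ∣ n ∧ p' ∣ n then (1 : ℝ) else 0) ≤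
        (H : ℝ) * (1 / p) * (1 / p') + 1 + (if p = p' then (H : ℝ) * (1 / p) + 1 else 0) := by
      intro p hp p' hp'
      unfold Q at hp hp'
      rw [mem_filter] at hp hp'
      by_cases hpq : p = p'
      · subst hpq
        rw [if_pos rfl]
        simp only [and_self]
        have h3 := (cnt_mult a H p hp.2.pos).2
        have h4 : (0 : ℝ) ≤ (H : ℝ) * (1 / p) * (1 / p) := by positivity
        have h5 : (H : ℝ) * (1 / p) = (H : ℝ) / p := mul_one_div _ _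
        linarith
      · rw [if_neg hpq, add_zero]
        have h3 : ∀ n, (p ∣ n ∧ p' ∣ n) ↔ p * p' ∣ n := fun n =>
          ⟨fun h => Nat.Coprime.mul_dvd_of_dvd_of_dvd ((Nat.coprime_primes hp.2 hp'.2).2 hpq)
            h.1 h.2, fun h => ⟨(dvd_mul_right _ _).trans h, (dvd_mul_left _ _).trans h⟩⟩
        simp only [h3]
        refine (cnt_mult a H (p * p') (Nat.mul_pos hp.2.pos hp'.2.pos)).2.trans (le_of_eq ?_)
        have hp0 : (p : ℝ) ≠ 0 := by exact_mod_cast hp.2.ne_zero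
        have hq0 : (p' : ℝ) ≠ 0 := by exact_mod_cast hp'.2.ne_zero
        rw [Nat.cast_mul]
        field_simp
    refine (sum_le_sum fun p hp => sum_le_sum fun p' hp' => h3 p hp p' hp').trans (le_of_eq ?_)
    simp only [sum_add_distrib]
    have e2 : ∑ x ∈ Q M, ∑ x_1 ∈ Q M, (H : ℝ) * (1 / x) * (1 / x_1) = H * L M ^ 2 := by
      unfold L
      rw [sq, sum_mul_sum, mul_sum]
      refine sum_congr rfl fun p _ => ?_
      rw [mul_sum]
      exact sum_congr rfl fun q _ => by ring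
    have e3 : ∑ x ∈ Q M, ∑ x_1 ∈ Q M, (1 : ℝ) = q ^ 2 := by
      simp only [sum_const, nsmul_eq_mul, mul_one]
      rw [hq]
      ring
    have e4 : ∑ x ∈ Q M, ∑ x_1 ∈ Q M, (if x = x_1 then (H : ℝ) * (1 / x) + 1 else 0) =
        H * L M + q := by
      have : ∀ x ∈ Q M, ∑ x_1 ∈ Q M, (if x = x_1 then (H : ℝ) * (1 / x) + 1 else 0) =
          (H : ℝ) * (1 / x) + 1 := by
        intro x hx
        rw [sum_ite_eq, if_pos hx]
      rw [sum_congr rfl this, sum_add_distrib, ← mul_sum, sum_const, nsmul_eq_mul, mul_one, hq]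
      rfl
    rw [e2, e3, e4]
    ring
  have h3 : ∑ n ∈ Ioc a (a + H), ((o M n : ℝ) - L M) ^ 2 = ∑ n ∈ Ioc a (a + H), (o M n : ℝ) ^ 2 -
      2 * L M * ∑ n ∈ Ioc a (a + H), (o M n : ℝ) + H * L M ^ 2 := by
    have h4 : ∀ n : ℕ, ((o M n : ℝ) - L M) ^ 2 = (o M n : ℝ) ^ 2 - 2 * L M * (o M n : ℝ) +
      L M ^ 2 := fun n => by ring
    simp only [h4]
    rw [sum_add_distrib, sum_sub_distrib, ← mul_sum, sum_const, nsmul_eq_mul, Nat.card_Ioc,
      Nat.add_sub_cancel_left]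
  rw [h3]
  have h4 : 2 * L M * ((H : ℝ) * L M - q) ≤ 2 * L M * ∑ n ∈ Ioc a (a + H), (o M n : ℝ) :=
    mul_le_mul_of_nonneg_left h1 (by linarith)
  have h5 : L M * q ≤ L M * H := mul_le_mul_of_nonneg_left hq3 hL0
  nlinarith

/-- the number of large primes dividing `n` -/
lemma om_le (M n B : ℕ) (hM : 2 ≤ M) (hn : n ≠ 0) (hnM : n ≤ M ^ B) :
    n.primeFactors.card ≤ o M n + 2 * B := by
  classical
  set R := n.primeFactors.filter (fun p => ¬ p ∈ Q M) with hR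
  have h1 : n.primeFactors.card ≤ o M n + R.card := by
    rw [← card_filter_add_card_filter_not (s := n.primeFactors) (fun p => p ∈ Q M)]
    refine Nat.add_le_add_right ?_ _
    unfold o
    apply card_le_card
    intro p hp
    rw [mem_filter] at hp ⊢
    exact ⟨hp.2, Nat.dvd_of_mem_primeFactors hp.1⟩
  have h2 : ∀ p ∈ R, M ≤ p ^ 2 := by
    intro p hp
    rw [hR, mem_filter] at hp
    obtain ⟨hp1, hp2⟩ := hp
    have hpp := Nat.prime_of_mem_primeFactors hp1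
    have h3 : Nat.sqrt M < p := by
      by_contra hcon
      apply hp2
      unfold Q
      rw [mem_filter, mem_range]
      exact ⟨by omega, hpp⟩
    exact (Nat.sqrt_lt'.1 h3).le
  have h3 : M ^ R.card ≤ M ^ (2 * B) := by
    calc M ^ R.card = ∏ _p ∈ R, M := by rw [prod_const]
      _ ≤ ∏ p ∈ R, p ^ 2 := prod_le_prod' h2
      _ = (∏ p ∈ R, p) ^ 2 := prod_pow _ _ _
      _ ≤ n ^ 2 := by
          refine Nat.pow_le_pow_left ?_ 2
          refine Nat.le_of_dvd (Nat.pos_of_ne_zero hn) ?_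
          refine dvd_trans ?_ (Nat.prod_primeFactors_dvd n)
          exact prod_dvd_prod_of_subset _ _ _ (filter_subset _ _)
      _ ≤ (M ^ B) ^ 2 := Nat.pow_le_pow_left hnM 2
      _ = M ^ (2 * B) := by rw [← pow_mul, mul_comm]
  have h4 : R.card ≤ 2 * B := (Nat.pow_le_pow_iff_right (by omega)).1 h3
  omega

end Pool.Agent.TH498.CO
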