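import Pool.Agent.TH498.CO.Mn
import Pool.Agent.TH498.AR.Large
import Pool.Agent.TH867.EC.Pairs
import Pool.Agent.H785R2.ABC.A12

set_option autoImplicit false

/-!
# The sum for one small twist
-/

namespace Pool.Agent.TH498.CO

open Finset Pool.Agent.W307.SE Pool.Agent.TH498.AR Pool.Agent.H328R2.ABC

lemma rad_split {g n : ℕ} (h : g ∣ n) (hn : n ≠ 0) : rad n = rad g * radP g.primeFactors n := by
  unfold rad radP
  rw [← prod_filter_mul_prod_filter_not n.primeFactors (fun p => p ∈ g.primeFactors)]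
  congr 1
  refine prod_congr ?_ fun _ _ => rfl
  ext p
  rw [mem_filter]
  constructor
  · exact fun h1 => h1.2
  · exact fun h1 => ⟨Nat.primeFactors_mono h hn h1, h1⟩

lemma rad_pos (n : ℕ) : 0 < rad n :=
  Finset.prod_pos fun _ hp => (Nat.prime_of_mem_primeFactors hp).pos

lemma rad_le {n : ℕ} (hn : 0 < n) : rad n ≤ n := Nat.le_of_dvd hn (Nat.prod_primeFactors_dvd n)

open Classical in
/-- the pairs that belong to the twist `(g₁, g₂)` -/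
noncomputable def TT (X K : ℝ) (g₁ g₂ : ℕ) : Finset (ℕ × ℕ) :=
  ((range (⌊X ^ K⌋₊ + 1)) ×ˢ (range (⌊X ^ K⌋₊ + 1))).filter (fun p =>
    0 < p.1 ∧ p.1 ≤ p.2 ∧ Nat.Coprime p.1 p.2 ∧ g₁ ∣ p.1 * p.2 * (p.1 + p.2) ∧
      ((rad (p.1 * p.2 * (p.1 + p.2)) * (g₁ * g₂) * g₂ : ℕ) : ℝ) ≤ X ∧
      ((p.1 + p.2 : ℕ) : ℝ) ≤ X ^ K)

lemma mem_TT {X K : ℝ} {g₁ g₂ : ℕ} {p : ℕ × ℕ} : p ∈ TT X K g₁ g₂ ↔
    0 < p.1 ∧ p.1 ≤ p.2 ∧ Nat.Coprime p.1 p.2 ∧ g₁ ∣ p.1 * p.2 * (p.1 + p.2) ∧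
      ((rad (p.1 * p.2 * (p.1 + p.2)) * (g₁ * g₂) * g₂ : ℕ) : ℝ) ≤ X ∧
      ((p.1 + p.2 : ℕ) : ℝ) ≤ X ^ K := by
  unfold TT
  rw [mem_filter, mem_product, mem_range, mem_range]
  constructor
  · exact fun h => h.2
  · intro h
    have h1 : p.1 + p.2 ≤ ⌊X ^ K⌋₊ := Nat.le_floor h.2.2.2.2.2
    exact ⟨⟨by omega, by omega⟩, h⟩

lemma omega_le (C ε : ℝ) (hC : 1 ≤ C) (hε : 0 < ε) : ∃ D : ℝ, 1 ≤ D ∧ ∀ n : ℕ, 1 ≤ n →
    C ^ n.primeFactors.card ≤ D * (n : ℝ) ^ ε := by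
  obtain ⟨D, hD, h⟩ := Pool.Agent.H785R2.ABC.stmtA1 C hC ε hε
  refine ⟨max D 1, le_max_right _ _, fun n hn => (h n hn).trans ?_⟩
  exact mul_le_mul_of_nonneg_right (le_max_left _ _) (by positivity)

lemma natAbs_twist {s : ℤ} (hs : s = 1 ∨ s = -1) (g : ℕ) : (s * (g : ℤ)).natAbs = g := by
  rcases hs with h | h <;> rw [h] <;> simp

/-- **One small twist.** -/
theorem small_twist (θ : ℝ) (hθ0 : 0 < θ) (hθ : θ < 2 / 3) (K : ℝ) (hK : 0 ≤ K) :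
    ∃ C1 C2 C3 : ℝ, 1 ≤ C1 ∧ 1 ≤ C2 ∧ 1 ≤ C3 ∧ ∀ X : ℝ, 1 ≤ X → ∀ s : ℤ, (s = 1 ∨ s = -1) →
    ∀ i j g₁ g₂ : ℕ, i ≤ 1 → j ≤ 2 → 0 < g₁ → 0 < g₂ → (g₁ : ℝ) ≤ X ^ (1 / 4000 : ℝ) →
    (g₂ : ℝ) ≤ X ^ (1 / 4000 : ℝ) →
    ∑ p ∈ TT X K g₁ g₂, sel (s * ((GG i j g₁ g₂ : ℕ) : ℤ)) p ^ θ ≤
      C1 * C2 ^ g₁.primeFactors.card * 128 ^ (GG i j g₁ g₂).primeFactors.card *
        (X / ((rad g₁ : ℝ) * g₁ * (g₂ : ℝ) ^ 2)) ^ ((2 : ℝ) / 3) +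
      C3 * X ^ (2 / 3 - 1 / 1000 : ℝ) := by
  classical
  obtain ⟨C1, C2, hC1, hC2, hmain⟩ := twist_main θ hθ0 hθ
  obtain ⟨C4, C5, hC4, hC5, hneg⟩ := neg_count
  obtain ⟨C6, hC6, hlarge⟩ := large_heights K (1 / 480) (by norm_num) (by norm_num)
  obtain ⟨C7, hC7, hsel⟩ := sel_le (1 / 120000) (by norm_num) K hK
  obtain ⟨C8, hC8, hom⟩ := omega_le C5 (1 / 120000) hC5 (by norm_num)
  refine ⟨C1, C2, C7 * C6 + C7 * C4 * C8, hC1, hC2, by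
    have h1 : 1 ≤ C7 * C4 * C8 := by nlinarith [mul_le_mul hC7 hC4 zero_le_one (by linarith)]
    have h2 : 0 ≤ C7 * C6 := by positivity
    linarith, ?_⟩
  intro X hX s hs i j g₁ g₂ hi hj hg1 hg2 hg1X hg2X
  have hX0 : 0 < X := by linarith
  obtain ⟨g, hg⟩ : ∃ g : ℕ, g = GG i j g₁ g₂ := ⟨_, rfl⟩
  have hg0 : 0 < g := by
    rw [hg]
    exact Nat.mul_pos (Nat.mul_pos (by positivity) (by positivity)) (Nat.mul_pos hg1 hg2)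
  obtain ⟨D, hD⟩ : ∃ D : ℤ, D = s * (g : ℤ) := ⟨_, rfl⟩
  have hDabs : D.natAbs = g := by rw [hD]; exact natAbs_twist hs g
  have hD0 : D ≠ 0 := by
    intro h
    rw [h] at hDabs
    simp at hDabs
    omega
  rw [← hg, ← hD]
  obtain ⟨P, hP⟩ : ∃ P : Finset ℕ, P = g₁.primeFactors := ⟨_, rfl⟩
  rw [← hP]
  have r1 : (1 : ℝ) ≤ g₁ := by exact_mod_cast hg1
  have r2 : (1 : ℝ) ≤ g₂ := by exact_mod_cast hg2
  have rr : (1 : ℝ) ≤ rad g₁ := by exact_mod_cast rad_pos g₁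
  have rle : (rad g₁ : ℝ) ≤ g₁ := by exact_mod_cast rad_le hg1
  obtain ⟨y, hy⟩ : ∃ y : ℝ, y = X ^ (1 / 4000 : ℝ) := ⟨_, rfl⟩
  rw [← hy] at hg1X hg2X
  have hy1 : 1 ≤ y := by rw [hy]; exact Real.one_le_rpow hX (by norm_num)
  obtain ⟨d, hd⟩ : ∃ d : ℝ, d = (rad g₁ : ℝ) * g₁ * (g₂ : ℝ) ^ 2 := ⟨_, rfl⟩
  have hd1 : 1 ≤ d := by
    rw [hd]
    have a1 : 1 ≤ (rad g₁ : ℝ) * g₁ := by nlinarith
    have a2 : 1 ≤ (g₂ : ℝ) ^ 2 := one_le_pow₀ r2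
    nlinarith
  have hd0 : 0 < d := by linarith
  have hdX : d ≤ X ^ (1 / 1000 : ℝ) := by
    have e : X ^ (1 / 1000 : ℝ) = y ^ 4 := by
      rw [hy, ← Real.rpow_natCast, ← Real.rpow_mul hX0.le]
      norm_num
    rw [e, hd]
    calc (rad g₁ : ℝ) * g₁ * (g₂ : ℝ) ^ 2 ≤ y * y * y ^ 2 := by
          have : (rad g₁ : ℝ) ≤ y := rle.trans hg1X
          gcongr
      _ = _ := by ring
  obtain ⟨Y, hY⟩ : ∃ Y : ℝ, Y = X / d := ⟨_, rfl⟩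
  rw [← hd, ← hY]
  have hYX : X ^ (1 - 1 / 1000 : ℝ) ≤ Y := by
    rw [hY, le_div_iff₀ hd0]
    calc X ^ (1 - 1 / 1000 : ℝ) * d ≤ X ^ (1 - 1 / 1000 : ℝ) * X ^ (1 / 1000 : ℝ) :=
          mul_le_mul_of_nonneg_left hdX (by positivity)
      _ = X := by
          rw [← Real.rpow_add hX0]
          norm_num
  have hYle : Y ≤ X := by rw [hY]; exact div_le_self hX0.le hd1
  have hY1 : 1 ≤ Y := (Real.one_le_rpow hX (by norm_num)).trans hYX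
  have hY0 : 0 < Y := by linarith
  set S := TT X K g₁ g₂ with hS
  set S1 := S.filter (fun p => X ^ (1 / 3 + 1 / 480 : ℝ) ≤ ((p.1 + p.2 : ℕ) : ℝ)) with hS1
  set S2 := (S.filter (fun p => ¬ X ^ (1 / 3 + 1 / 480 : ℝ) ≤ ((p.1 + p.2 : ℕ) : ℝ))).filter
    (fun p => psi3 P p ≤ ⌊Y ^ (1 / 10 : ℝ)⌋₊ ∧ ⌊Y ^ (1 / 10 : ℝ)⌋₊ ^ 2 ≤ p.1) with hS2
  set S3 := (S.filter (fun p => ¬ X ^ (1 / 3 + 1 / 480 : ℝ) ≤ ((p.1 + p.2 : ℕ) : ℝ))).filter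
    (fun p => ¬ (psi3 P p ≤ ⌊Y ^ (1 / 10 : ℝ)⌋₊ ∧ ⌊Y ^ (1 / 10 : ℝ)⌋₊ ^ 2 ≤ p.1)) with hS3
  have hsplit : ∑ p ∈ S, sel D p ^ θ = ∑ p ∈ S1, sel D p ^ θ + (∑ p ∈ S2, sel D p ^ θ +
      ∑ p ∈ S3, sel D p ^ θ) := by
    rw [hS1, hS2, hS3, sum_filter_add_sum_filter_not, sum_filter_add_sum_filter_not]
  have hradle : ∀ p ∈ S, (rad (p.1 * p.2 * (p.1 + p.2)) : ℝ) ≤ X := by
    intro p hp
    obtain ⟨a1, a2, a3, a4, a5, a6⟩ := mem_TT.1 hp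
    refine le_trans ?_ a5
    push_cast
    have : (0 : ℝ) ≤ (rad (p.1 * p.2 * (p.1 + p.2)) : ℝ) := Nat.cast_nonneg _
    have h1 : 1 ≤ ((g₁ : ℝ) * g₂) * g₂ := by
      have : 1 ≤ (g₁ : ℝ) * g₂ := by nlinarith
      nlinarith
    nlinarith
  have hradY : ∀ p ∈ S, (radP P (p.1 * p.2 * (p.1 + p.2)) : ℝ) ≤ Y := by
    intro p hp
    obtain ⟨a1, a2, a3, a4, a5, a6⟩ := mem_TT.1 hp
    have hn0 : p.1 * p.2 * (p.1 + p.2) ≠ 0 := by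
      have : 0 < p.2 := by omega
      positivity
    rw [rad_split a4 hn0, ← hP] at a5
    rw [hY, le_div_iff₀ hd0, hd]
    refine le_trans (le_of_eq ?_) a5
    push_cast
    ring
  have hcov : ∀ p : ℕ × ℕ, ¬ X ^ (1 / 3 + 1 / 480 : ℝ) ≤ ((p.1 + p.2 : ℕ) : ℝ) →
      ((p.1 + p.2 : ℕ) : ℝ) ≤ Y ^ (1 / 3 + 1 / 240 : ℝ) := by
    intro p hp
    push Not at hp
    refine hp.le.trans ?_
    calc X ^ (1 / 3 + 1 / 480 : ℝ) ≤ X ^ ((1 - 1 / 1000) * (1 / 3 + 1 / 240) : ℝ) :=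
          Real.rpow_le_rpow_of_exponent_le hX (by norm_num)
      _ = (X ^ (1 - 1 / 1000 : ℝ)) ^ (1 / 3 + 1 / 240 : ℝ) := Real.rpow_mul hX0.le _ _
      _ ≤ _ := Real.rpow_le_rpow (by positivity) hYX (by norm_num)
  -- the weight
  have hDX : ((D.natAbs : ℕ) : ℝ) ≤ 18 * X := by
    rw [hDabs, hg]
    have e : ((GG i j g₁ g₂ : ℕ) : ℝ) = (2 : ℝ) ^ i * 3 ^ j * (g₁ * g₂) := by
      unfold GG
      push_cast
      ring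
    rw [e]
    have e1 : (2 : ℝ) ^ i ≤ 2 := by
      calc (2 : ℝ) ^ i ≤ 2 ^ 1 := pow_le_pow_right₀ (by norm_num) hi
        _ = 2 := by norm_num
    have e2 : (3 : ℝ) ^ j ≤ 9 := by
      calc (3 : ℝ) ^ j ≤ 3 ^ 2 := pow_le_pow_right₀ (by norm_num) hj
        _ = 9 := by norm_num
    have e3 : y * y ≤ X := by
      rw [hy, ← Real.rpow_add hX0]
      calc X ^ (1 / 4000 + 1 / 4000 : ℝ) ≤ X ^ (1 : ℝ) :=
            Real.rpow_le_rpow_of_exponent_le hX (by norm_num)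
        _ = X := Real.rpow_one _
    calc (2 : ℝ) ^ i * 3 ^ j * (g₁ * g₂) ≤ 2 * 9 * (y * y) := by gcongr
      _ ≤ 18 * X := by linarith only [e3]
  obtain ⟨w, hw⟩ : ∃ w : ℝ, w = C7 * X ^ (1 / 120000 : ℝ) := ⟨_, rfl⟩
  have hXe : 1 ≤ X ^ (1 / 120000 : ℝ) := Real.one_le_rpow hX (by norm_num)
  have hw1 : 1 ≤ w := by rw [hw]; nlinarith
  have hwt : ∀ p ∈ S, sel D p ^ θ ≤ w := by
    intro p hp
    obtain ⟨a1, a2, a3, a4, a5, a6⟩ := mem_TT.1 hp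
    have h1 := hsel X hX D hD0 hDX p a1 (by omega) a6
    rw [← hw] at h1
    calc sel D p ^ θ ≤ w ^ θ := Real.rpow_le_rpow (sel_nonneg D p) h1 hθ0.le
      _ ≤ w ^ (1 : ℝ) := Real.rpow_le_rpow_of_exponent_le hw1 (by linarith)
      _ = w := Real.rpow_one _
  have hk1 : ∑ p ∈ S1, sel D p ^ θ ≤ C7 * C6 * X ^ (2 / 3 - 1 / 1000 : ℝ) := by
    have h1 : ∑ p ∈ S1, sel D p ^ θ ≤ S1.card * w := by
      rw [← nsmul_eq_mul]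
      exact sum_le_card_nsmul _ _ _ fun p hp => hwt p (mem_filter.1 hp).1
    have h2 := hlarge X hX S1 (by
      intro p hp
      obtain ⟨hpS, h3⟩ := mem_filter.1 hp
      obtain ⟨a1, a2, a3, a4, a5, a6⟩ := mem_TT.1 hpS
      exact ⟨a1, by omega, a3, hradle p hpS, h3, a6⟩)
    refine h1.trans ?_
    calc (S1.card : ℝ) * w ≤ (C6 * X ^ (2 / 3 - 1 / 480 / 2 : ℝ)) * w :=
          mul_le_mul_of_nonneg_right h2 (by linarith)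
      _ = C7 * C6 * (X ^ (2 / 3 - 1 / 480 / 2 : ℝ) * X ^ (1 / 120000 : ℝ)) := by rw [hw]; ring
      _ ≤ C7 * C6 * X ^ (2 / 3 - 1 / 1000 : ℝ) := by
          refine mul_le_mul_of_nonneg_left ?_ (by positivity)
          rw [← Real.rpow_add hX0]
          exact Real.rpow_le_rpow_of_exponent_le hX (by norm_num)
  have hk3 : ∑ p ∈ S3, sel D p ^ θ ≤ C7 * C4 * C8 * X ^ (2 / 3 - 1 / 1000 : ℝ) := by
    have h1 : ∑ p ∈ S3, sel D p ^ θ ≤ S3.card * w := by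
      rw [← nsmul_eq_mul]
      exact sum_le_card_nsmul _ _ _ fun p hp => hwt p (mem_filter.1 (mem_filter.1 hp).1).1
    have h2 := hneg P Y hY1 S3 (by
      intro p hp
      obtain ⟨hp1, h3⟩ := mem_filter.1 hp
      obtain ⟨hpS, h4⟩ := mem_filter.1 hp1
      obtain ⟨a1, a2, a3, a4, a5, a6⟩ := mem_TT.1 hpS
      exact ⟨a1, by omega, hcov p h4, h3⟩)
    have h5 : C5 ^ P.card ≤ C8 * X ^ (1 / 120000 : ℝ) := by
      rw [hP]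
      refine (hom g₁ hg1).trans ?_
      refine mul_le_mul_of_nonneg_left ?_ (by linarith)
      refine Real.rpow_le_rpow (Nat.cast_nonneg _) ?_ (by norm_num)
      refine hg1X.trans ?_
      rw [hy]
      calc X ^ (1 / 4000 : ℝ) ≤ X ^ (1 : ℝ) := Real.rpow_le_rpow_of_exponent_le hX (by norm_num)
        _ = X := Real.rpow_one _
    have h6 : Y ^ (2 / 3 - 1 / 120 : ℝ) ≤ X ^ (2 / 3 - 1 / 120 : ℝ) :=
      Real.rpow_le_rpow hY0.le hYle (by norm_num)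
    refine h1.trans ?_
    calc (S3.card : ℝ) * w ≤ (C4 * C5 ^ P.card * Y ^ (2 / 3 - 1 / 120 : ℝ)) * w :=
          mul_le_mul_of_nonneg_right h2 (by linarith)
      _ ≤ (C4 * (C8 * X ^ (1 / 120000 : ℝ)) * X ^ (2 / 3 - 1 / 120 : ℝ)) * w := by
          have : 0 ≤ w := by linarith
          have : 0 ≤ C4 := by linarith
          gcongr
      _ = C7 * C4 * C8 * (X ^ (1 / 120000 : ℝ) * X ^ (2 / 3 - 1 / 120 : ℝ) *
            X ^ (1 / 120000 : ℝ)) := by rw [hw]; ring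
      _ ≤ C7 * C4 * C8 * X ^ (2 / 3 - 1 / 1000 : ℝ) := by
          refine mul_le_mul_of_nonneg_left ?_ (by positivity)
          rw [← Real.rpow_add hX0, ← Real.rpow_add hX0]
          exact Real.rpow_le_rpow_of_exponent_le hX (by norm_num)
  have hk2 := hmain D hD0 P Y hY1 S2 (by
    intro p hp
    obtain ⟨hp1, h3⟩ := mem_filter.1 hp
    obtain ⟨hpS, h4⟩ := mem_filter.1 hp1
    obtain ⟨a1, a2, a3, a4, a5, a6⟩ := mem_TT.1 hpS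
    exact ⟨a1, a2, a3, hradY p hpS, h3, hcov p h4⟩)
  rw [hDabs] at hk2
  rw [hsplit]
  linarith

end Pool.Agent.TH498.CO
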