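import Pool.Agent.TH498.CO.Big

set_option autoImplicit false

/-!
# The sum for one small twist, with an additional twist by `d`
-/

namespace Pool.Agent.TH498.CO

open Finset Pool.Agent.W307.SE Pool.Agent.TH498.AR Pool.Agent.H328R2.ABC

/-- the pointwise bound, larger twists -/
theorem sel_le2 (ε : ℝ) (hε : 0 < ε) (K A : ℝ) (hK : 0 ≤ K) (hA : 0 ≤ A) : ∃ C : ℝ, 1 ≤ C ∧
    ∀ X : ℝ, 1 ≤ X → ∀ D : ℤ, D ≠ 0 → (D.natAbs : ℝ) ≤ 18 * X ^ (A + 1) → ∀ p : ℕ × ℕ,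
    0 < p.1 → 0 < p.2 → ((p.1 + p.2 : ℕ) : ℝ) ≤ X ^ K → sel D p ≤ C * X ^ ε := by
  have hA1 : 0 < A + 1 := by linarith
  obtain ⟨C, hC, h⟩ := sel_le (ε / (A + 1)) (by positivity) K hK
  refine ⟨C, hC, ?_⟩
  intro X hX D hD hDX p h1 h2 h3
  have hX0 : 0 < X := by linarith
  have hXX : X ≤ X ^ (A + 1) := by
    calc X = X ^ (1 : ℝ) := (Real.rpow_one X).symm
      _ ≤ X ^ (A + 1) := Real.rpow_le_rpow_of_exponent_le hX (by linarith)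
  have h4 := h (X ^ (A + 1)) (Real.one_le_rpow hX hA1.le) D hD hDX p h1 h2
    (h3.trans (Real.rpow_le_rpow hX0.le hXX hK))
  have e : (X ^ (A + 1)) ^ (ε / (A + 1)) = X ^ ε := by
    rw [← Real.rpow_mul hX0.le]
    congr 1
    field_simp
  rwa [e] at h4

lemma natAbs_twist2 {s : ℤ} (hs : s = 1 ∨ s = -1) (d : ℤ) (g : ℕ) :
    (d * (s * (g : ℤ))).natAbs = d.natAbs * g := by
  rw [Int.natAbs_mul, natAbs_twist hs]

lemma card_pf_mul (a b : ℕ) :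
    (a * b).primeFactors.card ≤ a.primeFactors.card + b.primeFactors.card := by
  rcases Nat.eq_zero_or_pos a with h | h
  · rw [h]; simp
  rcases Nat.eq_zero_or_pos b with h' | h'
  · rw [h']; simp
  rw [Nat.primeFactors_mul h.ne' h'.ne']
  exact card_union_le _ _

lemma GG_le {X : ℝ} {i j g₁ g₂ : ℕ} (hi : i ≤ 1) (hj : j ≤ 2) (h : (g₁ : ℝ) * g₂ ≤ X) :
    ((GG i j g₁ g₂ : ℕ) : ℝ) ≤ 18 * X := by
  have e : ((GG i j g₁ g₂ : ℕ) : ℝ) = (2 : ℝ) ^ i * 3 ^ j * (g₁ * g₂) := by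
    unfold GG
    push_cast
    ring
  rw [e]
  have e1 : (2 : ℝ) ^ i ≤ 2 := by
    calc (2 : ℝ) ^ i ≤ 2 ^ 1 := pow_le_pow_right₀ (by norm_num) hi
      _ = 2 := by norm_num
  have e2 : (3 : ℝ) ^ j ≤ 9 := by
    calc (3 : ℝ) ^ j ≤ 3 ^ 2 := pow_le_pow_right₀ (by norm_num) hj
      _ = 9 := by norm_num
  have h0 : (0 : ℝ) ≤ (g₁ : ℝ) * g₂ := by positivity
  calc (2 : ℝ) ^ i * 3 ^ j * (g₁ * g₂) ≤ 2 * 9 * X := by gcongr
    _ = 18 * X := by ring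

/-- **One small twist.** -/
theorem small_twist2 (θ : ℝ) (hθ0 : 0 < θ) (hθ : θ < 2 / 3) (K A : ℝ) (hK : 0 ≤ K) (hA : 0 ≤ A) :
    ∃ C1 C2 C3 : ℝ, 1 ≤ C1 ∧ 1 ≤ C2 ∧ 1 ≤ C3 ∧ ∀ X : ℝ, 1 ≤ X → ∀ d' : ℤ, d' ≠ 0 →
    (d'.natAbs : ℝ) ≤ X ^ A → ∀ s : ℤ, (s = 1 ∨ s = -1) → ∀ i j g₁ g₂ : ℕ, i ≤ 1 → j ≤ 2 → 0 < g₁ → 0 < g₂ → (g₁ : ℝ) ≤ X ^ (1 / 4000 : ℝ) →
    (g₂ : ℝ) ≤ X ^ (1 / 4000 : ℝ) →
    ∑ p ∈ TT X K g₁ g₂, sel (d' * (s * ((GG i j g₁ g₂ : ℕ) : ℤ))) p ^ θ ≤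
      128 ^ d'.natAbs.primeFactors.card *
      (C1 * C2 ^ g₁.primeFactors.card * 128 ^ (GG i j g₁ g₂).primeFactors.card) *
        (X / ((rad g₁ : ℝ) * g₁ * (g₂ : ℝ) ^ 2)) ^ ((2 : ℝ) / 3) +
      C3 * X ^ (2 / 3 - 1 / 1000 : ℝ) := by
  classical
  obtain ⟨C1, C2, hC1, hC2, hmain⟩ := twist_main θ hθ0 hθ
  obtain ⟨C4, C5, hC4, hC5, hneg⟩ := neg_count
  obtain ⟨C6, hC6, hlarge⟩ := large_heights K (1 / 480) (by norm_num) (by norm_num)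
  obtain ⟨C7, hC7, hsel⟩ := sel_le2 (1 / 120000) (by norm_num) K A hK hA
  obtain ⟨C8, hC8, hom⟩ := omega_le C5 (1 / 120000) hC5 (by norm_num)
  refine ⟨C1, C2, C7 * C6 + C7 * C4 * C8, hC1, hC2, by
    have h1 : 1 ≤ C7 * C4 * C8 := by nlinarith [mul_le_mul hC7 hC4 zero_le_one (by linarith)]
    have h2 : 0 ≤ C7 * C6 := by positivity
    linarith, ?_⟩
  intro X hX d' hd' hd'X s hs i j g₁ g₂ hi hj hg1 hg2 hg1X hg2X
  have hX0 : 0 < X := by linarith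
  obtain ⟨g, hg⟩ : ∃ g : ℕ, g = GG i j g₁ g₂ := ⟨_, rfl⟩
  have hg0 : 0 < g := by
    rw [hg]
    exact Nat.mul_pos (Nat.mul_pos (by positivity) (by positivity)) (Nat.mul_pos hg1 hg2)
  obtain ⟨D, hD⟩ : ∃ D : ℤ, D = d' * (s * (g : ℤ)) := ⟨_, rfl⟩
  have hDabs : D.natAbs = d'.natAbs * g := by rw [hD]; exact natAbs_twist2 hs d' g
  have hD0 : D ≠ 0 := by
    have h1 : 0 < d'.natAbs := Int.natAbs_pos.2 hd'
    have h2 : 0 < D.natAbs := by rw [hDabs]; exact Nat.mul_pos h1 hg0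
    exact Int.natAbs_pos.1 h2
  rw [← hg, ← hD]
  obtain ⟨P, hP⟩ : ∃ P : Finset ℕ, P = g₁.primeFactors := ⟨_, rfl⟩
  rw [← hP]
  have r1 : (1 : ℝ) ≤ g₁ := by exact_mod_cast hg1
  have r2 : (1 : ℝ) ≤ g₂ := by exact_mod_cast hg2
  have rr : (1 : ℝ) ≤ rad g₁ := by exact_mod_cast rad_pos g₁
  have rle : (rad g₁ : ℝ) ≤ g₁ := by exact_mod_cast rad_le hg1
  obtain ⟨y, hy⟩ : ∃ y : ℝ, y = X ^ (1 / 4000 : ℝ) := ⟨_, rfl⟩
  rw [← hy] at hg1X hg2X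
  have hy1 : 1 ≤ y := by rw [hy]; exact Real.one_le_rpow hX (by norm_num)
  obtain ⟨d, hd⟩ : ∃ d : ℝ, d = (rad g₁ : ℝ) * g₁ * (g₂ : ℝ) ^ 2 := ⟨_, rfl⟩
  have hd1 : 1 ≤ d := by
    rw [hd]
    have a1 : 1 ≤ (rad g₁ : ℝ) * g₁ := by nlinarith
    have a2 : 1 ≤ (g₂ : ℝ) ^ 2 := one_le_pow₀ r2
    nlinarith
  have hd0 : 0 < d := by linarith
  have hdX : d ≤ X ^ (1 / 1000 : ℝ) := by
    have e : X ^ (1 / 1000 : ℝ) = y ^ 4 := by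
      rw [hy, ← Real.rpow_natCast, ← Real.rpow_mul hX0.le]
      norm_num
    rw [e, hd]
    calc (rad g₁ : ℝ) * g₁ * (g₂ : ℝ) ^ 2 ≤ y * y * y ^ 2 := by
          have : (rad g₁ : ℝ) ≤ y := rle.trans hg1X
          gcongr
      _ = _ := by ring
  obtain ⟨Y, hY⟩ : ∃ Y : ℝ, Y = X / d := ⟨_, rfl⟩
  rw [← hd, ← hY]
  have hYX : X ^ (1 - 1 / 1000 : ℝ) ≤ Y := by
    rw [hY, le_div_iff₀ hd0]
    calc X ^ (1 - 1 / 1000 : ℝ) * d ≤ X ^ (1 - 1 / 1000 : ℝ) * X ^ (1 / 1000 : ℝ) :=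
          mul_le_mul_of_nonneg_left hdX (by positivity)
      _ = X := by
          rw [← Real.rpow_add hX0]
          norm_num
  have hYle : Y ≤ X := by rw [hY]; exact div_le_self hX0.le hd1
  have hY1 : 1 ≤ Y := (Real.one_le_rpow hX (by norm_num)).trans hYX
  have hY0 : 0 < Y := by linarith
  set S := TT X K g₁ g₂ with hS
  set S1 := S.filter (fun p => X ^ (1 / 3 + 1 / 480 : ℝ) ≤ ((p.1 + p.2 : ℕ) : ℝ)) with hS1
  set S2 := (S.filter (fun p => ¬ X ^ (1 / 3 + 1 / 480 : ℝ) ≤ ((p.1 + p.2 : ℕ) : ℝ))).filter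
    (fun p => psi3 P p ≤ ⌊Y ^ (1 / 10 : ℝ)⌋₊ ∧ ⌊Y ^ (1 / 10 : ℝ)⌋₊ ^ 2 ≤ p.1) with hS2
  set S3 := (S.filter (fun p => ¬ X ^ (1 / 3 + 1 / 480 : ℝ) ≤ ((p.1 + p.2 : ℕ) : ℝ))).filter
    (fun p => ¬ (psi3 P p ≤ ⌊Y ^ (1 / 10 : ℝ)⌋₊ ∧ ⌊Y ^ (1 / 10 : ℝ)⌋₊ ^ 2 ≤ p.1)) with hS3
  have hsplit : ∑ p ∈ S, sel D p ^ θ = ∑ p ∈ S1, sel D p ^ θ + (∑ p ∈ S2, sel D p ^ θ +
      ∑ p ∈ S3, sel D p ^ θ) := by
    rw [hS1, hS2, hS3, sum_filter_add_sum_filter_not, sum_filter_add_sum_filter_not]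
  have hradle : ∀ p ∈ S, (rad (p.1 * p.2 * (p.1 + p.2)) : ℝ) ≤ X := by
    intro p hp
    obtain ⟨a1, a2, a3, a4, a5, a6⟩ := mem_TT.1 hp
    refine le_trans ?_ a5
    push_cast
    have : (0 : ℝ) ≤ (rad (p.1 * p.2 * (p.1 + p.2)) : ℝ) := Nat.cast_nonneg _
    have h1 : 1 ≤ ((g₁ : ℝ) * g₂) * g₂ := by
      have : 1 ≤ (g₁ : ℝ) * g₂ := by nlinarith
      nlinarith
    nlinarith
  have hradY : ∀ p ∈ S, (radP P (p.1 * p.2 * (p.1 + p.2)) : ℝ) ≤ Y := by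
    intro p hp
    obtain ⟨a1, a2, a3, a4, a5, a6⟩ := mem_TT.1 hp
    have hn0 : p.1 * p.2 * (p.1 + p.2) ≠ 0 := by
      have : 0 < p.2 := by omega
      positivity
    rw [rad_split a4 hn0, ← hP] at a5
    rw [hY, le_div_iff₀ hd0, hd]
    refine le_trans (le_of_eq ?_) a5
    push_cast
    ring
  have hcov : ∀ p : ℕ × ℕ, ¬ X ^ (1 / 3 + 1 / 480 : ℝ) ≤ ((p.1 + p.2 : ℕ) : ℝ) →
      ((p.1 + p.2 : ℕ) : ℝ) ≤ Y ^ (1 / 3 + 1 / 240 : ℝ) := by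
    intro p hp
    push Not at hp
    refine hp.le.trans ?_
    calc X ^ (1 / 3 + 1 / 480 : ℝ) ≤ X ^ ((1 - 1 / 1000) * (1 / 3 + 1 / 240) : ℝ) :=
          Real.rpow_le_rpow_of_exponent_le hX (by norm_num)
      _ = (X ^ (1 - 1 / 1000 : ℝ)) ^ (1 / 3 + 1 / 240 : ℝ) := Real.rpow_mul hX0.le _ _
      _ ≤ _ := Real.rpow_le_rpow (by positivity) hYX (by norm_num)
  -- the weight
  have hDX : ((D.natAbs : ℕ) : ℝ) ≤ 18 * X ^ (A + 1) := by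
    rw [hDabs, hg, Nat.cast_mul]
    have e3 : y * y ≤ X := by
      rw [hy, ← Real.rpow_add hX0]
      calc X ^ (1 / 4000 + 1 / 4000 : ℝ) ≤ X ^ (1 : ℝ) :=
            Real.rpow_le_rpow_of_exponent_le hX (by norm_num)
        _ = X := Real.rpow_one _
    have e4 : (g₁ : ℝ) * g₂ ≤ X := by
      refine le_trans ?_ e3
      gcongr
    have e5 := GG_le hi hj e4
    calc (d'.natAbs : ℝ) * ((GG i j g₁ g₂ : ℕ) : ℝ) ≤ X ^ A * (18 * X) := by gcongr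
      _ = 18 * (X ^ A * X ^ (1 : ℝ)) := by rw [Real.rpow_one]; ring
      _ = 18 * X ^ (A + 1) := by rw [← Real.rpow_add hX0]
  obtain ⟨w, hw⟩ : ∃ w : ℝ, w = C7 * X ^ (1 / 120000 : ℝ) := ⟨_, rfl⟩
  have hXe : 1 ≤ X ^ (1 / 120000 : ℝ) := Real.one_le_rpow hX (by norm_num)
  have hw1 : 1 ≤ w := by rw [hw]; nlinarith
  have hwt : ∀ p ∈ S, sel D p ^ θ ≤ w := by
    intro p hp
    obtain ⟨a1, a2, a3, a4, a5, a6⟩ := mem_TT.1 hp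
    have h1 := hsel X hX D hD0 hDX p a1 (by omega) a6
    rw [← hw] at h1
    calc sel D p ^ θ ≤ w ^ θ := Real.rpow_le_rpow (sel_nonneg D p) h1 hθ0.le
      _ ≤ w ^ (1 : ℝ) := Real.rpow_le_rpow_of_exponent_le hw1 (by linarith)
      _ = w := Real.rpow_one _
  have hk1 : ∑ p ∈ S1, sel D p ^ θ ≤ C7 * C6 * X ^ (2 / 3 - 1 / 1000 : ℝ) := by
    have h1 : ∑ p ∈ S1, sel D p ^ θ ≤ S1.card * w := by
      rw [← nsmul_eq_mul]
      exact sum_le_card_nsmul _ _ _ fun p hp => hwt p (mem_filter.1 hp).1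
    have h2 := hlarge X hX S1 (by
      intro p hp
      obtain ⟨hpS, h3⟩ := mem_filter.1 hp
      obtain ⟨a1, a2, a3, a4, a5, a6⟩ := mem_TT.1 hpS
      exact ⟨a1, by omega, a3, hradle p hpS, h3, a6⟩)
    refine h1.trans ?_
    calc (S1.card : ℝ) * w ≤ (C6 * X ^ (2 / 3 - 1 / 480 / 2 : ℝ)) * w :=
          mul_le_mul_of_nonneg_right h2 (by linarith)
      _ = C7 * C6 * (X ^ (2 / 3 - 1 / 480 / 2 : ℝ) * X ^ (1 / 120000 : ℝ)) := by rw [hw]; ring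
      _ ≤ C7 * C6 * X ^ (2 / 3 - 1 / 1000 : ℝ) := by
          refine mul_le_mul_of_nonneg_left ?_ (by positivity)
          rw [← Real.rpow_add hX0]
          exact Real.rpow_le_rpow_of_exponent_le hX (by norm_num)
  have hk3 : ∑ p ∈ S3, sel D p ^ θ ≤ C7 * C4 * C8 * X ^ (2 / 3 - 1 / 1000 : ℝ) := by
    have h1 : ∑ p ∈ S3, sel D p ^ θ ≤ S3.card * w := by
      rw [← nsmul_eq_mul]
      exact sum_le_card_nsmul _ _ _ fun p hp => hwt p (mem_filter.1 (mem_filter.1 hp).1).1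
    have h2 := hneg P Y hY1 S3 (by
      intro p hp
      obtain ⟨hp1, h3⟩ := mem_filter.1 hp
      obtain ⟨hpS, h4⟩ := mem_filter.1 hp1
      obtain ⟨a1, a2, a3, a4, a5, a6⟩ := mem_TT.1 hpS
      exact ⟨a1, by omega, hcov p h4, h3⟩)
    have h5 : C5 ^ P.card ≤ C8 * X ^ (1 / 120000 : ℝ) := by
      rw [hP]
      refine (hom g₁ hg1).trans ?_
      refine mul_le_mul_of_nonneg_left ?_ (by linarith)
      refine Real.rpow_le_rpow (Nat.cast_nonneg _) ?_ (by norm_num)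
      refine hg1X.trans ?_
      rw [hy]
      calc X ^ (1 / 4000 : ℝ) ≤ X ^ (1 : ℝ) := Real.rpow_le_rpow_of_exponent_le hX (by norm_num)
        _ = X := Real.rpow_one _
    have h6 : Y ^ (2 / 3 - 1 / 120 : ℝ) ≤ X ^ (2 / 3 - 1 / 120 : ℝ) :=
      Real.rpow_le_rpow hY0.le hYle (by norm_num)
    refine h1.trans ?_
    calc (S3.card : ℝ) * w ≤ (C4 * C5 ^ P.card * Y ^ (2 / 3 - 1 / 120 : ℝ)) * w :=
          mul_le_mul_of_nonneg_right h2 (by linarith)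
      _ ≤ (C4 * (C8 * X ^ (1 / 120000 : ℝ)) * X ^ (2 / 3 - 1 / 120 : ℝ)) * w := by
          have : 0 ≤ w := by linarith
          have : 0 ≤ C4 := by linarith
          gcongr
      _ = C7 * C4 * C8 * (X ^ (1 / 120000 : ℝ) * X ^ (2 / 3 - 1 / 120 : ℝ) *
            X ^ (1 / 120000 : ℝ)) := by rw [hw]; ring
      _ ≤ C7 * C4 * C8 * X ^ (2 / 3 - 1 / 1000 : ℝ) := by
          refine mul_le_mul_of_nonneg_left ?_ (by positivity)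
          rw [← Real.rpow_add hX0, ← Real.rpow_add hX0]
          exact Real.rpow_le_rpow_of_exponent_le hX (by norm_num)
  have hk2 := hmain D hD0 P Y hY1 S2 (by
    intro p hp
    obtain ⟨hp1, h3⟩ := mem_filter.1 hp
    obtain ⟨hpS, h4⟩ := mem_filter.1 hp1
    obtain ⟨a1, a2, a3, a4, a5, a6⟩ := mem_TT.1 hpS
    exact ⟨a1, a2, a3, hradY p hpS, h3, hcov p h4⟩)
  rw [hDabs] at hk2
  have hk2' : ∑ p ∈ S2, sel D p ^ θ ≤ 128 ^ d'.natAbs.primeFactors.card *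
      (C1 * C2 ^ P.card * 128 ^ g.primeFactors.card) * Y ^ ((2 : ℝ) / 3) := by
    refine hk2.trans ?_
    have h1 : (128 : ℝ) ^ (d'.natAbs * g).primeFactors.card ≤
        128 ^ d'.natAbs.primeFactors.card * 128 ^ g.primeFactors.card := by
      rw [← pow_add]
      exact pow_le_pow_right₀ (by norm_num) (card_pf_mul _ _)
    have h2 : 0 ≤ C1 * C2 ^ P.card := by positivity
    calc C1 * C2 ^ P.card * 128 ^ (d'.natAbs * g).primeFactors.card * Y ^ ((2 : ℝ) / 3)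
        ≤ C1 * C2 ^ P.card * (128 ^ d'.natAbs.primeFactors.card * 128 ^ g.primeFactors.card) *
          Y ^ ((2 : ℝ) / 3) := by gcongr
      _ = _ := by ring
  rw [hsplit]
  linarith

end Pool.Agent.TH498.CO
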