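import Pool.Agent.TH498.CO.U1

set_option autoImplicit false

/-!
# The large twists, with an additional twist by `d`
-/

namespace Pool.Agent.TH498.CO

open Finset Pool.Agent.W307.SE Pool.Agent.TH498.AR Pool.Agent.H328R2.ABC

/-- the weights of the pairs of a twist -/
theorem wt_le2 (θ : ℝ) (hθ0 : 0 < θ) (hθ : θ < 2 / 3) (K A e : ℝ) (hK : 0 ≤ K) (hA : 0 ≤ A)
    (he : 0 < e) :
    ∃ C : ℝ, 1 ≤ C ∧ ∀ X : ℝ, 1 ≤ X → ∀ d' : ℤ, d' ≠ 0 → (d'.natAbs : ℝ) ≤ X ^ A →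
    ∀ s : ℤ, (s = 1 ∨ s = -1) → ∀ i j g₁ g₂ : ℕ, i ≤ 1 → j ≤ 2 → 0 < g₁ → 0 < g₂ →
    ∀ p ∈ TT X K g₁ g₂, sel (d' * (s * ((GG i j g₁ g₂ : ℕ) : ℤ))) p ^ θ ≤ C * X ^ e := by
  obtain ⟨C7, hC7, hsel⟩ := sel_le2 e he K A hK hA
  refine ⟨C7, hC7, ?_⟩
  intro X hX d' hd' hd'X s hs i j g₁ g₂ hi hj hg1 hg2 p hp
  have hX0 : 0 < X := by linarith
  obtain ⟨a1, a2, a3, a4, a5, a6⟩ := mem_TT.1 hp
  obtain ⟨g, hg⟩ : ∃ g : ℕ, g = GG i j g₁ g₂ := ⟨_, rfl⟩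
  have hg0 : 0 < g := by
    rw [hg]
    exact Nat.mul_pos (Nat.mul_pos (by positivity) (by positivity)) (Nat.mul_pos hg1 hg2)
  obtain ⟨D, hD⟩ : ∃ D : ℤ, D = d' * (s * (g : ℤ)) := ⟨_, rfl⟩
  have hDabs : D.natAbs = d'.natAbs * g := by rw [hD]; exact natAbs_twist2 hs d' g
  have hD0 : D ≠ 0 := by
    have h1 : 0 < d'.natAbs := Int.natAbs_pos.2 hd'
    have h2 : 0 < D.natAbs := by rw [hDabs]; exact Nat.mul_pos h1 hg0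
    exact Int.natAbs_pos.1 h2
  rw [← hg, ← hD]
  have hggX : (g₁ : ℝ) * g₂ ≤ X := by
    have h1 : g₁ * g₂ ≤ rad (p.1 * p.2 * (p.1 + p.2)) * (g₁ * g₂) * g₂ := by
      calc g₁ * g₂ = 1 * (g₁ * g₂) * 1 := by ring
        _ ≤ _ := Nat.mul_le_mul (Nat.mul_le_mul_right _ (rad_pos _)) hg2
    have h2 : ((g₁ * g₂ : ℕ) : ℝ) ≤ X := le_trans (by exact_mod_cast h1) a5
    exact_mod_cast h2
  have hDX : ((D.natAbs : ℕ) : ℝ) ≤ 18 * X ^ (A + 1) := by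
    rw [hDabs, hg, Nat.cast_mul]
    have e5 := GG_le hi hj hggX
    calc (d'.natAbs : ℝ) * ((GG i j g₁ g₂ : ℕ) : ℝ) ≤ X ^ A * (18 * X) := by gcongr
      _ = 18 * (X ^ A * X ^ (1 : ℝ)) := by rw [Real.rpow_one]; ring
      _ = 18 * X ^ (A + 1) := by rw [← Real.rpow_add hX0]
  obtain ⟨w, hw⟩ : ∃ w : ℝ, w = C7 * X ^ e := ⟨_, rfl⟩
  have hXe : 1 ≤ X ^ e := Real.one_le_rpow hX he.le
  have hw1 : 1 ≤ w := by rw [hw]; nlinarith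
  have h1 := hsel X hX D hD0 hDX p a1 (by omega) a6
  rw [← hw] at h1 ⊢
  calc sel D p ^ θ ≤ w ^ θ := Real.rpow_le_rpow (sel_nonneg D p) h1 hθ0.le
    _ ≤ w ^ (1 : ℝ) := Real.rpow_le_rpow_of_exponent_le hw1 (by linarith)
    _ = w := Real.rpow_one _

/-- **The large twists.** -/
theorem big_twists2 (θ : ℝ) (hθ0 : 0 < θ) (hθ : θ < 2 / 3) (K A : ℝ) (hK : 0 ≤ K) (hA : 0 ≤ A) :
    ∃ C : ℝ, 1 ≤ C ∧ ∀ X : ℝ, 1 ≤ X → ∀ d' : ℤ, d' ≠ 0 → (d'.natAbs : ℝ) ≤ X ^ A →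
    ∀ s : ℤ, (s = 1 ∨ s = -1) → ∀ i j : ℕ, i ≤ 1 → j ≤ 2 →
    ∑ x ∈ ((Icc 1 ⌊X⌋₊) ×ˢ (Icc 1 ⌊X⌋₊)).filter (fun x : ℕ × ℕ =>
        ¬ ((x.1 : ℝ) ≤ X ^ (1 / 4000 : ℝ) ∧ (x.2 : ℝ) ≤ X ^ (1 / 4000 : ℝ))),
      ∑ p ∈ TT X K x.1 x.2, sel (d' * (s * ((GG i j x.1 x.2 : ℕ) : ℤ))) p ^ θ ≤ C * X ^ ((2 : ℝ) / 3) := by
  classical
  obtain ⟨e, he⟩ : ∃ e : ℝ, e = 1 / 120000 := ⟨_, rfl⟩
  have he0 : 0 < e := by rw [he]; norm_num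
  obtain ⟨C1, hC1, hwt⟩ := wt_le2 θ hθ0 hθ K A e hK hA he0
  obtain ⟨C2, hC2, huu⟩ := uu_card K e hK he0
  obtain ⟨C3, hC3, hsm⟩ := Pool.Agent.TH867.SR.smooth_count e he0
  have hsum : Summable fun n : ℕ => ((n : ℝ) ^ (7 / 6 : ℝ))⁻¹ :=
    Real.summable_nat_rpow_inv.2 (by norm_num)
  obtain ⟨Z, hZ⟩ : ∃ Z : ℝ, Z = ∑' n : ℕ, ((n : ℝ) ^ (7 / 6 : ℝ))⁻¹ := ⟨_, rfl⟩
  have hZ0 : 0 ≤ Z := by rw [hZ]; exact tsum_nonneg fun n => by positivity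
  refine ⟨C1 * (C2 * C3 * Z) + 1, by
    have : 0 ≤ C1 * (C2 * C3 * Z) := by positivity
    linarith, ?_⟩
  intro X hX d' hd' hd'X s hs i j hi hj
  have hX0 : 0 < X := by linarith
  obtain ⟨B, hB⟩ : ∃ B : ℕ, B = ⌊X⌋₊ := ⟨_, rfl⟩
  have hBX : (B : ℝ) ≤ X := by rw [hB]; exact Nat.floor_le hX0.le
  have hB1 : 1 ≤ B := by rw [hB]; exact Nat.le_floor (by exact_mod_cast hX)
  rw [← hB]
  set Q : Finset (ℕ × ℕ) := ((Icc 1 B) ×ˢ (Icc 1 B)).filter (fun x : ℕ × ℕ =>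
    ¬ ((x.1 : ℝ) ≤ X ^ (1 / 4000 : ℝ) ∧ (x.2 : ℝ) ≤ X ^ (1 / 4000 : ℝ))) with hQ
  have hQm : ∀ x ∈ Q, 0 < x.1 ∧ 0 < x.2 ∧ x.1 ≤ B ∧ x.2 ≤ B ∧
      ¬ ((x.1 : ℝ) ≤ X ^ (1 / 4000 : ℝ) ∧ (x.2 : ℝ) ≤ X ^ (1 / 4000 : ℝ)) := by
    intro x hx
    obtain ⟨h1, h2⟩ := mem_filter.1 hx
    obtain ⟨h3, h4⟩ := mem_product.1 h1
    obtain ⟨h5, h6⟩ := mem_Icc.1 h3
    obtain ⟨h7, h8⟩ := mem_Icc.1 h4
    exact ⟨h5, h7, h6, h8, h2⟩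
  have hk1 : ∑ x ∈ Q, ∑ p ∈ TT X K x.1 x.2, sel (d' * (s * ((GG i j x.1 x.2 : ℕ) : ℤ))) p ^ θ ≤
      (C1 * X ^ e) * ∑ x ∈ Q, ((TT X K x.1 x.2).card : ℝ) := by
    rw [mul_sum]
    refine sum_le_sum fun x hx => ?_
    obtain ⟨h1, h2, -⟩ := hQm x hx
    refine (sum_le_card_nsmul _ _ _ (hwt X hX d' hd' hd'X s hs i j x.1 x.2 hi hj h1 h2)).trans (le_of_eq ?_)
    rw [nsmul_eq_mul, mul_comm]
  -- the number of the triples `(g₁, g₂, p)`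
  have hk2 : ∑ x ∈ Q, (TT X K x.1 x.2).card ≤ ∑ g₂ ∈ Icc 1 B, ∑ p ∈ UU X K g₂,
      ((Icc 1 B).filter fun a => a.primeFactors ⊆
        (rad (p.1 * p.2 * (p.1 + p.2))).primeFactors).card := by
    have e1 : ∑ x ∈ Q, (TT X K x.1 x.2).card = (Q.sigma fun x => TT X K x.1 x.2).card :=
      (card_sigma _ _).symm
    have e2 : ∑ g₂ ∈ Icc 1 B, ∑ p ∈ UU X K g₂,
        ((Icc 1 B).filter fun a => a.primeFactors ⊆
          (rad (p.1 * p.2 * (p.1 + p.2))).primeFactors).card =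
        ((Icc 1 B).sigma fun g₂ => (UU X K g₂).sigma fun p =>
          (Icc 1 B).filter fun a => a.primeFactors ⊆
            (rad (p.1 * p.2 * (p.1 + p.2))).primeFactors).card := by
      rw [card_sigma]
      exact sum_congr rfl fun g₂ _ => (card_sigma _ _).symm
    rw [e1, e2]
    refine card_le_card_of_injOn (fun y => ⟨y.1.2, y.2, y.1.1⟩) ?_ ?_
    · rintro ⟨x, p⟩ hy
      rw [mem_coe, mem_sigma] at hy
      obtain ⟨hx, hp⟩ := hy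
      simp only at hx hp
      obtain ⟨h1, h2, h3, h4, h5⟩ := hQm x hx
      obtain ⟨a1, a2, a3, a4, a5, a6⟩ := mem_TT.1 hp
      simp only [mem_coe, mem_sigma, mem_filter, mem_Icc]
      refine ⟨⟨h2, h4⟩, big_sub hX h1 h2 h5 hp, ⟨h1, h3⟩, ?_⟩
      have hn0 : p.1 * p.2 * (p.1 + p.2) ≠ 0 := by
        have : 0 < p.2 := by omega
        positivity
      rw [rad, Nat.primeFactors_prod fun q hq => Nat.prime_of_mem_primeFactors hq]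
      exact Nat.primeFactors_mono a4 hn0
    · rintro ⟨x, p⟩ _ ⟨x', p'⟩ _ h
      simp only [Sigma.mk.injEq, heq_eq_eq] at h
      obtain ⟨h1, h2, h3⟩ := h
      have : x = x' := Prod.ext h3 h1
      subst this
      rw [h2]
  have hk3 : ∀ g₂ ∈ Icc 1 B, ∑ p ∈ UU X K g₂, (((Icc 1 B).filter fun a => a.primeFactors ⊆
        (rad (p.1 * p.2 * (p.1 + p.2))).primeFactors).card : ℝ) ≤
      (C2 * C3 * X ^ (2 / 3 - 1 / 24000 + 4 * e : ℝ)) * ((g₂ : ℝ) ^ (7 / 6 : ℝ))⁻¹ := by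
    intro g₂ hg
    obtain ⟨hg1, -⟩ := mem_Icc.1 hg
    have h1 : ∀ p ∈ UU X K g₂, (((Icc 1 B).filter fun a => a.primeFactors ⊆
        (rad (p.1 * p.2 * (p.1 + p.2))).primeFactors).card : ℝ) ≤ C3 * X ^ e * X ^ e := by
      intro p hp
      unfold UU at hp
      obtain ⟨-, -, -, -, -, h4', -⟩ := mem_filter.1 hp
      have h2 := hsm B (rad (p.1 * p.2 * (p.1 + p.2))) hB1 (rad_pos _)
      refine h2.trans ?_
      refine mul_le_mul ?_ (Real.rpow_le_rpow (Nat.cast_nonneg _) h4' he0.le) (by positivity)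
        (by positivity)
      exact mul_le_mul_of_nonneg_left (Real.rpow_le_rpow (Nat.cast_nonneg _) hBX he0.le) hC3.le
    refine (sum_le_card_nsmul _ _ _ h1).trans ?_
    rw [nsmul_eq_mul]
    calc ((UU X K g₂).card : ℝ) * (C3 * X ^ e * X ^ e)
        ≤ (C2 * X ^ (2 / 3 - 1 / 24000 + 2 * e : ℝ) * ((g₂ : ℝ) ^ (7 / 6 : ℝ))⁻¹) *
          (C3 * X ^ e * X ^ e) := mul_le_mul_of_nonneg_right (huu X hX g₂ hg1) (by positivity)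
      _ = (C2 * C3 * (X ^ (2 / 3 - 1 / 24000 + 2 * e : ℝ) * X ^ e * X ^ e)) *
          ((g₂ : ℝ) ^ (7 / 6 : ℝ))⁻¹ := by ring
      _ = _ := by
          rw [← Real.rpow_add hX0, ← Real.rpow_add hX0]
          congr 3
          ring
  have hk4 : ∑ x ∈ Q, ((TT X K x.1 x.2).card : ℝ) ≤
      C2 * C3 * X ^ (2 / 3 - 1 / 24000 + 4 * e : ℝ) * Z := by
    have h1 : ∑ x ∈ Q, ((TT X K x.1 x.2).card : ℝ) ≤ ∑ g₂ ∈ Icc 1 B, ∑ p ∈ UU X K g₂,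
        (((Icc 1 B).filter fun a => a.primeFactors ⊆
        (rad (p.1 * p.2 * (p.1 + p.2))).primeFactors).card : ℝ) := by exact_mod_cast hk2
    refine h1.trans ((sum_le_sum hk3).trans ?_)
    rw [← mul_sum]
    refine mul_le_mul_of_nonneg_left ?_ (by positivity)
    rw [hZ]
    exact hsum.sum_le_tsum _ (fun n _ => by positivity)
  refine hk1.trans ?_
  have hXe : 0 < X ^ e := by positivity
  calc (C1 * X ^ e) * ∑ x ∈ Q, ((TT X K x.1 x.2).card : ℝ)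
      ≤ (C1 * X ^ e) * (C2 * C3 * X ^ (2 / 3 - 1 / 24000 + 4 * e : ℝ) * Z) :=
        mul_le_mul_of_nonneg_left hk4 (by positivity)
    _ = C1 * (C2 * C3 * Z) * (X ^ e * X ^ (2 / 3 - 1 / 24000 + 4 * e : ℝ)) := by ring
    _ = C1 * (C2 * C3 * Z) * X ^ ((2 : ℝ) / 3) := by
        rw [← Real.rpow_add hX0]
        congr 2
        rw [he]
        norm_num
    _ ≤ _ := mul_le_mul_of_nonneg_right (by linarith) (by positivity)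

end Pool.Agent.TH498.CO
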