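import Pool.Agent.TH498.CO.Tot
import Pool.Agent.TH498.CO.U2

set_option autoImplicit false

/-!
# The sum over all the twists, with an additional twist by `d`
-/

namespace Pool.Agent.TH498.CO

open Finset Pool.Agent.W307.SE Pool.Agent.TH498.AR Pool.Agent.H328R2.ABC

/-- **The small twists.** -/
theorem small_twists2 (θ : ℝ) (hθ0 : 0 < θ) (hθ : θ < 2 / 3) (K A : ℝ) (hK : 0 ≤ K)
    (hA : 0 ≤ A) :
    ∃ C : ℝ, 1 ≤ C ∧ ∀ X : ℝ, 1 ≤ X → ∀ d' : ℤ, d' ≠ 0 → (d'.natAbs : ℝ) ≤ X ^ A →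
    ∀ s : ℤ, (s = 1 ∨ s = -1) → ∀ i j : ℕ, i ≤ 1 → j ≤ 2 →
    ∑ x ∈ ((Icc 1 ⌊X⌋₊) ×ˢ (Icc 1 ⌊X⌋₊)).filter (fun x : ℕ × ℕ =>
        (x.1 : ℝ) ≤ X ^ (1 / 4000 : ℝ) ∧ (x.2 : ℝ) ≤ X ^ (1 / 4000 : ℝ)),
      ∑ p ∈ TT X K x.1 x.2, sel (d' * (s * ((GG i j x.1 x.2 : ℕ) : ℤ))) p ^ θ ≤
      C * 128 ^ d'.natAbs.primeFactors.card * X ^ ((2 : ℝ) / 3) := by
  classical
  obtain ⟨C1, C2, C3, hC1, hC2, hC3, hst⟩ := small_twist2 θ hθ0 hθ K A hK hA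
  obtain ⟨D1, hD1, hs1⟩ := sum_g1 (C2 * 128) (by linarith)
  obtain ⟨D2, hD2, hs2⟩ := sum_g2 128 (by norm_num)
  refine ⟨C1 * 128 ^ 2 * (D1 * D2) + C3, by
    have : 0 ≤ C1 * 128 ^ 2 * (D1 * D2) := by positivity
    linarith, ?_⟩
  intro X hX d' hd' hd'X s hs i j hi hj
  have hX0 : 0 < X := by linarith
  obtain ⟨V, hV⟩ : ∃ V : ℝ, V = 128 ^ d'.natAbs.primeFactors.card := ⟨_, rfl⟩
  have hV1 : 1 ≤ V := by rw [hV]; exact one_le_pow₀ (by norm_num)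
  rw [← hV]
  obtain ⟨B, hB⟩ : ∃ B : ℕ, B = ⌊X⌋₊ := ⟨_, rfl⟩
  rw [← hB]
  set Q : Finset (ℕ × ℕ) := ((Icc 1 B) ×ˢ (Icc 1 B)).filter (fun x : ℕ × ℕ =>
    (x.1 : ℝ) ≤ X ^ (1 / 4000 : ℝ) ∧ (x.2 : ℝ) ≤ X ^ (1 / 4000 : ℝ)) with hQ
  have hQm : ∀ x ∈ Q, 0 < x.1 ∧ 0 < x.2 ∧ (x.1 : ℝ) ≤ X ^ (1 / 4000 : ℝ) ∧
      (x.2 : ℝ) ≤ X ^ (1 / 4000 : ℝ) := by
    intro x hx
    obtain ⟨h1, h2⟩ := mem_filter.1 hx
    obtain ⟨h3, h4⟩ := mem_product.1 h1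
    exact ⟨(mem_Icc.1 h3).1, (mem_Icc.1 h4).1, h2.1, h2.2⟩
  have hk1 : ∀ x ∈ Q, ∑ p ∈ TT X K x.1 x.2, sel (d' * (s * ((GG i j x.1 x.2 : ℕ) : ℤ))) p ^ θ ≤
      V * (C1 * 128 ^ 2) * X ^ ((2 : ℝ) / 3) *
        (((C2 * 128) ^ x.1.primeFactors.card * (((rad x.1 : ℝ) * x.1) ^ ((2 : ℝ) / 3))⁻¹) *
        (128 ^ x.2.primeFactors.card * (((x.2 : ℝ) ^ 2) ^ ((2 : ℝ) / 3))⁻¹)) +
      C3 * X ^ (2 / 3 - 1 / 1000 : ℝ) := by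
    intro x hx
    obtain ⟨h1, h2, h3, h4⟩ := hQm x hx
    refine (hst X hX d' hd' hd'X s hs i j x.1 x.2 hi hj h1 h2 h3 h4).trans ?_
    rw [← hV]
    refine add_le_add ?_ le_rfl
    have r1 : (0 : ℝ) < x.1 := by exact_mod_cast h1
    have r2 : (0 : ℝ) < x.2 := by exact_mod_cast h2
    have rr : (0 : ℝ) < rad x.1 := by exact_mod_cast rad_pos x.1
    have e1 : (X / ((rad x.1 : ℝ) * x.1 * (x.2 : ℝ) ^ 2)) ^ ((2 : ℝ) / 3) =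
        X ^ ((2 : ℝ) / 3) * ((((rad x.1 : ℝ) * x.1) ^ ((2 : ℝ) / 3))⁻¹ *
          (((x.2 : ℝ) ^ 2) ^ ((2 : ℝ) / 3))⁻¹) := by
      rw [Real.div_rpow hX0.le (by positivity), Real.mul_rpow (by positivity) (by positivity),
        div_eq_mul_inv, mul_inv]
    have e2 : (128 : ℝ) ^ (GG i j x.1 x.2).primeFactors.card ≤
        128 ^ 2 * (128 ^ x.1.primeFactors.card * 128 ^ x.2.primeFactors.card) := by
      rw [← pow_add, ← pow_add]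
      exact pow_le_pow_right₀ (by norm_num) (card_pf i j x.1 x.2)
    rw [e1]
    calc V * (C1 * C2 ^ x.1.primeFactors.card * 128 ^ (GG i j x.1 x.2).primeFactors.card) *
          (X ^ ((2 : ℝ) / 3) * ((((rad x.1 : ℝ) * x.1) ^ ((2 : ℝ) / 3))⁻¹ *
          (((x.2 : ℝ) ^ 2) ^ ((2 : ℝ) / 3))⁻¹))
        ≤ V * (C1 * C2 ^ x.1.primeFactors.card *
          (128 ^ 2 * (128 ^ x.1.primeFactors.card * 128 ^ x.2.primeFactors.card))) *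
          (X ^ ((2 : ℝ) / 3) * ((((rad x.1 : ℝ) * x.1) ^ ((2 : ℝ) / 3))⁻¹ *
          (((x.2 : ℝ) ^ 2) ^ ((2 : ℝ) / 3))⁻¹)) := by
          refine mul_le_mul_of_nonneg_right ?_ (by positivity)
          refine mul_le_mul_of_nonneg_left ?_ (by linarith)
          exact mul_le_mul_of_nonneg_left e2 (by positivity)
      _ = _ := by
          rw [mul_pow]
          ring
  have hQc : (Q.card : ℝ) ≤ X ^ (1 / 2000 : ℝ) := by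
    obtain ⟨y, hy⟩ : ∃ y : ℝ, y = X ^ (1 / 4000 : ℝ) := ⟨_, rfl⟩
    have hy0 : 0 ≤ y := by rw [hy]; positivity
    have h1 : Q ⊆ (Icc 1 ⌊y⌋₊) ×ˢ (Icc 1 ⌊y⌋₊) := by
      intro x hx
      obtain ⟨h1, h2, h3, h4⟩ := hQm x hx
      rw [← hy] at h3 h4
      rw [mem_product, mem_Icc, mem_Icc]
      exact ⟨⟨h1, Nat.le_floor h3⟩, h2, Nat.le_floor h4⟩
    have h2 := card_le_card h1
    rw [card_product, Nat.card_Icc, Nat.add_sub_cancel] at h2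
    have h3 : (Q.card : ℝ) ≤ (⌊y⌋₊ : ℝ) * ⌊y⌋₊ := by exact_mod_cast h2
    refine h3.trans ?_
    calc (⌊y⌋₊ : ℝ) * ⌊y⌋₊ ≤ y * y := by
          have := Nat.floor_le hy0
          gcongr
      _ = _ := by
          rw [hy, ← Real.rpow_add hX0]
          norm_num
  refine (sum_le_sum hk1).trans ?_
  rw [sum_add_distrib, sum_const, nsmul_eq_mul, ← mul_sum]
  have hsub : Q ⊆ (Icc 1 B) ×ˢ (Icc 1 B) := filter_subset _ _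
  have hk2 : ∑ x ∈ Q, (((C2 * 128) ^ x.1.primeFactors.card *
        (((rad x.1 : ℝ) * x.1) ^ ((2 : ℝ) / 3))⁻¹) *
        (128 ^ x.2.primeFactors.card * (((x.2 : ℝ) ^ 2) ^ ((2 : ℝ) / 3))⁻¹)) ≤ D1 * D2 := by
    refine (sum_le_sum_of_subset_of_nonneg hsub fun x _ _ => by positivity).trans ?_
    rw [sum_product]
    refine le_trans (le_of_eq ?_) (mul_le_mul (hs1 B) (hs2 B)
      (sum_nonneg fun x _ => by positivity) (by linarith))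
    rw [sum_mul_sum]
  have hk3 : (Q.card : ℝ) * (C3 * X ^ (2 / 3 - 1 / 1000 : ℝ)) ≤ C3 * X ^ ((2 : ℝ) / 3) := by
    calc (Q.card : ℝ) * (C3 * X ^ (2 / 3 - 1 / 1000 : ℝ))
        ≤ X ^ (1 / 2000 : ℝ) * (C3 * X ^ (2 / 3 - 1 / 1000 : ℝ)) :=
          mul_le_mul_of_nonneg_right hQc (by positivity)
      _ = C3 * (X ^ (1 / 2000 : ℝ) * X ^ (2 / 3 - 1 / 1000 : ℝ)) := by ring
      _ ≤ _ := by
          refine mul_le_mul_of_nonneg_left ?_ (by linarith)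
          rw [← Real.rpow_add hX0]
          exact Real.rpow_le_rpow_of_exponent_le hX (by norm_num)
  calc _ ≤ V * (C1 * 128 ^ 2) * X ^ ((2 : ℝ) / 3) * (D1 * D2) + C3 * X ^ ((2 : ℝ) / 3) :=
        add_le_add (mul_le_mul_of_nonneg_left hk2 (by positivity)) hk3
    _ ≤ V * (C1 * 128 ^ 2) * X ^ ((2 : ℝ) / 3) * (D1 * D2) + V * (C3 * X ^ ((2 : ℝ) / 3)) :=
        add_le_add le_rfl (le_mul_of_one_le_left (by positivity) hV1)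
    _ = _ := by ring

/-- **All the twists.** -/
theorem all_twists2 (θ : ℝ) (hθ0 : 0 < θ) (hθ : θ < 2 / 3) (K A : ℝ) (hK : 0 ≤ K)
    (hA : 0 ≤ A) :
    ∃ C : ℝ, 1 ≤ C ∧ ∀ X : ℝ, 1 ≤ X → ∀ d' : ℤ, d' ≠ 0 → (d'.natAbs : ℝ) ≤ X ^ A →
    ∀ s : ℤ, (s = 1 ∨ s = -1) → ∀ i j : ℕ, i ≤ 1 → j ≤ 2 →
    ∑ x ∈ (Icc 1 ⌊X⌋₊) ×ˢ (Icc 1 ⌊X⌋₊),
      ∑ p ∈ TT X K x.1 x.2, sel (d' * (s * ((GG i j x.1 x.2 : ℕ) : ℤ))) p ^ θ ≤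
      C * 128 ^ d'.natAbs.primeFactors.card * X ^ ((2 : ℝ) / 3) := by
  classical
  obtain ⟨C1, hC1, h1⟩ := small_twists2 θ hθ0 hθ K A hK hA
  obtain ⟨C2, hC2, h2⟩ := big_twists2 θ hθ0 hθ K A hK hA
  refine ⟨C1 + C2, by linarith, fun X hX d' hd' hd'X s hs i j hi hj => ?_⟩
  have hX0 : 0 < X := by linarith
  rw [← sum_filter_add_sum_filter_not ((Icc 1 ⌊X⌋₊) ×ˢ (Icc 1 ⌊X⌋₊)) (fun x : ℕ × ℕ =>
        (x.1 : ℝ) ≤ X ^ (1 / 4000 : ℝ) ∧ (x.2 : ℝ) ≤ X ^ (1 / 4000 : ℝ)), add_mul, add_mul]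
  refine add_le_add (h1 X hX d' hd' hd'X s hs i j hi hj)
    ((h2 X hX d' hd' hd'X s hs i j hi hj).trans ?_)
  refine mul_le_mul_of_nonneg_right ?_ (by positivity)
  exact le_mul_of_one_le_right (by linarith) (one_le_pow₀ (by norm_num))

end Pool.Agent.TH498.CO
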