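import Pool.Agent.TH498.CO.Fin
import Pool.Agent.TH498.CO.DatG
import Pool.Agent.TH498.CO.U3

set_option autoImplicit false

/-!
# The curves with full rational 2-torsion ordered by the conductor, with an additional twist
-/

namespace Pool.Agent.TH498.CO

open Finset Pool.Agent.W307.SE Pool.Agent.TH498.AR Pool.Agent.H328R2.ABC
  Pool.Agent.H925R.Szpiro Pool.Agent.TH841.SH

/-- the weight of the parameters -/
noncomputable def wpar2 (d : ℤ) (t : Par) : ℝ :=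
  sel (d * (t.1.1 * ((GG t.1.2.1 t.1.2.2 t.2.1.1 t.2.1.2 : ℕ) : ℤ))) t.2.2

/-- **The sum over the curves.** -/
theorem curves_sum2 (θ : ℝ) (hθ0 : 0 < θ) (hθ : θ < 2 / 3) (K A : ℝ) (hK : 0 ≤ K) (hA : 0 ≤ A) :
    ∃ C : ℝ, 1 ≤ C ∧ ∀ N : ℝ, 1 ≤ N → ∀ S : Finset (ℤ × ℤ),
    (∀ q ∈ S, IsMin q.1 q.2 ∧ FullS q.1 q.2 ∧ (condS q.1 q.2 : ℝ) ≤ N ∧
      |((D q.1 q.2 : ℤ) : ℝ)| ≤ N ^ K) →
    ∃ n : ℤ → ℤ × ℤ → ℝ, (∀ q ∈ S, ∀ d : ℤ, d ≠ 0 →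
        Bd (Pool.Agent.W307.RT.Sh (d ^ 2 * (-q.1)) (d ^ 3 * (-q.2))) (n d q)) ∧
      (∀ q ∈ S, ∃ e1 e2 e3 : ℤ, ∀ x : ℤ,
        x ^ 3 + (-q.1) * x + (-q.2) = (x - e1) * (x - e2) * (x - e3)) ∧
      ∀ d : ℤ, d ≠ 0 → (d.natAbs : ℝ) ≤ N ^ A →
        ∑ q ∈ S, n d q ^ θ ≤ C * 128 ^ d.natAbs.primeFactors.card * N ^ ((2 : ℝ) / 3) := by
  classical
  obtain ⟨C, hC, hall⟩ := all_twists2 θ hθ0 hθ K A hK hA
  refine ⟨12 * C * 6, by linarith, ?_⟩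
  intro N hN S hS
  obtain ⟨X, hX⟩ : ∃ X : ℝ, X = 6 * N := ⟨_, rfl⟩
  have hX1 : 1 ≤ X := by rw [hX]; linarith
  have hX0 : 0 < X := by linarith
  obtain ⟨B, hB⟩ : ∃ B : ℕ, B = ⌊X⌋₊ := ⟨_, rfl⟩
  set T : Finset Par := (({1, -1} : Finset ℤ) ×ˢ (range 2 ×ˢ range 3)) ×ˢ
    (((Icc 1 B) ×ˢ (Icc 1 B)).sigma fun x : ℕ × ℕ => TT X K x.1 x.2) with hT
  have hpar : ∀ q : ℤ × ℤ, ∃ t : Par, q ∈ S → (t ∈ T ∧
      (∀ d : ℤ, d ≠ 0 →
        Bd (Pool.Agent.W307.RT.Sh (d ^ 2 * (-q.1)) (d ^ 3 * (-q.2))) (wpar2 d t)) ∧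
      (∃ e1 e2 e3 : ℤ, ∀ x : ℤ,
        x ^ 3 + (-q.1) * x + (-q.2) = (x - e1) * (x - e2) * (x - e3)) ∧
      3 * q.1 = ((GG t.1.2.1 t.1.2.2 t.2.1.1 t.2.1.2 : ℕ) : ℤ) ^ 2 *
        ((t.2.2.1 : ℤ) ^ 2 + t.2.2.1 * t.2.2.2 + (t.2.2.2 : ℤ) ^ 2) ∧
      27 * q.2 = -(t.1.1 * (((GG t.1.2.1 t.1.2.2 t.2.1.1 t.2.1.2 : ℕ) : ℤ) ^ 3 *
        ((2 * (t.2.2.1 : ℤ) + t.2.2.2) * ((t.2.2.1 : ℤ) - t.2.2.2) *
          ((t.2.2.1 : ℤ) + 2 * t.2.2.2))))) := by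
    rintro ⟨a, b⟩
    by_cases hq : (a, b) ∈ S
    swap
    · exact ⟨((1, (0, 0)), ⟨(0, 0), (0, 0)⟩), fun h => absurd h hq⟩
    obtain ⟨hmin, hf, hc, hd⟩ := hS _ hq
    simp only at hmin hf hc hd
    obtain ⟨s, i, j, g₁, g₂, u, v, hs, hi, hj, hg1, hg2, hu, huv, hcop, hdvd, hcond, h3a, h27, hD,
      hroots, hbd⟩ := dataG a b hmin hf
    refine ⟨((s, (i, j)), ⟨(g₁, g₂), (u, v)⟩), fun _ => ⟨?_, hbd, hroots, h3a, h27⟩⟩
    have hg0 : 0 < GG i j g₁ g₂ :=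
      Nat.mul_pos (Nat.mul_pos (by positivity) (by positivity)) (Nat.mul_pos hg1 hg2)
    have hcR : ((rad (u * v * (u + v)) * (g₁ * g₂) * g₂ : ℕ) : ℝ) ≤ X := by
      have : ((rad (u * v * (u + v)) * (g₁ * g₂) * g₂ : ℕ) : ℝ) ≤ ((6 * condS a b : ℕ) : ℝ) := by
        exact_mod_cast hcond
      push_cast at this ⊢
      rw [hX]
      linarith
    have hgg : g₁ * g₂ ≤ B := by
      rw [hB]
      refine Nat.le_floor ?_
      have h1 : g₁ * g₂ ≤ rad (u * v * (u + v)) * (g₁ * g₂) * g₂ := by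
        calc g₁ * g₂ = 1 * (g₁ * g₂) * 1 := by ring
          _ ≤ _ := Nat.mul_le_mul (Nat.mul_le_mul_right _ (rad_pos _)) hg2
      exact le_trans (by exact_mod_cast h1) hcR
    have hg1B : g₁ ≤ B := (Nat.le_mul_of_pos_right _ hg2).trans hgg
    have hg2B : g₂ ≤ B := (Nat.le_mul_of_pos_left _ hg1).trans hgg
    have hheight : ((u + v : ℕ) : ℝ) ≤ X ^ K := by
      have h1 : ((u + v : ℕ) : ℤ) ≤ D a b := by
        rw [hD]
        have h2 : (1 : ℤ) ≤ ((GG i j g₁ g₂ : ℕ) : ℤ) ^ 6 := by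
          have : (1 : ℤ) ≤ ((GG i j g₁ g₂ : ℕ) : ℤ) := by exact_mod_cast hg0
          exact one_le_pow₀ this
        have hu1 : (1 : ℤ) ≤ u := by exact_mod_cast hu
        have hv1 : (1 : ℤ) ≤ v := by exact_mod_cast (by omega : 1 ≤ v)
        have h3 : ((u : ℤ) + v) ≤ (u * v * (u + v)) := by
          have : (1 : ℤ) ≤ u * v := by nlinarith
          nlinarith
        have h4 : ((u : ℤ) + v) ≤ (u * v * (u + v)) ^ 2 := by nlinarith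
        push_cast
        nlinarith
      have h2 : ((u + v : ℕ) : ℝ) ≤ ((D a b : ℤ) : ℝ) := by exact_mod_cast h1
      calc ((u + v : ℕ) : ℝ) ≤ |((D a b : ℤ) : ℝ)| := h2.trans (le_abs_self _)
        _ ≤ N ^ K := hd
        _ ≤ X ^ K := Real.rpow_le_rpow (by linarith) (by rw [hX]; linarith) hK
    rw [hT]
    simp only [mem_product, mem_sigma, mem_range, mem_Icc, mem_insert, mem_singleton]
    exact ⟨⟨hs, by omega, by omega⟩, ⟨⟨hg1, hg1B⟩, hg2, hg2B⟩,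
      mem_TT.2 ⟨hu, huv, hcop, hdvd, hcR, hheight⟩⟩
  choose τ hτ using hpar
  have hinj : Set.InjOn τ (S : Set (ℤ × ℤ)) := by
    intro q hq q' hq' h
    obtain ⟨-, -, -, h1, h2⟩ := hτ q hq
    obtain ⟨-, -, -, h1', h2'⟩ := hτ q' hq'
    rw [h] at h1 h2
    have e1 : q.1 = q'.1 := by linarith
    have e2 : q.2 = q'.2 := by linarith
    exact Prod.ext e1 e2
  refine ⟨fun d q => wpar2 d (τ q), fun q hq => (hτ q hq).2.1, fun q hq => (hτ q hq).2.2.1, ?_⟩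
  intro d hd0 hdN
  have hdX : (d.natAbs : ℝ) ≤ X ^ A :=
    hdN.trans (Real.rpow_le_rpow (by linarith) (by rw [hX]; linarith) hA)
  obtain ⟨V, hV⟩ : ∃ V : ℝ, V = 128 ^ d.natAbs.primeFactors.card := ⟨_, rfl⟩
  have hV1 : 1 ≤ V := by rw [hV]; exact one_le_pow₀ (by norm_num)
  rw [← hV]
  have hk1 : ∑ q ∈ S, wpar2 d (τ q) ^ θ ≤ ∑ t ∈ T, wpar2 d t ^ θ := by
    rw [← sum_image (f := fun t => wpar2 d t ^ θ) hinj]
    refine sum_le_sum_of_subset_of_nonneg ?_ fun t _ _ => Real.rpow_nonneg (sel_nonneg _ _) _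
    intro t ht
    obtain ⟨q, hq, rfl⟩ := mem_image.1 ht
    exact (hτ q hq).1
  refine hk1.trans ?_
  rw [hT, sum_product]
  have hk2 : ∀ x ∈ ({1, -1} : Finset ℤ) ×ˢ (range 2 ×ˢ range 3),
      ∑ y ∈ ((Icc 1 B) ×ˢ (Icc 1 B)).sigma fun x : ℕ × ℕ => TT X K x.1 x.2,
        wpar2 d (x, y) ^ θ ≤ C * V * X ^ ((2 : ℝ) / 3) := by
    rintro ⟨s, i, j⟩ hx
    rw [mem_product, mem_product, mem_range, mem_range, mem_insert, mem_singleton] at hx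
    simp only at hx
    rw [sum_sigma]
    have := hall X hX1 d hd0 hdX s hx.1 i j (by omega) (by omega)
    rw [← hB, ← hV] at this
    exact this
  refine (sum_le_card_nsmul _ _ _ hk2).trans ?_
  rw [nsmul_eq_mul]
  have hcard : (({1, -1} : Finset ℤ) ×ˢ (range 2 ×ˢ range 3)).card ≤ 12 := by
    rw [card_product, card_product, card_range, card_range]
    have h2 : ({1, -1} : Finset ℤ).card ≤ 2 := card_le_two
    omega
  have hcard' : (((({1, -1} : Finset ℤ) ×ˢ (range 2 ×ˢ range 3)).card : ℕ) : ℝ) ≤ 12 := by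
    exact_mod_cast hcard
  have hXN : X ^ ((2 : ℝ) / 3) ≤ 6 * N ^ ((2 : ℝ) / 3) := by
    rw [hX, Real.mul_rpow (by norm_num) (by linarith)]
    refine mul_le_mul_of_nonneg_right ?_ (by positivity)
    calc (6 : ℝ) ^ ((2 : ℝ) / 3) ≤ 6 ^ (1 : ℝ) :=
          Real.rpow_le_rpow_of_exponent_le (by norm_num) (by norm_num)
      _ = 6 := Real.rpow_one _
  calc _ ≤ 12 * (C * V * X ^ ((2 : ℝ) / 3)) := mul_le_mul_of_nonneg_right hcard' (by positivity)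
    _ ≤ 12 * (C * V * (6 * N ^ ((2 : ℝ) / 3))) := by gcongr
    _ = _ := by ring

end Pool.Agent.TH498.CO
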